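import Mathlib

set_option autoImplicit false

/-!
# Counting groups of order p^m: definitions

`R s i` is the subgroup generated by the first `i` marks.  `Good π s h` says that `s` (marks) and `h`
(the elements `T₂`) have the properties used in the counting argument (see notes/MP_6f76df_al.md).
-/

namespace Pool.Agent.Helper37.SM

/-- The subgroup generated by the first `i` marks. -/
def R {G : Type*} [Group G] (s : ℕ → G) (i : ℕ) : Subgroup G :=
  Subgroup.closure (s '' Set.Iio i)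

/-- Numerical parameters. `m` : |G| = p^m;  `z` : |C| = p^z;  `b` : |D| = p^b;  `n` : |[G,G]| = p^n;
`t` : number of elements of `T₂`;  `t1` : number of elements of `T₁`; `A` : rank bound; `a1` : saturation bound. -/
structure Par where
  (p m z b n t t1 A a1 : ℕ)

/-- The properties of a marked group. The marks are `s 0, ..., s (m+t-1)`:
`R s z = C`, `R s b = D`, `R s n = [G,G]`, then `s (n+k) = h k` for `k < t`, then `t1` marks (`T₁`), then the rest. -/
structure Good (π : Par) {G : Type} [Group G] (s h : ℕ → G) : Prop where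
  hz : π.z ≤ π.b
  hb : π.b ≤ π.n
  hL : π.n + π.t1 ≤ π.m
  cardG : Nat.card G = π.p ^ π.m
  top : R s (π.m + π.t) = ⊤
  norm : ∀ i < π.m + π.t, ∀ x ∈ R s i, (s i)⁻¹ * x * s i ∈ R s i
  hcomm : ∀ i < π.m + π.t, ∀ k < π.t, (s i)⁻¹ * (h k)⁻¹ * s i * h k ∈ R s i
  fix : ∀ v ∈ R s π.n, (∀ k < π.t, v * h k = h k * v) → v ∈ R s π.z
  comm : ∀ x y : G, x⁻¹ * y⁻¹ * x * y ∈ R s π.n
  cardz : Nat.card (R s π.z) = π.p ^ π.z
  cardb : Nat.card (R s π.b) = π.p ^ π.b
  rank : ∀ i ≤ π.z, ∀ y : G,
    Nat.card (R s i) ≤ π.p ^ π.A * Nat.card {c : G // c ∈ R s i ∧ c * y = y * c}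
  mark : ∀ k < π.t, s (π.n + k) = h k
  clD : R s π.b ≤ Subgroup.closure (s '' (Set.Iio π.z ∪ Set.Ico π.n (π.n + π.t + π.t1)))
  sat : ∀ j, π.n + π.t + π.t1 ≤ j → j < π.m + π.t →
    Nat.card (Subgroup.closure ((R s π.b : Set G) ∪
      {x | ∃ i, π.n + π.t ≤ i ∧ i < π.n + π.t + π.t1 ∧ x = (s i)⁻¹ * (s j)⁻¹ * s i * s j}))
      ≤ π.p ^ π.a1 * Nat.card (R s π.b)

/-- Marked groups with parameters `π`. -/
structure Obj (π : Par) where
  G : Type
  [grp : Group G]
  [fin : Finite G]
  s : ℕ → G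
  h : ℕ → G
  good : Good π s h

attribute [instance] Obj.grp Obj.fin

/-- The relation `r_i`: the subgroups generated by the first `i` marks are isomorphic, matching the marks
and the conjugation by the elements `h k`. -/
def Rel (π : Par) (i : ℕ) (O O' : Obj π) : Prop :=
  ∃ τ : R O.s i ≃* R O'.s i,
    (∀ j < i, ∀ x : R O.s i, (x : O.G) = O.s j → (τ x : O'.G) = O'.s j) ∧
    (∀ k < π.t, ∀ x x2 : R O.s i, (x2 : O.G) = (O.h k)⁻¹ * x * O.h k →
      (τ x2 : O'.G) = (O'.h k)⁻¹ * (τ x : O'.G) * O'.h k)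

/-- `Coded r N`: objects can be coded by `N` codes such that equal codes imply `r`. -/
def Coded {α : Type*} (r : α → α → Prop) (N : ℕ) : Prop :=
  ∃ g : α → Fin N, ∀ a b, g a = g b → r a b

/-- overhead exponent -/
def base (π : Par) : ℕ :=
  2 * π.m + 2 + π.m * π.t + π.m * π.p ^ π.A + π.A * π.m + π.m * π.p ^ π.a1 + π.a1 * π.m

/-- exponent of the cost of step `i` -/
def cost (π : Par) (i : ℕ) : ℕ :=
  base π + if i < π.n + π.t + π.t1 then π.z * (i - π.z)
    else π.z * (i - π.b - π.t - π.t1) + π.t1 * π.b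

/-- A group of order `p^m` (any type). -/
structure GrpObj (p m : ℕ) where
  G : Type
  [grp : Group G]
  card : Nat.card G = p ^ m

attribute [instance] GrpObj.grp

/-- A group of order `p^m` with `d` generators. -/
structure GenObj (p d m : ℕ) where
  G : Type
  [grp : Group G]
  card : Nat.card G = p ^ m
  g : Fin d → G
  gen : Subgroup.closure (Set.range g) = ⊤

attribute [instance] GenObj.grp

/-! ### basic lemmas on `R` -/

section basics
variable {G : Type*} [Group G] (s : ℕ → G)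

theorem mem_R {j i : ℕ} (h : j < i) : s j ∈ R s i :=
  Subgroup.subset_closure ⟨j, h, rfl⟩

theorem R_mono {i j : ℕ} (h : i ≤ j) : R s i ≤ R s j :=
  Subgroup.closure_mono (Set.image_mono (fun _ hx => lt_of_lt_of_le hx h))

theorem R_zero : R s 0 = ⊥ := by
  unfold R
  have : s '' Set.Iio 0 = ∅ := by
    ext x
    simp
  rw [this, Subgroup.closure_empty]

theorem R_succ (i : ℕ) : R s (i + 1) = R s i ⊔ Subgroup.zpowers (s i) := by
  unfold R
  rw [Subgroup.zpowers_eq_closure, ← Subgroup.closure_union]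
  congr 1
  ext x
  constructor
  · rintro ⟨j, hj, rfl⟩
    have hj' : j < i + 1 := hj
    rcases Nat.lt_succ_iff_lt_or_eq.mp hj' with h | h
    · exact Or.inl ⟨j, h, rfl⟩
    · subst h; exact Or.inr rfl
  · rintro (⟨j, hj, rfl⟩ | h)
    · exact ⟨j, lt_trans (show j < i from hj) (Nat.lt_succ_self i), rfl⟩
    · rw [Set.mem_singleton_iff] at h
      exact ⟨i, Nat.lt_succ_self i, h.symm⟩

theorem R_congr {s' : ℕ → G} {i : ℕ} (h : ∀ j < i, s j = s' j) : R s i = R s' i := by
  unfold R
  congr 1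
  ext x
  constructor
  · rintro ⟨j, hj, rfl⟩
    exact ⟨j, hj, (h j hj).symm⟩
  · rintro ⟨j, hj, rfl⟩
    exact ⟨j, hj, h j hj⟩

end basics

end Pool.Agent.Helper37.SM
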