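import Mathlib
import Pool.Agent.Helper37.SM.Defs

set_option autoImplicit false

namespace Pool.Agent.Helper37.SM

theorem Coded.step {α : Type*} {r r' : α → α → Prop} {N K : ℕ} (h : Coded r N)
    (hs : ∀ a₀ : α, ∃ (X : Type) (f : α → X) (S : Set X), S.Finite ∧ S.ncard ≤ K ∧
      (∀ a, r a a₀ → f a ∈ S) ∧ ∀ a b, r a a₀ → r b a₀ → f a = f b → r' a b) :
    Coded r' (N * K) := by
  classical
  obtain ⟨g, hg⟩ := h
  -- for every a₀ a code function
  have hc : ∀ a₀ : α, ∃ c : α → ℕ, (∀ a, r a a₀ → c a < K) ∧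
      ∀ a b, r a a₀ → r b a₀ → c a = c b → r' a b := by
    intro a₀
    obtain ⟨X, f, S, hfin, hcard, hmem, hr⟩ := hs a₀
    have : Finite S := hfin
    obtain ⟨n, ⟨e⟩⟩ := Finite.exists_equiv_fin S
    have hn : n ≤ K := by
      have : Nat.card S = n := by rw [Nat.card_congr e, Nat.card_fin]
      rw [← this]
      simpa [Set.ncard] using hcard
    refine ⟨fun a => if ha : f a ∈ S then (e ⟨f a, ha⟩ : ℕ) else 0, ?_, ?_⟩
    · intro a ha
      show (if ha : f a ∈ S then (e ⟨f a, ha⟩ : ℕ) else 0) < K
      rw [dif_pos (hmem a ha)]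
      exact lt_of_lt_of_le (e ⟨f a, hmem a ha⟩).2 hn
    · intro a b ha hb hab
      replace hab : (if ha : f a ∈ S then (e ⟨f a, ha⟩ : ℕ) else 0) =
        (if ha : f b ∈ S then (e ⟨f b, ha⟩ : ℕ) else 0) := hab
      rw [dif_pos (hmem a ha), dif_pos (hmem b hb)] at hab
      have h1 : e ⟨f a, hmem a ha⟩ = e ⟨f b, hmem b hb⟩ := Fin.ext hab
      have h2 := e.injective h1
      exact hr a b ha hb (congrArg Subtype.val h2)
  choose c hc1 hc2 using hc
  by_cases hα : Nonempty α
  · -- representative of a code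
    let rep : Fin N → α := fun k => if hk : ∃ a, g a = k then hk.choose else Classical.choice hα
    have hrep : ∀ a, g (rep (g a)) = g a := by
      intro a
      have hk : ∃ b, g b = g a := ⟨a, rfl⟩
      simp only [rep, dif_pos hk]
      exact hk.choose_spec
    have hra : ∀ a, r a (rep (g a)) := fun a => hg _ _ (hrep a).symm
    refine ⟨fun a => finProdFinEquiv (g a, ⟨c (rep (g a)) a, hc1 _ _ (hra a)⟩), ?_⟩
    intro a b hab
    have h1 := finProdFinEquiv.injective hab
    have h2 : g a = g b := congrArg Prod.fst h1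
    have h3 : c (rep (g a)) a = c (rep (g b)) b := congrArg Fin.val (congrArg Prod.snd h1)
    rw [← h2] at h3
    refine hc2 (rep (g a)) a b (hra a) ?_ h3
    rw [h2]
    exact hra b
  · exact ⟨fun a => (hα ⟨a⟩).elim, fun a => (hα ⟨a⟩).elim⟩

theorem Coded.mono {α : Type*} {r r' : α → α → Prop} {N N' : ℕ} (h : Coded r N) (hN : N ≤ N')
    (hr : ∀ a b, r a b → r' a b) : Coded r' N' := by
  obtain ⟨g, hg⟩ := h
  refine ⟨fun a => Fin.castLE hN (g a), fun a b hab => hr _ _ (hg _ _ ?_)⟩
  exact Fin.castLE_injective hN hab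

/-- Transfer along a map. -/
theorem Coded.comap {α β : Type*} {r : α → α → Prop} {r' : β → β → Prop} {N : ℕ} (h : Coded r N)
    (f : β → α) (hr : ∀ a b, r (f a) (f b) → r' a b) : Coded r' N := by
  obtain ⟨g, hg⟩ := h
  exact ⟨fun b => g (f b), fun a b hab => hr _ _ (hg _ _ hab)⟩

/-- Splitting according to an index. -/
theorem Coded.sigma {α : Type*} {r : α → α → Prop} {M N : ℕ} (idx : α → Fin M)
    (h : ∀ k : Fin M, Coded (fun a b : {a : α // idx a = k} => r a.1 b.1) N) : Coded r (M * N) := by
  choose g hg using h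
  refine ⟨fun a => finProdFinEquiv (idx a, g (idx a) ⟨a, rfl⟩), ?_⟩
  intro a b hab
  have h1 := finProdFinEquiv.injective hab
  have h2 : idx a = idx b := congrArg Prod.fst h1
  have h3 : g (idx a) ⟨a, rfl⟩ = g (idx b) ⟨b, rfl⟩ := congrArg Prod.snd h1
  have h5 : ∀ (k : Fin M) (hk : idx a = k), g (idx a) ⟨a, rfl⟩ = g k ⟨a, hk⟩ := by
    intro k hk
    subst hk
    rfl
  have h4 : g (idx b) ⟨a, h2⟩ = g (idx b) ⟨b, rfl⟩ := by
    rw [← h3]
    exact (h5 _ h2).symm
  exact hg (idx b) ⟨a, h2⟩ ⟨b, rfl⟩ h4

/-- Conditional counting: if the value at `j` takes at most `c j` values once the earlier values are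
fixed, then there are at most `∏ c j` functions. -/
theorem card_tree {X : Type*} [Finite X] (N : ℕ) (c : ℕ → ℕ) (S : Set (Fin N → X))
    (h : ∀ j : Fin N, ∀ u ∈ S,
      {x : X | ∃ v ∈ S, (∀ l < j, v l = u l) ∧ v j = x}.ncard ≤ c j) :
    S.ncard ≤ ∏ j ∈ Finset.range N, c j := by
  classical
  have : Fintype X := Fintype.ofFinite X
  induction N with
  | zero =>
    simp only [Finset.range_zero, Finset.prod_empty]
    have : S.Subsingleton := fun a _ b _ => Subsingleton.elim a b
    rcases this.eq_empty_or_singleton with h0 | ⟨x, h0⟩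
    · rw [h0, Set.ncard_empty]; exact Nat.zero_le _
    · rw [h0, Set.ncard_singleton]
  | succ N ih =>
    rw [Finset.prod_range_succ]
    -- restriction to the first N coordinates
    let S' : Set (Fin N → X) := (fun u : Fin (N + 1) → X => fun l : Fin N => u l.castSucc) '' S
    have hS' : S'.ncard ≤ ∏ j ∈ Finset.range N, c j := by
      apply ih
      rintro j _ ⟨u, hu, rfl⟩
      refine le_trans (Set.ncard_le_ncard ?_ (Set.toFinite _)) (h j.castSucc u hu)
      rintro x ⟨_, ⟨v, hv, rfl⟩, hv1, hv2⟩
      refine ⟨v, hv, ?_, hv2⟩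
      intro l hl
      have hlN : (l : ℕ) < N := lt_of_lt_of_le hl (by simp [j.2.le])
      have := hv1 ⟨l, hlN⟩ hl
      simpa using this
    -- fibres
    have hfin : S.Finite := Set.toFinite _
    have h1 : S.ncard ≤ S'.ncard * c N := by
      have h2 := Finset.card_le_mul_card_image (s := hfin.toFinset)
        (f := fun u : Fin (N + 1) → X => fun l : Fin N => u l.castSucc) (c N) ?_
      · rw [Set.ncard_eq_toFinset_card S hfin]
        refine h2.trans ?_
        rw [mul_comm]
        apply Nat.mul_le_mul_right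
        rw [Set.ncard_eq_toFinset_card S' (Set.toFinite _)]
        apply Finset.card_le_card
        intro x hx
        simp only [Finset.mem_image, Set.Finite.mem_toFinset] at hx ⊢
        obtain ⟨u, hu, rfl⟩ := hx
        exact ⟨u, hu, rfl⟩
      · intro w hw
        simp only [Finset.mem_image, Set.Finite.mem_toFinset] at hw
        obtain ⟨u, hu, rfl⟩ := hw
        have h3 := h (Fin.last N) u hu
        rw [Fin.val_last] at h3
        refine le_trans ?_ h3
        rw [Set.ncard_eq_toFinset_card _ (Set.toFinite _)]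
        apply Finset.card_le_card_of_injOn (fun v => v (Fin.last N))
        · intro v hv
          simp only [Finset.coe_filter, Set.Finite.mem_toFinset, Set.mem_ofPred_eq] at hv
          simp only [Set.Finite.coe_toFinset, Set.mem_ofPred_eq]
          refine ⟨v, hv.1, ?_, rfl⟩
          intro l hl
          have := congrFun hv.2 ⟨l, hl⟩
          simpa using this
        · intro v hv v' hv' hvv
          simp only [Finset.coe_filter, Set.Finite.mem_toFinset, Set.mem_ofPred_eq] at hv hv'
          funext l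
          refine Fin.lastCases hvv (fun l => ?_) l
          have := congrFun (hv.2.trans hv'.2.symm) l
          simpa using this
    exact h1.trans (Nat.mul_le_mul_right _ hS')

/-- Functions with few distinct values. -/
theorem card_few_values {ι X : Type*} [Finite ι] [Finite X] [Nonempty X] (V : ℕ) (S : Set (ι → X))
    (hS : ∀ u ∈ S, (Set.range u).ncard ≤ V) :
    S.ncard ≤ (Nat.card X) ^ V * V ^ (Nat.card ι) := by
  classical
  have : Fintype X := Fintype.ofFinite X
  have : Fintype ι := Fintype.ofFinite ι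
  -- every u ∈ S is of the form e ∘ k with e : Fin V → X, k : ι → Fin V
  have hsub : S ⊆ (fun q : (Fin V → X) × (ι → Fin V) => fun l => q.1 (q.2 l)) '' Set.univ := by
    intro u hu
    have h1 := hS u hu
    have h2 : Nat.card (Set.range u) ≤ V := h1
    have : Fintype (Set.range u) := Fintype.ofFinite _
    have h3 : Fintype.card (Set.range u) ≤ Fintype.card (Fin V) := by
      rw [← Nat.card_eq_fintype_card, Fintype.card_fin]; exact h2
    obtain ⟨k⟩ := Function.Embedding.nonempty_of_card_le h3
    refine ⟨(fun a => if ha : ∃ x, k x = a then (ha.choose : X) else Classical.choice inferInstance,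
      fun l => k ⟨u l, l, rfl⟩), trivial, ?_⟩
    funext l
    have ha : ∃ x, k x = k ⟨u l, l, rfl⟩ := ⟨_, rfl⟩
    simp only [dif_pos ha]
    have := k.injective ha.choose_spec
    rw [this]
  refine (Set.ncard_le_ncard hsub (Set.toFinite _)).trans ?_
  refine (Set.ncard_image_le (Set.toFinite _)).trans ?_
  rw [Set.ncard_univ, Nat.card_prod, Nat.card_fun, Nat.card_fun, Nat.card_fin]

/-- Fibre counting. -/
theorem ncard_le_mul_of_fibers {X Y : Type*} [Finite X] [Finite Y] (f : X → Y) (S : Set X) (T : Set Y)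
    (K : ℕ) (hf : ∀ x ∈ S, f x ∈ T) (hK : ∀ y ∈ T, {x | x ∈ S ∧ f x = y}.ncard ≤ K) :
    S.ncard ≤ T.ncard * K := by
  classical
  have hS : S.Finite := Set.toFinite _
  have hT : T.Finite := Set.toFinite _
  rw [Set.ncard_eq_toFinset_card S hS, Set.ncard_eq_toFinset_card T hT, mul_comm]
  have h1 := Finset.card_le_mul_card_image_of_maps_to (s := hS.toFinset) (t := hT.toFinset)
    (f := f) ?_ K ?_
  · exact h1
  · intro x hx
    simp only [Set.Finite.mem_toFinset] at hx ⊢
    exact hf x hx
  · intro y hy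
    simp only [Set.Finite.mem_toFinset] at hy
    refine le_trans ?_ (hK y hy)
    rw [Set.ncard_eq_toFinset_card _ (Set.toFinite _)]
    apply Finset.card_le_card
    intro x hx
    simp only [Finset.mem_filter, Set.Finite.mem_toFinset, Set.mem_ofPred_eq] at hx ⊢
    exact hx

end Pool.Agent.Helper37.SM
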