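import Mathlib
import Pool.Agent.Helper37.SM.Defs

set_option autoImplicit false

/-! Statements of the modules (see notes of MP_6f76df_al). -/

namespace Pool.Agent.Helper37.SM

/-- **M-EXT**: extension of an isomorphism by one more generator which normalises. -/
def Ext_Stmt : Prop :=
  ∀ (A B : Type) [Group A] [Group B] [Finite A] [Finite B] (A₀ : Subgroup A) (B₀ : Subgroup B)
    (τ : A₀ ≃* B₀) (y : A) (y' : B) (e : ℕ),
    (∀ x ∈ A₀, y⁻¹ * x * y ∈ A₀) → (∀ x ∈ B₀, y'⁻¹ * x * y' ∈ B₀) →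
    (∀ x x2 : A₀, (x2 : A) = y⁻¹ * x * y → (τ x2 : B) = y'⁻¹ * (τ x : B) * y') →
    0 < e → (∀ k, 0 < k → k < e → y ^ k ∉ A₀) → y ^ e ∈ A₀ →
    (∀ k, 0 < k → k < e → y' ^ k ∉ B₀) → y' ^ e ∈ B₀ →
    (∀ x : A₀, (x : A) = y ^ e → (τ x : B) = y' ^ e) →
    ∃ τ' : ↥(A₀ ⊔ Subgroup.zpowers y) ≃* ↥(B₀ ⊔ Subgroup.zpowers y'),
      (∀ (x : A₀) (x2 : ↥(A₀ ⊔ Subgroup.zpowers y)), (x2 : A) = x → (τ' x2 : B) = τ x) ∧
      (∀ x2 : ↥(A₀ ⊔ Subgroup.zpowers y), (x2 : A) = y → (τ' x2 : B) = y')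

/-- **M-KEY**: the key counting lemma. -/
def Key_Stmt : Prop :=
  ∀ (G : Type) [Group G] [Finite G] (s : ℕ → G) (i : ℕ) (ι : Type) (hh : ι → G)
    (P C : Subgroup G) (J : Set ℕ) (Γ : Set (MulAut (R s i))),
    (∀ j < i, ∀ x ∈ R s j, (s j)⁻¹ * x * s j ∈ R s j) →
    (∀ j < i, ∀ k, (s j)⁻¹ * (hh k)⁻¹ * s j * hh k ∈ R s j) →
    (∀ v ∈ P, (∀ k, v * hh k = hh k * v) → v ∈ C) →
    (∀ γ ∈ Γ, ∀ k, ∀ x x2 : R s i, (x2 : G) = (hh k)⁻¹ * x * hh k →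
      (γ x2 : G) = (hh k)⁻¹ * (γ x : G) * hh k) →
    (∀ γ ∈ Γ, ∀ x : R s i, (x : G)⁻¹ * (γ x : G) ∈ P) →
    (∀ γ ∈ Γ, ∀ j ∈ J, ∀ x : R s i, (x : G) = s j → γ x = x) →
    Γ.ncard ≤ Nat.card C ^ {j | j < i ∧ j ∉ J}.ncard

/-- **M-T2**: choice of `T₂`. -/
def T2_Stmt : Prop :=
  ∀ (p : ℕ) [Fact p.Prime] (G : Type) [Group G] [Finite G], IsPGroup p G →
    ∀ (P : Subgroup G) (A : ℕ), ∃ (t : ℕ) (h : ℕ → G) (C : Subgroup G),
      (∀ v, v ∈ C ↔ v ∈ P ∧ ∀ k < t, v * h k = h k * v) ∧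
      (∀ y : G, Nat.card C ≤ p ^ A * Nat.card {c : G // c ∈ C ∧ c * y = y * c}) ∧
      p ^ (A * t) * Nat.card C ≤ Nat.card P

/-- **M-RANK**: the rank property passes to subgroups of `C`. -/
def Rank_Stmt : Prop :=
  ∀ (G : Type) [Group G] [Finite G] (C X : Subgroup G) (y : G) (N : ℕ), X ≤ C →
    Nat.card C ≤ N * Nat.card {c : G // c ∈ C ∧ c * y = y * c} →
    Nat.card X ≤ N * Nat.card {c : G // c ∈ X ∧ c * y = y * c}

/-- **M-GEN**: a group `G` with `|G : [G,G]| = p^d` is generated by `d` elements. -/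
def Gen_Stmt : Prop :=
  ∀ (p : ℕ) [Fact p.Prime] (G : Type) [Group G] [Finite G], IsPGroup p G →
    ∀ d : ℕ, Nat.card (commutator G) * p ^ d = Nat.card G →
      ∃ g : Fin d → G, Subgroup.closure (Set.range g) = ⊤

section DT
variable {G : Type} [Group G]

/-- `K_T = <C, T₂, g_k (k ∈ T)>` -/
def KT (C : Subgroup G) (t : ℕ) (h : ℕ → G) {d : ℕ} (g : Fin d → G) (T : Finset (Fin d)) :
    Subgroup G :=
  Subgroup.closure ((C : Set G) ∪ h '' Set.Iio t ∪ g '' (T : Set (Fin d)))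

/-- `D(T) = K_T ∩ [G,G]` -/
def DT (C : Subgroup G) (t : ℕ) (h : ℕ → G) {d : ℕ} (g : Fin d → G) (T : Finset (Fin d)) :
    Subgroup G :=
  KT C t h g T ⊓ commutator G

end DT

/-- **M-GROW**: few generators give a large `D(T)`. -/
def Grow_Stmt : Prop :=
  ∀ (p : ℕ) [Fact p.Prime] (G : Type) [Group G] [Finite G], IsPGroup p G →
    ∀ (C : Subgroup G) (t : ℕ) (h : ℕ → G) (d : ℕ) (g : Fin d → G),
      C ≤ commutator G → Subgroup.closure (Set.range g) = ⊤ →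
      ∀ j : ℕ, p ^ j * Nat.card C ≤ Nat.card (commutator G) →
        ∃ T : Finset (Fin d), T.card ≤ 2 * j ∧ p ^ j * Nat.card C ≤ Nat.card (DT C t h g T)

/-- **M-SAT**: saturation. -/
def Sat_Stmt : Prop :=
  ∀ (p : ℕ) [Fact p.Prime] (G : Type) [Group G] [Finite G], IsPGroup p G →
    ∀ (C : Subgroup G) (t : ℕ) (h : ℕ → G) (d : ℕ) (g : Fin d → G) (T₀ : Finset (Fin d)) (w : ℕ),
      ∃ T : Finset (Fin d), T₀ ⊆ T ∧
        (∀ k, Nat.card (DT C t h g (insert k T)) ≤ p ^ w * Nat.card (DT C t h g T)) ∧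
        p ^ (w * (T.card - T₀.card)) * Nat.card (DT C t h g T₀) ≤ Nat.card (DT C t h g T)

/-- **M-CHAIN**: one step of the chain. -/
def Chain_Stmt : Prop :=
  ∀ (p : ℕ) [Fact p.Prime] (G : Type) [Group G] [Finite G], IsPGroup p G →
    ∀ (H A B : Subgroup G), A < B →
      (∀ x ∈ H, ∀ a ∈ A, x⁻¹ * a * x ∈ A) → (∀ x ∈ H, ∀ a ∈ B, x⁻¹ * a * x ∈ B) →
      ∃ y ∈ B, y ∉ A ∧ y ^ p ∈ A ∧ (∀ x ∈ B, y⁻¹ * x⁻¹ * y * x ∈ A) ∧
        (∀ x ∈ H, y⁻¹ * x⁻¹ * y * x ∈ A)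

/-- **M-MARKS**: marks for the chain `1 ≤ C ≤ D ≤ P`. -/
def Marks_Stmt : Prop :=
  ∀ (p : ℕ) [Fact p.Prime] (G : Type) [Group G] [Finite G], IsPGroup p G →
    ∀ (H C D P : Subgroup G) (z b n : ℕ), C ≤ D → D ≤ P →
      (∀ x ∈ H, ∀ a ∈ C, x⁻¹ * a * x ∈ C) → (∀ x ∈ H, ∀ a ∈ D, x⁻¹ * a * x ∈ D) →
      (∀ x ∈ H, ∀ a ∈ P, x⁻¹ * a * x ∈ P) →
      Nat.card C = p ^ z → Nat.card D = p ^ b → Nat.card P = p ^ n →
      ∃ c : ℕ → G, R c z = C ∧ R c b = D ∧ R c n = P ∧ (∀ i ≤ n, Nat.card (R c i) = p ^ i) ∧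
        (∀ i < n, ∀ x ∈ R c i, (c i)⁻¹ * x * c i ∈ R c i) ∧
        (∀ i < n, ∀ x ∈ H, (c i)⁻¹ * x⁻¹ * c i * x ∈ R c i)

/-- **M-EXIST**: every group of order `p^m` can be marked, in three ways. -/
def Exist_Stmt : Prop :=
  ∀ (p : ℕ) [Fact p.Prime] (G : Type) [Group G] [Finite G] (m A : ℕ), 1 ≤ A → Nat.card G = p ^ m →
    ∃ (z n t : ℕ) (h : ℕ → G), z ≤ n ∧ n ≤ m ∧ A * t ≤ n - z ∧
      (∃ g : Fin (m - n) → G, Subgroup.closure (Set.range g) = ⊤) ∧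
      (∃ s : ℕ → G, Good ⟨p, m, z, z, n, t, 0, A, 0⟩ s h) ∧
      (∃ (t1 : ℕ) (s : ℕ → G), t1 ≤ 2 * (n - z) ∧ n + t1 ≤ m ∧
        Good ⟨p, m, z, n, n, t, t1, A, 0⟩ s h) ∧
      (∀ j0 ≤ n - z, ∀ w, 1 ≤ w → ∃ (t1 b : ℕ) (s : ℕ → G), z + j0 ≤ b ∧ b ≤ n ∧ n + t1 ≤ m ∧
        w * (t1 - 2 * j0) ≤ n - z ∧ Good ⟨p, m, z, b, n, t, t1, A, w⟩ s h)

/-- **M-STEP**: the step of the counting argument. -/
def Step_Stmt : Prop :=
  ∀ (π : Par) [Fact π.p.Prime] (i : ℕ), i < π.m + π.t → ∀ O₀ : Obj π,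
    ∃ (X : Type) (f : Obj π → X) (S : Set X), S.Finite ∧ S.ncard ≤ π.p ^ (cost π i) ∧
      (∀ O, Rel π i O O₀ → f O ∈ S) ∧
      ∀ O O', Rel π i O O₀ → Rel π i O' O₀ → f O = f O' → Rel π (i + 1) O O'

/-- **M-SMALL**: the number of `d`-generator groups of order `p^m`. -/
def Small_Stmt : Prop :=
  ∀ (p : ℕ) [Fact p.Prime] (d m : ℕ),
    Coded (fun O O' : GenObj p d m => Nonempty (O.G ≃* O'.G)) (p ^ ((d + 1) * (m * (m + 1) / 2)))

/-- total exponent -/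
def tot (π : Par) : ℕ := ∑ i ∈ Finset.range (π.m + π.t), cost π i

/-- **M-NUM**: the numerical inequality. -/
def Num_Stmt : Prop :=
  ∀ p : ℕ, ∃ C : ℕ, ∀ m z n t : ℕ, 1 ≤ m → z ≤ n → n ≤ m → 100000 * t ≤ n - z →
    (tot ⟨p, m, z, z, n, t, 0, 100000, 0⟩ ≤ 2 * m ^ 3 / 27 + C * m ^ 2) ∨
    (∀ t1, t1 ≤ 2 * (n - z) → n + t1 ≤ m →
      tot ⟨p, m, z, n, n, t, t1, 100000, 0⟩ ≤ 2 * m ^ 3 / 27 + C * m ^ 2) ∨
    (∃ j0 ≤ n - z, ∀ t1 b, z + j0 ≤ b → b ≤ n → n + t1 ≤ m → 80 * (t1 - 2 * j0) ≤ n - z →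
      tot ⟨p, m, z, b, n, t, t1, 100000, 80⟩ ≤ 2 * m ^ 3 / 27 + C * m ^ 2) ∨
    ((m - n + 1) * (m * (m + 1) / 2) ≤ 2 * m ^ 3 / 27 + C * m ^ 2)

/-- **M-UPPER**: the upper bound (Sims' question). -/
def Upper_Stmt : Prop :=
  ∀ (p : ℕ) [Fact p.Prime], ∃ C : ℕ, ∀ m : ℕ, 1 ≤ m →
    Coded (fun O O' : GrpObj p m => Nonempty (O.G ≃* O'.G)) (p ^ (2 * m ^ 3 / 27 + C * m ^ 2))

/-! ### The lower bound -/

/-- The class-2 group of a bilinear map given by a matrix `β` with values in `F_p^n`. -/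
structure BG (p d n : ℕ) (β : Fin d → Fin d → Fin n → ZMod p) where
  v : Fin d → ZMod p
  w : Fin n → ZMod p

namespace BG
variable {p d n : ℕ} {β : Fin d → Fin d → Fin n → ZMod p}

/-- the bilinear map -/
def B (β : Fin d → Fin d → Fin n → ZMod p) (u v : Fin d → ZMod p) : Fin n → ZMod p :=
  ∑ i, ∑ j, (u i * v j) • β i j

@[ext] theorem ext' {x y : BG p d n β} (h1 : x.v = y.v) (h2 : x.w = y.w) : x = y := by
  cases x; cases y; simp_all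

instance : Mul (BG p d n β) := ⟨fun x y => ⟨x.v + y.v, x.w + y.w + B β x.v y.v⟩⟩
instance : One (BG p d n β) := ⟨⟨0, 0⟩⟩
instance : Inv (BG p d n β) := ⟨fun x => ⟨-x.v, -x.w + B β x.v x.v⟩⟩

theorem mul_v (x y : BG p d n β) : (x * y).v = x.v + y.v := rfl
theorem mul_w (x y : BG p d n β) : (x * y).w = x.w + y.w + B β x.v y.v := rfl
theorem one_v : (1 : BG p d n β).v = 0 := rfl
theorem one_w : (1 : BG p d n β).w = 0 := rfl
theorem inv_v (x : BG p d n β) : (x⁻¹).v = -x.v := rfl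
theorem inv_w (x : BG p d n β) : (x⁻¹).w = -x.w + B β x.v x.v := rfl

theorem B_add_left (u u' v : Fin d → ZMod p) : B β (u + u') v = B β u v + B β u' v := by
  simp only [B, Pi.add_apply, add_mul, add_smul, Finset.sum_add_distrib]
theorem B_add_right (u v v' : Fin d → ZMod p) : B β u (v + v') = B β u v + B β u v' := by
  simp only [B, Pi.add_apply, mul_add, add_smul, Finset.sum_add_distrib]
theorem B_zero_left (v : Fin d → ZMod p) : B β 0 v = 0 := by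
  simp [B]
theorem B_zero_right (v : Fin d → ZMod p) : B β v 0 = 0 := by
  simp [B]
theorem B_neg_left (u v : Fin d → ZMod p) : B β (-u) v = - B β u v := by
  simp only [B, Pi.neg_apply, neg_mul, neg_smul, Finset.sum_neg_distrib]

instance : Group (BG p d n β) where
  mul_assoc x y z := by
    apply ext'
    · simp only [mul_v, add_assoc]
    · simp only [mul_v, mul_w, B_add_left, B_add_right]; abel
  one_mul x := by
    apply ext'
    · simp only [mul_v, one_v, zero_add]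
    · simp only [mul_w, one_v, one_w, B_zero_left, zero_add, add_zero]
  mul_one x := by
    apply ext'
    · simp only [mul_v, one_v, add_zero]
    · simp only [mul_w, one_v, one_w, B_zero_right, add_zero]
  inv_mul_cancel x := by
    apply ext'
    · simp only [mul_v, inv_v, one_v, neg_add_cancel]
    · simp only [mul_w, inv_v, inv_w, one_w, B_neg_left]; abel

end BG

/-- The iso classes counted in the frozen statement. -/
def cls (p m : ℕ) (L : Set (FreeGroup ℕ)) : Type :=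
  Quot (fun H K : {H : Subgroup (Equiv.Perm (Fin (p ^ m))) //
      Nat.card H = p ^ m ∧ ∀ w ∈ L, ∀ x : ℕ → H, FreeGroup.lift x w = 1} =>
      Nonempty (H.1 ≃* K.1))

/-- **M-LOWER**: Higman's lower bound for any set of laws satisfied by all groups `BG`. -/
def Lower_Stmt : Prop :=
  ∀ (p : ℕ) [Fact p.Prime], ∃ C : ℕ, ∀ m : ℕ, 1 ≤ m → ∀ L : Set (FreeGroup ℕ),
    (∀ (d n : ℕ) (β : Fin d → Fin d → Fin n → ZMod p), ∀ w ∈ L, ∀ x : ℕ → BG p d n β,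
      FreeGroup.lift x w = 1) →
    p ^ (2 * m ^ 3 / 27) ≤ p ^ (C * m ^ 2) * Nat.card (cls p m L)

/-- **M-LAWS**: the laws of a non-abelian variety of p-groups hold in all groups `BG`. -/
def Laws_Stmt : Prop :=
  ∀ (p : ℕ) [Fact p.Prime] (L : Set (FreeGroup ℕ)),
    (∀ (G : Type) [Group G], (∀ w ∈ L, ∀ x : ℕ → G, FreeGroup.lift x w = 1) →
      IsPGroup p G ∧ (Group.FG G → Finite G)) →
    (∃ (G : Type) (_ : Group G), (∀ w ∈ L, ∀ x : ℕ → G, FreeGroup.lift x w = 1) ∧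
      ∃ a b : G, a * b ≠ b * a) →
    ∀ (d n : ℕ) (β : Fin d → Fin d → Fin n → ZMod p), ∀ w ∈ L, ∀ x : ℕ → BG p d n β,
      FreeGroup.lift x w = 1

end Pool.Agent.Helper37.SM
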