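import Mathlib
import Pool.Agent.Helper37.SM.Stmts

set_option autoImplicit false

/-! Existence of good marks, from the modules T2, Rank, Gen, Grow, Sat, Marks. -/

namespace Pool.Agent.Helper37.SM

open scoped commutatorElement

theorem exists_perm_finset {d : ℕ} (T : Finset (Fin d)) :
    ∃ σ : Equiv.Perm (Fin d), ∀ i : Fin d, σ i ∈ T ↔ (i : ℕ) < T.card := by
  classical
  have hd : T.card ≤ d := by
    have := Finset.card_le_univ T
    simpa using this
  have hcard : Fintype.card {i : Fin d // (i : ℕ) < T.card} = Fintype.card {i : Fin d // i ∈ T} := by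
    rw [Fintype.card_coe, Fintype.card_subtype]
    have : (Finset.univ.filter (fun i : Fin d => (i : ℕ) < T.card)).card = T.card := by
      have h1 : (Finset.univ.filter (fun i : Fin d => (i : ℕ) < T.card))
          = (Finset.univ : Finset (Fin T.card)).map (Fin.castLEEmb hd) := by
        ext i
        simp only [Finset.mem_filter, Finset.mem_univ, true_and, Finset.mem_map]
        constructor
        · intro h
          exact ⟨⟨i, h⟩, by ext; simp⟩
        · rintro ⟨j, rfl⟩
          simp
      rw [h1, Finset.card_map, Finset.card_univ, Fintype.card_fin]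
    exact this
  let e : {i : Fin d // (i : ℕ) < T.card} ≃ {i : Fin d // i ∈ T} := Fintype.equivOfCardEq hcard
  refine ⟨e.extendSubtype, ?_⟩
  intro i
  constructor
  · intro h
    by_contra h'
    exact (e.extendSubtype_not_mem i h') h
  · intro h
    exact e.extendSubtype_mem i h

/-- conjugation by the inverse stays in a subgroup containing the commutator subgroup -/
theorem conj_mem_of_comm_le {G : Type} [Group G] (K : Subgroup G) (hK : commutator G ≤ K)
    (x y : G) (hx : x ∈ K) : y⁻¹ * x * y ∈ K := by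
  have h1 : y⁻¹ * x * y = x * (x⁻¹ * y⁻¹ * x * y) := by group
  rw [h1]
  refine K.mul_mem hx (hK ?_)
  have : x⁻¹ * y⁻¹ * x * y = ⁅x⁻¹, y⁻¹⁆ := by
    rw [commutatorElement_def]; group
  rw [this]
  exact Subgroup.commutator_mem_commutator (Subgroup.mem_top _) (Subgroup.mem_top _)

theorem comm_mem {G : Type} [Group G] (x y : G) : x⁻¹ * y⁻¹ * x * y ∈ commutator G := by
  have : x⁻¹ * y⁻¹ * x * y = ⁅x⁻¹, y⁻¹⁆ := by
    rw [commutatorElement_def]; group
  rw [this]
  exact Subgroup.commutator_mem_commutator (Subgroup.mem_top _) (Subgroup.mem_top _)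

/-- The construction of a good marking from the data. -/
theorem build (hRank : Rank_Stmt) (hMarks : Marks_Stmt)
    (p : ℕ) [Fact p.Prime] (G : Type) [Group G] [Finite G] (hG : IsPGroup p G)
    (m A z n t a1 b d : ℕ) (h : ℕ → G) (C D : Subgroup G) (g : Fin d → G) (T : Finset (Fin d))
    (hmd : n + d = m)
    (hcardG : Nat.card G = p ^ m)
    (hC : ∀ v, v ∈ C ↔ v ∈ commutator G ∧ ∀ k < t, v * h k = h k * v)
    (hrank : ∀ y : G, Nat.card C ≤ p ^ A * Nat.card {c : G // c ∈ C ∧ c * y = y * c})
    (hcz : Nat.card C = p ^ z) (hcn : Nat.card (commutator G) = p ^ n)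
    (hcb : Nat.card D = p ^ b)
    (hg : Subgroup.closure (Set.range g) = ⊤)
    (hCD : C ≤ D) (hDP : D ≤ commutator G)
    (hDn : ∀ k < t, ∀ a ∈ D, (h k)⁻¹ * a * h k ∈ D)
    (hDK : D ≤ KT C t h g T)
    (hsat : ∀ k : Fin d, k ∉ T →
      Nat.card (Subgroup.closure ((D : Set G) ∪
        {x | ∃ i ∈ T, x = (g i)⁻¹ * (g k)⁻¹ * g i * g k})) ≤ p ^ a1 * Nat.card D) :
    z ≤ b ∧ b ≤ n ∧ n + T.card ≤ m ∧
    ∃ s : ℕ → G, Good ⟨p, m, z, b, n, t, T.card, A, a1⟩ s h := by
  classical
  have hp : 1 < p := (Fact.out : p.Prime).one_lt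
  have hzb : z ≤ b := by
    have h1 : Nat.card C ≤ Nat.card D := Subgroup.card_le_of_le hCD
    rw [hcz, hcb] at h1
    exact (Nat.pow_le_pow_iff_right hp).mp h1
  have hbn : b ≤ n := by
    have h1 : Nat.card D ≤ Nat.card (commutator G) := Subgroup.card_le_of_le hDP
    rw [hcn, hcb] at h1
    exact (Nat.pow_le_pow_iff_right hp).mp h1
  have hTd : T.card ≤ d := by
    have := Finset.card_le_univ T
    simpa using this
  refine ⟨hzb, hbn, by omega, ?_⟩
  obtain ⟨σ, hσ⟩ := exists_perm_finset T
  -- the subgroup H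
  set H : Subgroup G := Subgroup.closure (h '' Set.Iio t) with hH
  have hCH : ∀ x ∈ H, ∀ a ∈ C, x⁻¹ * a * x ∈ C := by
    intro x hx a ha
    have hcomm : a * x = x * a := by
      have : x ∈ Subgroup.centralizer {a} := by
        refine (Subgroup.closure_le _).mpr ?_ hx
        rintro _ ⟨k, hk, rfl⟩
        rw [SetLike.mem_coe, Subgroup.mem_centralizer_singleton_iff]
        exact (((hC a).1 ha).2 k hk).symm
      rw [Subgroup.mem_centralizer_singleton_iff] at this
      exact this.symm
    have : x⁻¹ * a * x = a := by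
      rw [mul_assoc, hcomm]; group
    rw [this]; exact ha
  have hDH : ∀ x ∈ H, ∀ a ∈ D, x⁻¹ * a * x ∈ D := by
    have key : H ≤ Subgroup.normalizer (D : Set G) := by
      refine (Subgroup.closure_le _).mpr ?_
      rintro _ ⟨k, hk, rfl⟩
      have h1 : (h k)⁻¹ ∈ Subgroup.normalizer (D : Set G) := by
        apply Subgroup.mem_normalizer_fintype
        intro a ha
        have := hDn k hk a ha
        simpa using this
      have h2 := (Subgroup.normalizer (D : Set G)).inv_mem h1
      rwa [inv_inv] at h2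
    intro x hx a ha
    exact (Subgroup.mem_normalizer_iff''.mp (key hx) a).mp ha
  have hPH : ∀ x ∈ H, ∀ a ∈ commutator G, x⁻¹ * a * x ∈ commutator G := by
    intro x _ a ha
    exact conj_mem_of_comm_le _ le_rfl a x ha
  obtain ⟨c, hc1, hc2, hc3, hc4, hc5, hc6⟩ := hMarks p G hG H C D (commutator G) z b n hCD hDP
    hCH hDH hPH hcz hcb hcn
  -- the marks
  let s : ℕ → G := fun j =>
    if j < n then c j else if j < n + t then h (j - n)
    else if hj : j - (n + t) < d then g (σ ⟨j - (n + t), hj⟩) else 1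
  have hs1 : ∀ j < n, s j = c j := by
    intro j hj
    simp only [s, if_pos hj]
  have hs2 : ∀ k < t, s (n + k) = h k := by
    intro k hk
    have h1 : ¬ (n + k < n) := by omega
    have h2 : n + k < n + t := by omega
    have h3 : n + k - n = k := by omega
    simp only [s, if_neg h1, if_pos h2, h3]
  have hs3 : ∀ i : Fin d, s (n + t + i) = g (σ i) := by
    intro i
    have h1 : ¬ (n + t + (i : ℕ) < n) := by omega
    have h2 : ¬ (n + t + (i : ℕ) < n + t) := by omega
    have h3 : n + t + (i : ℕ) - (n + t) = i := by omega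
    have h4 : n + t + (i : ℕ) - (n + t) < d := by rw [h3]; exact i.2
    simp only [s, if_neg h1, if_neg h2, dif_pos h4]
    congr 2
    ext
    simp
  have hR : ∀ i ≤ n, R s i = R c i := by
    intro i hi
    exact R_congr s (fun j hj => hs1 j (lt_of_lt_of_le hj hi))
  have hRz : R s z = C := by rw [hR z (by omega), hc1]
  have hRb : R s b = D := by rw [hR b (by omega), hc2]
  have hRn : R s n = commutator G := by rw [hR n le_rfl, hc3]
  have hPR : ∀ i, n ≤ i → commutator G ≤ R s i := by
    intro i hi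
    rw [← hRn]
    exact R_mono s hi
  refine ⟨s, ?_⟩
  refine { hz := hzb, hb := hbn, hL := by show n + T.card ≤ m; omega, cardG := hcardG, top := ?_, norm := ?_,
           hcomm := ?_, fix := ?_, comm := ?_, cardz := ?_, cardb := ?_, rank := ?_, mark := ?_,
           clD := ?_, sat := ?_ }
  · -- top
    show R s (m + t) = ⊤
    rw [eq_top_iff, ← hg]
    refine (Subgroup.closure_le _).mpr ?_
    rintro _ ⟨k, rfl⟩
    have h1 := hs3 (σ.symm k)
    rw [Equiv.apply_symm_apply] at h1
    rw [← h1]
    refine mem_R s ?_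
    have := (σ.symm k).2
    omega
  · -- norm
    intro i hi x hx
    by_cases hin : i < n
    · rw [hR i hin.le] at hx ⊢
      rw [hs1 i hin]
      exact hc5 i hin x hx
    · exact conj_mem_of_comm_le _ (hPR i (by omega)) x (s i) hx
  · -- hcomm
    intro i hi k hk
    by_cases hin : i < n
    · rw [hR i hin.le]
      rw [hs1 i hin]
      exact hc6 i hin (h k) (Subgroup.subset_closure ⟨k, hk, rfl⟩)
    · exact hPR i (by omega) (comm_mem _ _)
  · -- fix
    intro v hv hv2
    show v ∈ R s z
    change v ∈ R s n at hv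
    rw [hRn] at hv
    rw [hRz, hC]
    exact ⟨hv, hv2⟩
  · -- comm
    intro x y
    show _ ∈ R s n
    rw [hRn]
    exact comm_mem x y
  · show Nat.card (R s z) = p ^ z
    rw [hRz]; exact hcz
  · show Nat.card (R s b) = p ^ b
    rw [hRb]; exact hcb
  · -- rank
    intro i hi y
    change i ≤ z at hi
    show Nat.card (R s i) ≤ p ^ A * Nat.card {c : G // c ∈ R s i ∧ c * y = y * c}
    refine hRank G C (R s i) y (p ^ A) ?_ (hrank y)
    rw [← hRz]
    exact R_mono s hi
  · -- mark
    intro k hk
    exact hs2 k hk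
  · -- clD
    show R s b ≤ Subgroup.closure (s '' (Set.Iio z ∪ Set.Ico n (n + t + T.card)))
    rw [hRb]
    refine hDK.trans ?_
    unfold KT
    refine (Subgroup.closure_le _).mpr ?_
    rintro x ((hx | ⟨k, hk, rfl⟩) | ⟨k, hk, rfl⟩)
    · have hx' : x ∈ R s z := by rw [hRz]; exact hx
      unfold R at hx'
      refine Subgroup.closure_mono ?_ hx'
      exact Set.image_mono Set.subset_union_left
    · rw [← hs2 k hk]
      refine Subgroup.subset_closure ⟨n + k, Or.inr ?_, rfl⟩
      have hk' : k < t := hk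
      exact ⟨by omega, by omega⟩
    · have h1 := hs3 (σ.symm k)
      rw [Equiv.apply_symm_apply] at h1
      rw [← h1]
      have h2 : ((σ.symm k : Fin d) : ℕ) < T.card := by
        rw [← hσ, Equiv.apply_symm_apply]; exact hk
      refine Subgroup.subset_closure ⟨n + t + ((σ.symm k : Fin d) : ℕ), Or.inr ?_, rfl⟩
      exact ⟨by omega, by omega⟩
  · -- sat
    intro j hj1 hj2
    change n + t + T.card ≤ j at hj1
    change j < m + t at hj2
    show Nat.card (Subgroup.closure ((R s b : Set G) ∪
      {x | ∃ i, n + t ≤ i ∧ i < n + t + T.card ∧ x = (s i)⁻¹ * (s j)⁻¹ * s i * s j}))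
      ≤ p ^ a1 * Nat.card (R s b)
    rw [hRb]
    have hjd : j - (n + t) < d := by omega
    set k : Fin d := σ ⟨j - (n + t), hjd⟩ with hk
    have hkT : k ∉ T := by
      rw [hk, hσ]
      show ¬ (j - (n + t) < T.card)
      omega
    have hsj : s j = g k := by
      have := hs3 ⟨j - (n + t), hjd⟩
      rw [← hk] at this
      rw [← this]
      congr 1
      show j = n + t + (j - (n + t))
      omega
    refine le_trans ?_ (hsat k hkT)
    refine Subgroup.card_le_of_le (Subgroup.closure_mono ?_)
    rintro x (hx | ⟨i, hi1, hi2, rfl⟩)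
    · exact Or.inl hx
    · right
      have hid : i - (n + t) < d := by omega
      refine ⟨σ ⟨i - (n + t), hid⟩, ?_, ?_⟩
      · rw [hσ]
        show i - (n + t) < T.card
        omega
      · have hsi : s i = g (σ ⟨i - (n + t), hid⟩) := by
          have := hs3 ⟨i - (n + t), hid⟩
          rw [← this]
          congr 1
          show i = n + t + (i - (n + t))
          omega
        rw [hsi, hsj]

/-- the element `[g_i, g_k]` lies in `D(T ∪ {k})`, so the saturation of `D(T)` is in `D(T ∪ {k})`. -/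
theorem sat_le {G : Type} [Group G] (C : Subgroup G) (t : ℕ) (h : ℕ → G) {d : ℕ} (g : Fin d → G)
    (T : Finset (Fin d)) (k : Fin d) :
    Subgroup.closure ((DT C t h g T : Set G) ∪
        {x | ∃ i ∈ T, x = (g i)⁻¹ * (g k)⁻¹ * g i * g k}) ≤ DT C t h g (insert k T) := by
  classical
  refine (Subgroup.closure_le _).mpr ?_
  have hmono : KT C t h g T ≤ KT C t h g (insert k T) := by
    unfold KT
    refine Subgroup.closure_mono ?_
    refine Set.union_subset_union_right _ (Set.image_mono ?_)
    intro x hx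
    exact Finset.mem_insert_of_mem hx
  rintro x (hx | ⟨i, hi, rfl⟩)
  · exact ⟨hmono hx.1, hx.2⟩
  · refine ⟨?_, comm_mem _ _⟩
    have h1 : g i ∈ KT C t h g (insert k T) :=
      Subgroup.subset_closure (Or.inr ⟨i, Finset.mem_insert_of_mem hi, rfl⟩)
    have h2 : g k ∈ KT C t h g (insert k T) :=
      Subgroup.subset_closure (Or.inr ⟨k, Finset.mem_insert_self k T, rfl⟩)
    exact (KT C t h g (insert k T)).mul_mem ((KT C t h g (insert k T)).mul_mem
      ((KT C t h g (insert k T)).mul_mem ((KT C t h g (insert k T)).inv_mem h1)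
        ((KT C t h g (insert k T)).inv_mem h2)) h1) h2

/-- **M-EXIST** from the other modules. -/
theorem exist_of (hT2 : T2_Stmt) (hRank : Rank_Stmt) (hGen : Gen_Stmt) (hGrow : Grow_Stmt)
    (hSat : Sat_Stmt) (hMarks : Marks_Stmt) : Exist_Stmt := by
  classical
  intro p _ G _ _ m A hA hcardG
  have hpp : p.Prime := Fact.out
  have hp : 1 < p := hpp.one_lt
  have hG : IsPGroup p G := IsPGroup.of_card hcardG
  obtain ⟨t, h, C, hC, hrank, hAt⟩ := hT2 p G hG (commutator G) A
  obtain ⟨z, hcz⟩ := (hG.to_subgroup C).exists_card_eq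
  obtain ⟨n, hcn⟩ := (hG.to_subgroup (commutator G)).exists_card_eq
  have hCP : C ≤ commutator G := fun v hv => ((hC v).1 hv).1
  have hzn : z ≤ n := by
    have h1 : Nat.card C ≤ Nat.card (commutator G) := Subgroup.card_le_of_le hCP
    rw [hcz, hcn] at h1
    exact (Nat.pow_le_pow_iff_right hp).mp h1
  have hnm : n ≤ m := by
    have h1 : Nat.card (commutator G) ≤ Nat.card (⊤ : Subgroup G) :=
      Subgroup.card_le_of_le le_top
    rw [Subgroup.card_top, hcardG, hcn] at h1
    exact (Nat.pow_le_pow_iff_right hp).mp h1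
  have hAt' : A * t ≤ n - z := by
    rw [hcz, hcn, ← pow_add] at hAt
    have := (Nat.pow_le_pow_iff_right hp).mp hAt
    omega
  obtain ⟨g, hg⟩ := hGen p G hG (m - n) (by
    rw [hcn, hcardG, ← pow_add]; congr 1; omega)
  have hmd : n + (m - n) = m := by omega
  -- basic facts on `DT`
  have hCD : ∀ T : Finset (Fin (m - n)), C ≤ DT C t h g T := by
    intro T x hx
    exact ⟨Subgroup.subset_closure (Or.inl (Or.inl hx)), hCP hx⟩
  have hDP : ∀ T : Finset (Fin (m - n)), DT C t h g T ≤ commutator G := fun T x hx => hx.2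
  have hDK : ∀ T : Finset (Fin (m - n)), DT C t h g T ≤ KT C t h g T := fun T x hx => hx.1
  have hDn : ∀ T : Finset (Fin (m - n)), ∀ k < t, ∀ a ∈ DT C t h g T,
      (h k)⁻¹ * a * h k ∈ DT C t h g T := by
    intro T k hk a ha
    have h1 : h k ∈ KT C t h g T := Subgroup.subset_closure (Or.inl (Or.inr ⟨k, hk, rfl⟩))
    refine ⟨(KT C t h g T).mul_mem ((KT C t h g T).mul_mem ((KT C t h g T).inv_mem h1) ha.1) h1, ?_⟩
    exact conj_mem_of_comm_le _ le_rfl a (h k) ha.2
  refine ⟨z, n, t, h, hzn, hnm, hAt', ⟨g, hg⟩, ?_, ?_, ?_⟩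
  · -- Opt0 : `D = C`
    have e1 : ∀ k < t, ∀ a ∈ C, (h k)⁻¹ * a * h k ∈ C := by
      intro k hk a ha
      have h1 : a * h k = h k * a := ((hC a).1 ha).2 k hk
      have h2 : (h k)⁻¹ * a * h k = a := by
        rw [mul_assoc, h1]; group
      rw [h2]; exact ha
    have e2 : C ≤ KT C t h g ∅ := by
      intro x hx
      exact Subgroup.subset_closure (Or.inl (Or.inl hx))
    have e3 : ∀ k : Fin (m - n), k ∉ (∅ : Finset (Fin (m - n))) →
      Nat.card (Subgroup.closure ((C : Set G) ∪
        {x | ∃ i ∈ (∅ : Finset (Fin (m - n))), x = (g i)⁻¹ * (g k)⁻¹ * g i * g k}))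
          ≤ p ^ 0 * Nat.card C := by
      intro k _
      have : Subgroup.closure ((C : Set G) ∪
        {x | ∃ i ∈ (∅ : Finset (Fin (m - n))), x = (g i)⁻¹ * (g k)⁻¹ * g i * g k}) = C := by
        have h0 : {x | ∃ i ∈ (∅ : Finset (Fin (m - n))), x = (g i)⁻¹ * (g k)⁻¹ * g i * g k}
            = (∅ : Set G) := by
          ext x
          simp
        rw [h0, Set.union_empty, Subgroup.closure_eq]
      rw [this]; simp
    obtain ⟨_, _, _, s, hs⟩ := build hRank hMarks p G hG m A z n t 0 z (m - n) h C C g ∅ hmd hcardG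
      hC hrank hcz hcn hcz hg le_rfl hCP e1 e2 e3
    exact ⟨s, hs⟩
  · -- Opt1 : `D = P`
    obtain ⟨T, hT1, hT2'⟩ := hGrow p G hG C t h (m - n) g hCP hg (n - z) (by
      rw [hcz, hcn, ← pow_add]
      exact le_of_eq (by congr 1; omega))
    have hDeq : DT C t h g T = commutator G := by
      refine Subgroup.eq_of_le_of_card_ge (hDP T) ?_
      refine le_trans (le_of_eq ?_) hT2'
      rw [hcz, hcn, ← pow_add]; congr 1; omega
    have e1 : ∀ k < t, ∀ a ∈ commutator G, (h k)⁻¹ * a * h k ∈ commutator G := by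
      intro k _ a ha
      exact conj_mem_of_comm_le _ le_rfl a (h k) ha
    have e2 : commutator G ≤ KT C t h g T := by
      rw [← hDeq]; exact hDK T
    have e3 : ∀ k : Fin (m - n), k ∉ T →
      Nat.card (Subgroup.closure ((commutator G : Set G) ∪
        {x | ∃ i ∈ T, x = (g i)⁻¹ * (g k)⁻¹ * g i * g k}))
          ≤ p ^ 0 * Nat.card (commutator G) := by
      intro k _
      rw [pow_zero, one_mul]
      refine Subgroup.card_le_of_le ?_
      rw [← hDeq]
      refine (sat_le C t h g T k).trans ?_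
      rw [hDeq]; exact hDP _
    obtain ⟨_, _, hnt, s, hs⟩ := build hRank hMarks p G hG m A z n t 0 n (m - n) h C (commutator G) g T
      hmd hcardG hC hrank hcz hcn hcn hg hCP le_rfl e1 e2 e3
    exact ⟨T.card, s, hT1, hnt, hs⟩
  · -- Opt2
    intro j0 hj0 w hw
    obtain ⟨T0, hT01, hT02⟩ := hGrow p G hG C t h (m - n) g hCP hg j0 (by
      rw [hcz, hcn, ← pow_add]
      exact Nat.pow_le_pow_right hpp.pos (by omega))
    obtain ⟨T, hT0T, hTsat, hTcard⟩ := hSat p G hG C t h (m - n) g T0 w
    obtain ⟨b, hcb⟩ := (hG.to_subgroup (DT C t h g T)).exists_card_eq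
    obtain ⟨b0, hcb0⟩ := (hG.to_subgroup (DT C t h g T0)).exists_card_eq
    have hb0 : z + j0 ≤ b0 := by
      rw [hcb0, hcz, ← pow_add] at hT02
      have := (Nat.pow_le_pow_iff_right hp).mp hT02
      omega
    have hwb : w * (T.card - T0.card) + b0 ≤ b := by
      rw [hcb0, hcb, ← pow_add] at hTcard
      exact (Nat.pow_le_pow_iff_right hp).mp hTcard
    have hb0b : b0 ≤ b := by omega
    have e3 : ∀ k : Fin (m - n), k ∉ T →
      Nat.card (Subgroup.closure ((DT C t h g T : Set G) ∪
        {x | ∃ i ∈ T, x = (g i)⁻¹ * (g k)⁻¹ * g i * g k}))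
          ≤ p ^ w * Nat.card (DT C t h g T) := by
      intro k _
      exact le_trans (Subgroup.card_le_of_le (sat_le C t h g T k)) (hTsat k)
    obtain ⟨_, hbn, hnt, s, hs⟩ := build hRank hMarks p G hG m A z n t w b (m - n) h C (DT C t h g T) g T
      hmd hcardG hC hrank hcz hcn hcb hg (hCD T) (hDP T) (hDn T) (hDK T) e3
    refine ⟨T.card, b, s, by omega, hbn, hnt, ?_, hs⟩
    have h1 : w * (T.card - 2 * j0) ≤ w * (T.card - T0.card) :=
      Nat.mul_le_mul_left _ (by omega)
    omega

end Pool.Agent.Helper37.SM
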