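import Mathlib
import Pool.Agent.Helper37.SM.Stmts

set_option autoImplicit false

namespace Pool.Agent.Helper37.SM

namespace ExtM

/-- conjugation by `g` and `g⁻¹` preserve a finite subgroup as soon as one of them does. -/
theorem conj_mem {G : Type*} [Group G] (N : Subgroup G) [Finite N] (g : G)
    (h : ∀ x ∈ N, g⁻¹ * x * g ∈ N) : ∀ x ∈ N, g * x * g⁻¹ ∈ N := by
  have hinj : Function.Injective (fun x : N => (⟨g⁻¹ * x * g, h x x.2⟩ : N)) := by
    intro a b hab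
    have : g⁻¹ * (a : G) * g = g⁻¹ * (b : G) * g := congrArg Subtype.val hab
    apply Subtype.ext
    have h2 : (a : G) = b := by
      have := mul_right_cancel this
      exact mul_left_cancel this
    exact h2
  have hsurj := Finite.surjective_of_injective hinj
  intro x hx
  obtain ⟨z, hz⟩ := hsurj ⟨x, hx⟩
  have hz' : g⁻¹ * (z : G) * g = x := congrArg Subtype.val hz
  have : g * x * g⁻¹ = z := by
    rw [← hz']; group
  rw [this]; exact z.2

theorem conj_zpow_mem {G : Type*} [Group G] (N : Subgroup G) [Finite N] (g : G)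
    (h : ∀ x ∈ N, g⁻¹ * x * g ∈ N) (k : ℤ) : ∀ x ∈ N, g ^ k * x * (g ^ k)⁻¹ ∈ N := by
  have hg : g ∈ Subgroup.normalizer (N : Set G) := by
    rw [Subgroup.mem_normalizer_iff]
    intro x
    constructor
    · intro hx; exact conj_mem N g h x hx
    · intro hx
      have := h _ hx
      have h2 : g⁻¹ * (g * x * g⁻¹) * g = x := by group
      rwa [h2] at this
  have hk : g ^ k ∈ Subgroup.normalizer (N : Set G) := Subgroup.zpow_mem _ hg k
  intro x hx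
  exact ((Subgroup.mem_normalizer_iff.mp hk) x).mp hx

/-- the subgroup of products `n * g^k` -/
def prodSub {G : Type*} [Group G] (N : Subgroup G) [Finite N] (g : G)
    (h : ∀ x ∈ N, g⁻¹ * x * g ∈ N) : Subgroup G where
  carrier := {x | ∃ n ∈ N, ∃ k : ℤ, x = n * g ^ k}
  one_mem' := ⟨1, N.one_mem, 0, by simp⟩
  mul_mem' := by
    rintro a b ⟨n, hn, k, rfl⟩ ⟨m, hm, l, rfl⟩
    refine ⟨n * (g ^ k * m * (g ^ k)⁻¹), N.mul_mem hn (conj_zpow_mem N g h k m hm), k + l, ?_⟩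
    rw [zpow_add]; group
  inv_mem' := by
    rintro a ⟨n, hn, k, rfl⟩
    refine ⟨g ^ (-k) * n⁻¹ * (g ^ (-k))⁻¹, conj_zpow_mem N g h (-k) _ (N.inv_mem hn), -k, ?_⟩
    group

theorem prodSub_eq {G : Type*} [Group G] (N : Subgroup G) [Finite N] (g : G)
    (h : ∀ x ∈ N, g⁻¹ * x * g ∈ N) : prodSub N g h = N ⊔ Subgroup.zpowers g := by
  apply le_antisymm
  · rintro x ⟨n, hn, k, rfl⟩
    exact Subgroup.mul_mem _ (Subgroup.mem_sup_left hn)
      (Subgroup.mem_sup_right (Subgroup.zpow_mem_zpowers g k))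
  · apply sup_le
    · intro n hn
      exact ⟨n, hn, 0, by simp⟩
    · rw [Subgroup.zpowers_le]
      exact ⟨1, N.one_mem, 1, by simp⟩

theorem dvd_of_mem {G : Type*} [Group G] (N : Subgroup G) (g : G) (e : ℕ) (he : 0 < e)
    (h1 : ∀ k, 0 < k → k < e → g ^ k ∉ N) (h2 : g ^ e ∈ N) (k : ℤ) (hk : g ^ k ∈ N) :
    (e : ℤ) ∣ k := by
  have he' : (0 : ℤ) < e := by exact_mod_cast he
  have hr : g ^ (k % e) ∈ N := by
    have : g ^ (k % (e : ℤ)) = g ^ k * ((g ^ e) ^ (k / e))⁻¹ := by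
      rw [Int.emod_def, zpow_sub, zpow_mul]
      simp
    rw [this]
    exact N.mul_mem hk (N.inv_mem (Subgroup.zpow_mem _ h2 _))
  have hnn : 0 ≤ k % (e : ℤ) := Int.emod_nonneg _ (ne_of_gt he')
  have hlt : k % (e : ℤ) < e := Int.emod_lt_of_pos _ he'
  obtain ⟨r, hr'⟩ := Int.eq_ofNat_of_zero_le hnn
  rw [hr'] at hr hlt
  have hr2 : g ^ r ∈ N := by simpa using hr
  by_cases h0 : r = 0
  · apply Int.dvd_of_emod_eq_zero
    rw [hr', h0]; rfl
  · exact absurd hr2 (h1 r (Nat.pos_of_ne_zero h0) (by exact_mod_cast hlt))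

/-- the graph of `τ` as a subgroup of `A × B` -/
def gr {A B : Type*} [Group A] [Group B] {A₀ : Subgroup A} {B₀ : Subgroup B} (τ : A₀ ≃* B₀) :
    Subgroup (A × B) where
  carrier := {x | ∃ a : A₀, x = ((a : A), (τ a : B))}
  one_mem' := ⟨1, by simp; rfl⟩
  mul_mem' := by
    rintro _ _ ⟨a, rfl⟩ ⟨b, rfl⟩
    exact ⟨a * b, by simp⟩
  inv_mem' := by
    rintro _ ⟨a, rfl⟩
    exact ⟨a⁻¹, by simp⟩

end ExtM

open ExtM in
theorem ext : Ext_Stmt := by
  intro A B _ _ _ _ A₀ B₀ τ y y' e hy hy' hc he h1 h2 h1' h2' h3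
  set N : Subgroup (A × B) := gr τ with hN
  have hfinN : Finite N := by infer_instance
  have hnorm : ∀ x ∈ N, (y, y')⁻¹ * x * (y, y') ∈ N := by
    rintro _ ⟨a, rfl⟩
    refine ⟨⟨y⁻¹ * a * y, hy a a.2⟩, ?_⟩
    have := hc a ⟨y⁻¹ * a * y, hy a a.2⟩ rfl
    simp only [Prod.inv_mk, Prod.mk_mul_mk, Prod.mk.injEq, true_and]
    exact this.symm
  set Γ : Subgroup (A × B) := prodSub N (y, y') hnorm with hΓ
  -- membership
  have memΓ : ∀ x : A × B, x ∈ Γ ↔ ∃ a : A₀, ∃ k : ℤ, x = ((a : A) * y ^ k, (τ a : B) * y' ^ k) := by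
    intro x
    constructor
    · rintro ⟨_, ⟨a, rfl⟩, k, rfl⟩
      exact ⟨a, k, by simp⟩
    · rintro ⟨a, k, rfl⟩
      exact ⟨_, ⟨a, rfl⟩, k, by simp⟩
  have hA : ∀ x : A, x ∈ A₀ ⊔ Subgroup.zpowers y ↔ ∃ a : A₀, ∃ k : ℤ, x = (a : A) * y ^ k := by
    intro x
    rw [← prodSub_eq A₀ y hy]
    constructor
    · rintro ⟨a, ha, k, rfl⟩; exact ⟨⟨a, ha⟩, k, rfl⟩
    · rintro ⟨a, k, rfl⟩; exact ⟨a, a.2, k, rfl⟩
  have hB : ∀ x : B, x ∈ B₀ ⊔ Subgroup.zpowers y' ↔ ∃ a : B₀, ∃ k : ℤ, x = (a : B) * y' ^ k := by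
    intro x
    rw [← prodSub_eq B₀ y' hy']
    constructor
    · rintro ⟨a, ha, k, rfl⟩; exact ⟨⟨a, ha⟩, k, rfl⟩
    · rintro ⟨a, k, rfl⟩; exact ⟨a, a.2, k, rfl⟩
  -- key: a * y^k = 1 ↔ τ a * y'^k = 1
  have key1 : ∀ (a : A₀) (k : ℤ), (a : A) * y ^ k = 1 → (τ a : B) * y' ^ k = 1 := by
    intro a k h
    have hk : y ^ k = ((a⁻¹ : A₀) : A) := by
      rw [Subgroup.coe_inv]; exact eq_inv_of_mul_eq_one_right h
    obtain ⟨q, rfl⟩ := dvd_of_mem A₀ y e he h1 h2 k (by rw [hk]; exact (a⁻¹).2)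
    have h4 : a = ((⟨y ^ e, h2⟩ : A₀) ^ q)⁻¹ := by
      rw [eq_inv_iff_mul_eq_one]
      apply Subtype.ext
      rw [Subgroup.coe_mul, Subgroup.coe_zpow, Subgroup.coe_one]
      rw [zpow_mul] at h
      simpa using h
    rw [h4, map_inv, map_zpow, Subgroup.coe_inv, Subgroup.coe_zpow, h3 ⟨y ^ e, h2⟩ rfl, zpow_mul]
    simp
  have key2 : ∀ (a : A₀) (k : ℤ), (τ a : B) * y' ^ k = 1 → (a : A) * y ^ k = 1 := by
    intro a k h
    have hk : y' ^ k = (((τ a)⁻¹ : B₀) : B) := by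
      rw [Subgroup.coe_inv]; exact eq_inv_of_mul_eq_one_right h
    obtain ⟨q, rfl⟩ := dvd_of_mem B₀ y' e he h1' h2' k (by rw [hk]; exact ((τ a)⁻¹).2)
    have h5 : τ ((⟨y ^ e, h2⟩ : A₀)) = ⟨y' ^ e, h2'⟩ := Subtype.ext (h3 ⟨y ^ e, h2⟩ rfl)
    have h4 : τ a = τ (((⟨y ^ e, h2⟩ : A₀) ^ q)⁻¹) := by
      rw [map_inv, map_zpow, h5, eq_inv_iff_mul_eq_one]
      apply Subtype.ext
      rw [Subgroup.coe_mul, Subgroup.coe_zpow, Subgroup.coe_one]
      rw [zpow_mul] at h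
      simpa using h
    have h6 := τ.injective h4
    rw [h6, Subgroup.coe_inv, Subgroup.coe_zpow, zpow_mul]
    simp
  -- projections
  let f1 : Γ →* ↥(A₀ ⊔ Subgroup.zpowers y) :=
    ((MonoidHom.fst A B).comp Γ.subtype).codRestrict (A₀ ⊔ Subgroup.zpowers y) (by
      intro x
      obtain ⟨a, k, hx⟩ := (memΓ x).mp x.2
      apply (hA _).mpr
      exact ⟨a, k, by simp [hx]⟩)
  let f2 : Γ →* ↥(B₀ ⊔ Subgroup.zpowers y') :=
    ((MonoidHom.snd A B).comp Γ.subtype).codRestrict (B₀ ⊔ Subgroup.zpowers y') (by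
      intro x
      obtain ⟨a, k, hx⟩ := (memΓ x).mp x.2
      apply (hB _).mpr
      exact ⟨τ a, k, by simp [hx]⟩)
  have f1v : ∀ x : Γ, (f1 x : A) = (x : A × B).1 := fun x => rfl
  have f2v : ∀ x : Γ, (f2 x : B) = (x : A × B).2 := fun x => rfl
  have bij1 : Function.Bijective f1 := by
    constructor
    · rw [injective_iff_map_eq_one]
      intro x hx
      obtain ⟨a, k, hxx⟩ := (memΓ x).mp x.2
      have h7 : (a : A) * y ^ k = 1 := by
        have := f1v x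
        rw [hx, hxx] at this
        simpa using this.symm
      apply Subtype.ext
      rw [hxx, h7, key1 a k h7]; rfl
    · rintro ⟨x, hx⟩
      obtain ⟨a, k, rfl⟩ := (hA x).mp hx
      exact ⟨⟨((a : A) * y ^ k, (τ a : B) * y' ^ k), (memΓ _).mpr ⟨a, k, rfl⟩⟩, Subtype.ext rfl⟩
  have bij2 : Function.Bijective f2 := by
    constructor
    · rw [injective_iff_map_eq_one]
      intro x hx
      obtain ⟨a, k, hxx⟩ := (memΓ x).mp x.2
      have h7 : (τ a : B) * y' ^ k = 1 := by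
        have := f2v x
        rw [hx, hxx] at this
        simpa using this.symm
      apply Subtype.ext
      rw [hxx, h7, key2 a k h7]; rfl
    · rintro ⟨x, hx⟩
      obtain ⟨b, k, rfl⟩ := (hB x).mp hx
      refine ⟨⟨(((τ.symm b : A₀) : A) * y ^ k, (b : B) * y' ^ k), (memΓ _).mpr ⟨τ.symm b, k, by simp⟩⟩, Subtype.ext rfl⟩
  let E1 := MulEquiv.ofBijective f1 bij1
  let E2 := MulEquiv.ofBijective f2 bij2
  refine ⟨E1.symm.trans E2, ?_, ?_⟩
  · intro x x2 hx2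
    have hmem : ((x : A), (τ x : B)) ∈ Γ := (memΓ _).mpr ⟨x, 0, by simp⟩
    have h8 : x2 = E1 ⟨_, hmem⟩ := Subtype.ext hx2
    rw [h8]
    simp only [MulEquiv.trans_apply, MulEquiv.symm_apply_apply]
    rfl
  · intro x2 hx2
    have hmem : (y, y') ∈ Γ := (memΓ _).mpr ⟨1, 1, by simp⟩
    have h8 : x2 = E1 ⟨_, hmem⟩ := Subtype.ext hx2
    rw [h8]
    simp only [MulEquiv.trans_apply, MulEquiv.symm_apply_apply]
    rfl

end Pool.Agent.Helper37.SM
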