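import Mathlib
import Pool.Agent.Helper37.SM.Stmts

set_option autoImplicit false

namespace Pool.Agent.Helper37.SM

/-- the upper bound for the number of classes -/
theorem card_cls_le (p m N : ℕ) (L : Set (FreeGroup ℕ))
    (h : Coded (fun O O' : GrpObj p m => Nonempty (O.G ≃* O'.G)) N) : Nat.card (cls p m L) ≤ N := by
  obtain ⟨g, hg⟩ := h
  let F : cls p m L → Fin N := fun q => g ⟨(Quot.out q).1, (Quot.out q).2.1⟩
  have hF : Function.Injective F := by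
    intro q q' hqq
    have h1 := hg _ _ hqq
    rw [← Quot.out_eq q, ← Quot.out_eq q']
    exact Quot.sound h1
  have := Nat.card_le_card_of_injective F hF
  rwa [Nat.card_fin] at this

theorem final_of (hU : Upper_Stmt) (hLo : Lower_Stmt) (hLa : Laws_Stmt) :
    ∀ (p : ℕ), p.Prime → ∀ (L L' : Set (FreeGroup ℕ)),
      (∀ (G : Type) [Group G], (∀ w ∈ L, ∀ x : ℕ → G, FreeGroup.lift x w = 1) →
          IsPGroup p G ∧ (Group.FG G → Finite G)) →
      (∀ (G : Type) [Group G], (∀ w ∈ L', ∀ x : ℕ → G, FreeGroup.lift x w = 1) →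
          (∀ w ∈ L, ∀ x : ℕ → G, FreeGroup.lift x w = 1)) →
      (∃ (G : Type) (_ : Group G), (∀ w ∈ L', ∀ x : ℕ → G, FreeGroup.lift x w = 1) ∧
          ∃ a b : G, a * b ≠ b * a) →
      ∃ C : ℕ, ∀ m : ℕ, 1 ≤ m →
        Nat.card (cls p m L) ≤ p ^ (C * m ^ 2) * Nat.card (cls p m L') := by
  intro p hp L L' h1 h2 h3
  haveI : Fact p.Prime := ⟨hp⟩
  obtain ⟨C1, hC1⟩ := hU p
  obtain ⟨C2, hC2⟩ := hLo p
  refine ⟨C1 + C2, fun m hm => ?_⟩
  have hup := card_cls_le p m _ L (hC1 m hm)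
  have hlaw := hLa p L' (fun G _ hG => h1 G (h2 G hG)) h3
  have hlo := hC2 m hm L' hlaw
  calc Nat.card (cls p m L) ≤ p ^ (2 * m ^ 3 / 27 + C1 * m ^ 2) := hup
    _ = p ^ (C1 * m ^ 2) * p ^ (2 * m ^ 3 / 27) := by rw [← pow_add, add_comm]
    _ ≤ p ^ (C1 * m ^ 2) * (p ^ (C2 * m ^ 2) * Nat.card (cls p m L')) :=
        Nat.mul_le_mul_left _ hlo
    _ = p ^ ((C1 + C2) * m ^ 2) * Nat.card (cls p m L') := by
        rw [← mul_assoc, ← pow_add, add_mul]

end Pool.Agent.Helper37.SM
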