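import Mathlib
import Pool.Agent.Helper37.SM.Defs
import Pool.Agent.Helper37.SM.Stmts

set_option autoImplicit false

namespace Pool.Agent.Helper37.SM

/-- the commutator subgroup is contained in a normal subgroup modulo which the generators commute -/
theorem commutator_le_of_gen {G : Type*} [Group G] {ι : Type*} (g : ι → G)
    (hg : Subgroup.closure (Set.range g) = ⊤) (D : Subgroup G) [D.Normal]
    (h : ∀ k l, (g k)⁻¹ * (g l)⁻¹ * g k * g l ∈ D) : commutator G ≤ D := by
  have hcomm : ∀ k l, (g k : G ⧸ D) * (g l : G ⧸ D) = (g l : G ⧸ D) * (g k : G ⧸ D) := by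
    intro k l
    rw [← QuotientGroup.mk_mul, ← QuotientGroup.mk_mul]
    rw [QuotientGroup.eq]
    have := h l k
    have e : (g k * g l)⁻¹ * (g l * g k) = (g l)⁻¹ * (g k)⁻¹ * g l * g k := by group
    rw [e]; exact this
  have hcl : Subgroup.closure (Set.range (fun k => (g k : G ⧸ D))) = ⊤ := by
    have : Set.range (fun k => (g k : G ⧸ D)) = (QuotientGroup.mk' D) '' (Set.range g) := by
      rw [← Set.range_comp]; rfl
    rw [this, ← MonoidHom.map_closure, hg]
    exact Subgroup.map_top_of_surjective _ (QuotientGroup.mk'_surjective D)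
  have hcen : Subgroup.center (G ⧸ D) = ⊤ := by
    rw [eq_top_iff, ← hcl, Subgroup.closure_le]
    rintro _ ⟨k, rfl⟩
    show (g k : G ⧸ D) ∈ Subgroup.center (G ⧸ D)
    have h2 : (⊤ : Subgroup (G ⧸ D)) ≤ Subgroup.centralizer {(g k : G ⧸ D)} := by
      rw [← hcl, Subgroup.closure_le]
      rintro _ ⟨l, rfl⟩
      show (g l : G ⧸ D) ∈ Subgroup.centralizer {(g k : G ⧸ D)}
      rw [Subgroup.mem_centralizer_singleton_iff]
      exact hcomm l k
    rw [Subgroup.mem_center_iff]
    intro x
    have := h2 (Subgroup.mem_top x)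
    rw [Subgroup.mem_centralizer_singleton_iff] at this
    exact this
  rw [commutator_def, Subgroup.commutator_le]
  intro x _ y _
  have hx : (x : G ⧸ D) ∈ Subgroup.center (G ⧸ D) := by rw [hcen]; trivial
  rw [Subgroup.mem_center_iff] at hx
  have h3 := hx (y : G ⧸ D)
  rw [← QuotientGroup.eq_one_iff]
  rw [commutatorElement_def]
  rw [QuotientGroup.mk_mul, QuotientGroup.mk_mul, QuotientGroup.mk_mul, QuotientGroup.mk_inv,
    QuotientGroup.mk_inv, ← h3]
  group

theorem card_ge_of_lt {p : ℕ} [Fact p.Prime] {G : Type*} [Group G] [Finite G] (hG : IsPGroup p G)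
    {A B : Subgroup G} (h : A < B) : p * Nat.card A ≤ Nat.card B := by
  obtain ⟨a, ha⟩ := (IsPGroup.iff_card.mp (hG.to_subgroup A))
  obtain ⟨b, hb⟩ := (IsPGroup.iff_card.mp (hG.to_subgroup B))
  have hlt : Nat.card A < Nat.card B := by
    have hss : (A : Set G) ⊂ (B : Set G) := h
    have := Set.ncard_lt_ncard hss (Set.toFinite _)
    simpa [← Nat.card_coe_set_eq] using this
  rw [ha, hb] at *
  have hp : 1 < p := Nat.Prime.one_lt (Fact.out)
  have : a < b := (Nat.pow_lt_pow_iff_right hp).mp hlt
  calc p * p ^ a = p ^ (a + 1) := by rw [pow_succ, mul_comm]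
    _ ≤ p ^ b := Nat.pow_le_pow_right hp.le this

theorem KT_mono {G : Type} [Group G] (C : Subgroup G) (t : ℕ) (h : ℕ → G) {d : ℕ} (g : Fin d → G)
    {T T' : Finset (Fin d)} (hT : T ⊆ T') : KT C t h g T ≤ KT C t h g T' := by
  apply Subgroup.closure_mono
  apply Set.union_subset_union_right
  exact Set.image_mono (by exact_mod_cast hT)

theorem DT_mono {G : Type} [Group G] (C : Subgroup G) (t : ℕ) (h : ℕ → G) {d : ℕ} (g : Fin d → G)
    {T T' : Finset (Fin d)} (hT : T ⊆ T') : DT C t h g T ≤ DT C t h g T' :=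
  inf_le_inf_right _ (KT_mono C t h g hT)

theorem mem_KT {G : Type} [Group G] (C : Subgroup G) (t : ℕ) (h : ℕ → G) {d : ℕ} (g : Fin d → G)
    {T : Finset (Fin d)} {k : Fin d} (hk : k ∈ T) : g k ∈ KT C t h g T :=
  Subgroup.subset_closure (Or.inr ⟨k, by exact_mod_cast hk, rfl⟩)

theorem comm_mem {G : Type} [Group G] (x y : G) : x⁻¹ * y⁻¹ * x * y ∈ commutator G := by
  have h := Subgroup.commutator_mem_commutator (H₁ := ⊤) (H₂ := ⊤) (Subgroup.mem_top x⁻¹)
    (Subgroup.mem_top y⁻¹)
  rw [commutatorElement_def, inv_inv, inv_inv] at h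
  exact h

/-- the growth fact -/
theorem exists_grow {G : Type} [Group G] [Finite G] (C : Subgroup G) (t : ℕ) (h : ℕ → G) {d : ℕ}
    (g : Fin d → G) (hg : Subgroup.closure (Set.range g) = ⊤) (T : Finset (Fin d))
    (hne : DT C t h g T ≠ commutator G) :
    ∃ k l, DT C t h g T < DT C t h g (insert k (insert l T)) := by
  by_contra hcon
  push Not at hcon
  have heq : ∀ k l, DT C t h g (insert k (insert l T)) = DT C t h g T := by
    intro k l
    have h1 : DT C t h g T ≤ DT C t h g (insert k (insert l T)) :=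
      DT_mono C t h g ((Finset.subset_insert _ _).trans (Finset.subset_insert _ _))
    by_contra h2
    exact hcon k l (lt_of_le_of_ne h1 (Ne.symm h2))
  set D := DT C t h g T with hD
  have hsub : ∀ k, ∀ x ∈ D, (g k)⁻¹ * x * g k ∈ D := by
    intro k x hx
    have hxK : x ∈ KT C t h g (insert k (insert k T)) :=
      KT_mono C t h g ((Finset.subset_insert _ _).trans (Finset.subset_insert _ _))
        (Subgroup.mem_inf.mp hx).1
    have hgK : g k ∈ KT C t h g (insert k (insert k T)) :=
      mem_KT C t h g (Finset.mem_insert_self _ _)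
    have h1 : x⁻¹ * (g k)⁻¹ * x * g k ∈ D := by
      rw [← heq k k]
      refine Subgroup.mem_inf.mpr ⟨?_, comm_mem x (g k)⟩
      exact mul_mem (mul_mem (mul_mem (inv_mem hxK) (inv_mem hgK)) hxK) hgK
    have h2 : x * (x⁻¹ * (g k)⁻¹ * x * g k) ∈ D := mul_mem hx h1
    have e : x * (x⁻¹ * (g k)⁻¹ * x * g k) = (g k)⁻¹ * x * g k := by group
    rwa [e] at h2
  have hnorm : D.Normal := by
    rw [← Subgroup.normalizer_eq_top_iff, eq_top_iff, ← hg, Subgroup.closure_le]
    rintro _ ⟨k, rfl⟩
    show g k ∈ Subgroup.normalizer (D : Set G)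
    rw [← inv_mem_iff]
    have hinj : Function.Injective (fun x : D => (⟨(g k)⁻¹ * x * g k, hsub k x x.2⟩ : D)) := by
      intro x y hxy
      simpa using hxy
    have hsurj := Finite.surjective_of_injective hinj
    rw [Subgroup.mem_normalizer_iff]
    intro x
    constructor
    · intro hx
      have := hsub k x hx
      simpa using this
    · intro hx
      obtain ⟨y, hy⟩ := hsurj ⟨_, hx⟩
      have : (g k)⁻¹ * y * g k = (g k)⁻¹ * x * (g k)⁻¹⁻¹ := congrArg Subtype.val hy
      rw [inv_inv] at this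
      have h3 : (y : G) = x := by
        have := mul_right_cancel this
        exact mul_left_cancel this
      rw [← h3]; exact y.2
  apply hne
  apply le_antisymm inf_le_right
  apply commutator_le_of_gen g hg D
  intro k l
  rw [← heq k l]
  refine Subgroup.mem_inf.mpr ⟨?_, comm_mem _ _⟩
  have hk : g k ∈ KT C t h g (insert k (insert l T)) := mem_KT C t h g (Finset.mem_insert_self _ _)
  have hl : g l ∈ KT C t h g (insert k (insert l T)) :=
    mem_KT C t h g (Finset.mem_insert_of_mem (Finset.mem_insert_self _ _))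
  exact mul_mem (mul_mem (mul_mem (inv_mem hk) (inv_mem hl)) hk) hl

theorem grow : Grow_Stmt := by
  intro p _ G _ _ hG C t h d g hC hg j
  induction j with
  | zero =>
    intro _
    refine ⟨∅, by simp, ?_⟩
    rw [pow_zero, one_mul]
    have hle : C ≤ DT C t h g ∅ := by
      intro x hx
      exact Subgroup.mem_inf.mpr ⟨Subgroup.subset_closure (Or.inl (Or.inl hx)), hC hx⟩
    exact Subgroup.card_le_of_le hle
  | succ j ih =>
    intro hj
    have hp : 1 < p := Nat.Prime.one_lt (Fact.out)
    have hle : p ^ j * Nat.card C ≤ p ^ (j + 1) * Nat.card C :=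
      Nat.mul_le_mul_right _ (Nat.pow_le_pow_right hp.le (Nat.le_succ j))
    obtain ⟨T, hT1, hT2⟩ := ih (hle.trans hj)
    by_cases hc : p ^ (j + 1) * Nat.card C ≤ Nat.card (DT C t h g T)
    · exact ⟨T, by omega, hc⟩
    · push Not at hc
      have hne : DT C t h g T ≠ commutator G := by
        intro he
        rw [he] at hc
        omega
      obtain ⟨k, l, hkl⟩ := exists_grow C t h g hg T hne
      refine ⟨insert k (insert l T), ?_, ?_⟩
      · have h1 := Finset.card_insert_le k (insert l T)
        have h2 := Finset.card_insert_le l T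
        omega
      · have h3 := card_ge_of_lt hG hkl
        calc p ^ (j + 1) * Nat.card C = p * (p ^ j * Nat.card C) := by ring
          _ ≤ p * Nat.card (DT C t h g T) := Nat.mul_le_mul_left _ hT2
          _ ≤ _ := h3

end Pool.Agent.Helper37.SM
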