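import Mathlib
import Pool.Agent.Helper37.SM.Defs
import Pool.Agent.Helper37.SM.Stmts
import Pool.Agent.Helper37.SM.Grow

set_option autoImplicit false

namespace Pool.Agent.Helper37.SM

theorem exists_gen_mod {p : ℕ} [Fact p.Prime] {G : Type} [Group G] [Finite G] (hG : IsPGroup p G)
    (e : ℕ) : ∀ K : Subgroup G, Nat.card G ≤ p ^ e * Nat.card K →
      ∃ g : Fin e → G, K ⊔ Subgroup.closure (Set.range g) = ⊤ := by
  induction e with
  | zero =>
    intro K hK
    rw [pow_zero, one_mul] at hK
    have : K = ⊤ := by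
      apply Subgroup.eq_top_of_card_eq
      exact le_antisymm (Subgroup.card_le_card_group K) hK
    exact ⟨fun i => i.elim0, by rw [this, top_sup_eq]⟩
  | succ e ih =>
    intro K hK
    by_cases hKt : K = ⊤
    · exact ⟨fun _ => 1, by rw [hKt, top_sup_eq]⟩
    · obtain ⟨x, hx⟩ : ∃ x, x ∉ K := by
        by_contra h
        push Not at h
        exact hKt (by rw [eq_top_iff]; intro x _; exact h x)
      have hlt : K < K ⊔ Subgroup.zpowers x := by
        refine lt_of_le_of_ne le_sup_left ?_
        intro he
        apply hx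
        rw [he]
        exact (le_sup_right : Subgroup.zpowers x ≤ _) (Subgroup.mem_zpowers x)
      have h1 := card_ge_of_lt hG hlt
      obtain ⟨g, hg⟩ := ih (K ⊔ Subgroup.zpowers x) (by
        calc Nat.card G ≤ p ^ (e + 1) * Nat.card K := hK
          _ = p ^ e * (p * Nat.card K) := by ring
          _ ≤ _ := Nat.mul_le_mul_left _ h1)
      refine ⟨Fin.cons x g, ?_⟩
      rw [eq_top_iff, ← hg]
      have h2 : Subgroup.zpowers x ≤ Subgroup.closure (Set.range (Fin.cons x g : Fin (e + 1) → G)) := by
        rw [Subgroup.zpowers_le]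
        exact Subgroup.subset_closure ⟨0, rfl⟩
      have h3 : Subgroup.closure (Set.range g) ≤
          Subgroup.closure (Set.range (Fin.cons x g : Fin (e + 1) → G)) := by
        apply Subgroup.closure_mono
        rintro _ ⟨i, rfl⟩
        exact ⟨i.succ, by simp⟩
      exact sup_le (sup_le le_sup_left (h2.trans le_sup_right)) (h3.trans le_sup_right)

theorem commutator_le_frattini' {p : ℕ} [Fact p.Prime] {G : Type} [Group G] [Finite G]
    (hG : IsPGroup p G) : commutator G ≤ frattini G := by
  unfold frattini Order.radical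
  refine le_iInf fun M => le_iInf fun hM => ?_
  have hM' : IsCoatom M := hM
  haveI : Group.IsNilpotent G := hG.isNilpotent
  haveI hN : M.Normal := by
    have h := (Group.isNilpotent_of_finite_tfae (G := G)).out 0 2
    exact (h.mp inferInstance) M hM'
  obtain ⟨x, hx⟩ : ∃ x, x ∉ M := by
    by_contra h
    push Not at h
    exact hM'.1 (by rw [eq_top_iff]; intro x _; exact h x)
  have hlt : M < M ⊔ Subgroup.zpowers x := by
    refine lt_of_le_of_ne le_sup_left ?_
    intro he
    apply hx
    rw [he]
    exact (le_sup_right : Subgroup.zpowers x ≤ _) (Subgroup.mem_zpowers x)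
  have htop := hM'.2 _ hlt
  let g : Option M → G := fun o => o.elim x (fun m => (m : G))
  apply commutator_le_of_gen g
  · rw [eq_top_iff, ← htop]
    refine sup_le ?_ ?_
    · intro m hm
      exact Subgroup.subset_closure ⟨some ⟨m, hm⟩, rfl⟩
    · rw [Subgroup.zpowers_le]
      exact Subgroup.subset_closure ⟨none, rfl⟩
  · intro k l
    rcases k with _ | k <;> rcases l with _ | l
    · show x⁻¹ * x⁻¹ * x * x ∈ M
      have : x⁻¹ * x⁻¹ * x * x = 1 := by group
      rw [this]; exact one_mem _
    · show x⁻¹ * (l : G)⁻¹ * x * l ∈ M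
      refine mul_mem ?_ l.2
      have := hN.conj_mem _ (inv_mem l.2) x⁻¹
      rwa [inv_inv] at this
    · show (k : G)⁻¹ * x⁻¹ * k * x ∈ M
      have h1 := hN.conj_mem _ k.2 x⁻¹
      rw [inv_inv] at h1
      have h2 := mul_mem (inv_mem k.2) h1
      simpa only [mul_assoc] using h2
    · show (k : G)⁻¹ * (l : G)⁻¹ * k * l ∈ M
      exact mul_mem (mul_mem (mul_mem (inv_mem k.2) (inv_mem l.2)) k.2) l.2

theorem gen : Gen_Stmt := by
  intro p _ G _ _ hG d hd
  obtain ⟨g, hg⟩ := exists_gen_mod hG d (commutator G) (by rw [mul_comm, hd])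
  refine ⟨g, ?_⟩
  apply frattini_nongenerating
  rw [eq_top_iff, ← hg]
  exact sup_le ((commutator_le_frattini' hG).trans le_sup_right) le_sup_left

end Pool.Agent.Helper37.SM
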