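import Mathlib
import Pool.Agent.Helper37.SM.Stmts
import Pool.Agent.Helper37.SM.Code

set_option autoImplicit false

/-! The key counting lemma. -/

namespace Pool.Agent.Helper37.SM

/-- two automorphisms of `R s i` which agree on the marks `s l`, `l < j`, agree on `R s j`. -/
theorem agree_R {G : Type} [Group G] (s : ℕ → G) (i j : ℕ) (hji : j ≤ i)
    (γ γ' : MulAut (R s i))
    (h : ∀ l (hl : l < j), γ ⟨s l, mem_R s (lt_of_lt_of_le hl hji)⟩ =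
      γ' ⟨s l, mem_R s (lt_of_lt_of_le hl hji)⟩) :
    ∀ (x : G) (hx : x ∈ R s j), γ ⟨x, R_mono s hji hx⟩ = γ' ⟨x, R_mono s hji hx⟩ := by
  have key : R s j ≤ ((γ.toMonoidHom.eqLocus γ'.toMonoidHom).map (R s i).subtype) := by
    unfold R
    rw [Subgroup.closure_le]
    rintro _ ⟨l, hl, rfl⟩
    exact ⟨⟨s l, mem_R s (lt_of_lt_of_le hl hji)⟩, h l hl, rfl⟩
  intro x hx
  obtain ⟨y, hy, hyx⟩ := key hx
  have hy' : γ y = γ' y := hy
  have : y = ⟨x, R_mono s hji hx⟩ := Subtype.ext hyx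
  rw [← this]
  exact hy'

theorem key_step {G : Type} [Group G] [Finite G] (s : ℕ → G) (i : ℕ) (ι : Type) (hh : ι → G)
    (P C : Subgroup G) (Γ : Set (MulAut (R s i)))
    (h1 : ∀ j < i, ∀ x ∈ R s j, (s j)⁻¹ * x * s j ∈ R s j)
    (h2 : ∀ j < i, ∀ k, (s j)⁻¹ * (hh k)⁻¹ * s j * hh k ∈ R s j)
    (h3 : ∀ v ∈ P, (∀ k, v * hh k = hh k * v) → v ∈ C)
    (h4 : ∀ γ ∈ Γ, ∀ k, ∀ x x2 : R s i, (x2 : G) = (hh k)⁻¹ * x * hh k →
      (γ x2 : G) = (hh k)⁻¹ * (γ x : G) * hh k)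
    (h5 : ∀ γ ∈ Γ, ∀ x : R s i, (x : G)⁻¹ * (γ x : G) ∈ P)
    (j : ℕ) (hj : j < i) (γ γ' : MulAut (R s i)) (hγ : γ ∈ Γ) (hγ' : γ' ∈ Γ)
    (hag : ∀ l (hl : l < j), γ ⟨s l, mem_R s (lt_of_lt_of_le hl hj.le)⟩ =
      γ' ⟨s l, mem_R s (lt_of_lt_of_le hl hj.le)⟩) :
    (γ ⟨s j, mem_R s hj⟩ : G)⁻¹ * (γ' ⟨s j, mem_R s hj⟩ : G) ∈ C := by
  have hag' := agree_R s i j hj.le γ γ' hag
  set S : R s i := ⟨s j, mem_R s hj⟩ with hS
  -- membership in P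
  have hP : (γ S : G)⁻¹ * (γ' S : G) ∈ P := by
    have a := h5 γ hγ S
    have b := h5 γ' hγ' S
    have := P.mul_mem (P.inv_mem a) b
    have e : ((S : G)⁻¹ * (γ S : G))⁻¹ * ((S : G)⁻¹ * (γ' S : G)) = (γ S : G)⁻¹ * (γ' S : G) := by
      group
    rwa [e] at this
  -- commutes with γ c for c in R s j
  have hcomm : ∀ (c : G) (hc : c ∈ R s j),
      ((γ S)⁻¹ * γ' S) * γ ⟨c, R_mono s hj.le hc⟩ = γ ⟨c, R_mono s hj.le hc⟩ * ((γ S)⁻¹ * γ' S) := by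
    intro c hc
    -- find y
    let f : R s j → R s j := fun x => ⟨(s j)⁻¹ * x * s j, h1 j hj x x.2⟩
    have finj : Function.Injective f := by
      intro x y hxy
      have := congrArg Subtype.val hxy
      have h : (s j)⁻¹ * (x : G) * s j = (s j)⁻¹ * (y : G) * s j := this
      exact Subtype.ext (mul_left_cancel (mul_right_cancel h))
    have fsurj : Function.Surjective f := Finite.injective_iff_surjective.mp finj
    obtain ⟨y, hy⟩ := fsurj ⟨c, hc⟩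
    have hy' : (s j)⁻¹ * (y : G) * s j = c := congrArg Subtype.val hy
    have e1 : (⟨c, R_mono s hj.le hc⟩ : R s i) = S⁻¹ * ⟨y, R_mono s hj.le y.2⟩ * S := by
      apply Subtype.ext
      show c = (s j)⁻¹ * (y : G) * s j
      exact hy'.symm
    have e2 : γ ⟨c, R_mono s hj.le hc⟩ = (γ S)⁻¹ * γ ⟨y, R_mono s hj.le y.2⟩ * γ S := by
      rw [e1, map_mul, map_mul, map_inv]
    have e3 : γ ⟨c, R_mono s hj.le hc⟩ = (γ' S)⁻¹ * γ ⟨y, R_mono s hj.le y.2⟩ * γ' S := by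
      rw [hag' c hc, hag' y y.2, e1, map_mul, map_mul, map_inv]
    calc ((γ S)⁻¹ * γ' S) * γ ⟨c, R_mono s hj.le hc⟩
        = ((γ S)⁻¹ * γ' S) * ((γ' S)⁻¹ * γ ⟨y, R_mono s hj.le y.2⟩ * γ' S) := by rw [← e3]
      _ = ((γ S)⁻¹ * γ ⟨y, R_mono s hj.le y.2⟩ * γ S) * ((γ S)⁻¹ * γ' S) := by group
      _ = γ ⟨c, R_mono s hj.le hc⟩ * ((γ S)⁻¹ * γ' S) := by rw [← e2]
  apply h3 _ hP
  intro k
  -- the commutator c_k
  have hc := h2 j hj k
  set c : G := (s j)⁻¹ * (hh k)⁻¹ * s j * hh k with hcdef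
  have e0 : ((S * ⟨c, R_mono s hj.le hc⟩ : R s i) : G) = (hh k)⁻¹ * (S : G) * hh k := by
    show s j * c = (hh k)⁻¹ * s j * hh k
    rw [hcdef]; group
  have a1 := h4 γ hγ k S (S * ⟨c, R_mono s hj.le hc⟩) e0
  have a2 := h4 γ' hγ' k S (S * ⟨c, R_mono s hj.le hc⟩) e0
  rw [map_mul] at a1 a2
  rw [← hag' c hc] at a2
  have hw := congrArg Subtype.val (hcomm c hc)
  have hw' : ((γ S : G)⁻¹ * (γ' S : G)) * (γ ⟨c, R_mono s hj.le hc⟩ : G) =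
    (γ ⟨c, R_mono s hj.le hc⟩ : G) * ((γ S : G)⁻¹ * (γ' S : G)) := hw
  have a1' : (γ S : G) * (γ ⟨c, R_mono s hj.le hc⟩ : G) = (hh k)⁻¹ * (γ S : G) * hh k := a1
  have a2' : (γ' S : G) * (γ ⟨c, R_mono s hj.le hc⟩ : G) = (hh k)⁻¹ * (γ' S : G) * hh k := a2
  generalize (γ S : G) = a at *
  generalize (γ' S : G) = b at *
  generalize (γ ⟨c, R_mono s hj.le hc⟩ : G) = g at *
  -- (hh k)⁻¹ (a⁻¹ b) hh k = (a g)⁻¹ (b g) = g⁻¹ (a⁻¹ b) g = a⁻¹ b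
  have e : (hh k)⁻¹ * (a⁻¹ * b) * hh k = a⁻¹ * b := by
    calc (hh k)⁻¹ * (a⁻¹ * b) * hh k = ((hh k)⁻¹ * a * hh k)⁻¹ * ((hh k)⁻¹ * b * hh k) := by group
      _ = (a * g)⁻¹ * (b * g) := by rw [← a1', ← a2']
      _ = g⁻¹ * ((a⁻¹ * b) * g) := by group
      _ = g⁻¹ * (g * (a⁻¹ * b)) := by rw [hw']
      _ = a⁻¹ * b := by group
  calc a⁻¹ * b * hh k = hh k * ((hh k)⁻¹ * (a⁻¹ * b) * hh k) := by group
    _ = hh k * (a⁻¹ * b) := by rw [e]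

theorem key : Key_Stmt := by
  intro G _ _ s i ι hh P C J Γ h1 h2 h3 h4 h5 h6
  classical
  let F : MulAut (R s i) → (Fin i → R s i) := fun γ l => γ ⟨s l, mem_R s l.2⟩
  have Finj : Function.Injective F := by
    intro γ γ' h
    apply MulEquiv.ext
    intro x
    have := agree_R s i i le_rfl γ γ' (fun l hl => congrFun h ⟨l, hl⟩) x.1 x.2
    exact this
  have e1 : Γ.ncard = (F '' Γ).ncard := (Set.ncard_image_of_injective Γ Finj).symm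
  rw [e1]
  have hCpos : 0 < Nat.card C := Nat.card_pos
  have main := card_tree (X := R s i) i (fun j => if j ∈ J then 1 else Nat.card C) (F '' Γ) (by
    rintro j _ ⟨γ, hγ, rfl⟩
    show _ ≤ if (j : ℕ) ∈ J then 1 else Nat.card C
    by_cases hjJ : (j : ℕ) ∈ J
    · rw [if_pos hjJ]
      have hsub : {x : R s i | ∃ v ∈ F '' Γ, (∀ l < j, v l = F γ l) ∧ v j = x} ⊆
          {⟨s j, mem_R s j.2⟩} := by
        rintro x ⟨_, ⟨γ', hγ', rfl⟩, _, rfl⟩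
        exact h6 γ' hγ' j hjJ ⟨s j, mem_R s j.2⟩ rfl
      refine le_trans (Set.ncard_le_ncard hsub (Set.toFinite _)) ?_
      rw [Set.ncard_singleton]
    · rw [if_neg hjJ]
      have hmap : ∀ x ∈ {x : R s i | ∃ v ∈ F '' Γ, (∀ l < j, v l = F γ l) ∧ v j = x},
          (γ ⟨s j, mem_R s j.2⟩ : G)⁻¹ * (x : G) ∈ (C : Set G) := by
        rintro x ⟨_, ⟨γ', hγ', rfl⟩, hl, rfl⟩
        refine key_step s i ι hh P C Γ h1 h2 h3 h4 h5 j j.2 γ γ' hγ hγ' ?_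
        intro l hlj
        exact (hl ⟨l, lt_trans hlj j.2⟩ hlj).symm
      have := Set.ncard_le_ncard_of_injOn (fun x : R s i => (γ ⟨s j, mem_R s j.2⟩ : G)⁻¹ * (x : G))
        hmap (by
          intro x _ y _ hxy
          exact Subtype.ext (mul_left_cancel hxy)) (Set.toFinite _)
      exact this)
  refine le_trans main (le_of_eq ?_)
  rw [Finset.prod_ite, Finset.prod_const_one, one_mul, Finset.prod_const]
  congr 1
  rw [← Set.ncard_coe_finset]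
  congr 1
  ext j
  simp

end Pool.Agent.Helper37.SM
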