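import Mathlib
import Pool.Agent.Helper37.SM.Stmts

set_option autoImplicit false

/-! The laws of a non-abelian variety of p-groups hold in all groups `BG`. -/

namespace Pool.Agent.Helper37.SM

/-- the universal group of class two (with integral coordinates). -/
structure HH where
  u : ℕ → ℤ
  s : ℕ → ℕ → ℤ

namespace HH

theorem ext' {x y : HH} (h1 : x.u = y.u) (h2 : x.s = y.s) : x = y := by
  cases x; cases y; simp_all

instance : Mul HH := ⟨fun x y => ⟨x.u + y.u, fun i j => x.s i j + y.s i j + x.u i * y.u j⟩⟩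
instance : One HH := ⟨⟨0, 0⟩⟩
instance : Inv HH := ⟨fun x => ⟨-x.u, fun i j => -x.s i j + x.u i * x.u j⟩⟩

theorem mul_u (x y : HH) : (x * y).u = x.u + y.u := rfl
theorem mul_s (x y : HH) (i j : ℕ) : (x * y).s i j = x.s i j + y.s i j + x.u i * y.u j := rfl
theorem one_u : (1 : HH).u = 0 := rfl
theorem one_s : (1 : HH).s = 0 := rfl
theorem inv_u (x : HH) : (x⁻¹).u = -x.u := rfl
theorem inv_s (x : HH) (i j : ℕ) : (x⁻¹).s i j = -x.s i j + x.u i * x.u j := rfl

instance : Group HH where
  mul_assoc x y z := by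
    apply ext'
    · simp only [mul_u, add_assoc]
    · funext i j; simp only [mul_s, mul_u, Pi.add_apply]; ring
  one_mul x := by
    apply ext'
    · simp only [mul_u, one_u, zero_add]
    · funext i j; simp [mul_s, one_u, one_s]
  mul_one x := by
    apply ext'
    · simp only [mul_u, one_u, add_zero]
    · funext i j; simp [mul_s, one_u, one_s]
  inv_mul_cancel x := by
    apply ext'
    · simp only [mul_u, inv_u, one_u, neg_add_cancel]
    · funext i j; simp only [mul_s, inv_s, inv_u, one_s, Pi.neg_apply, Pi.zero_apply]; ring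

/-- the generators -/
def e (i : ℕ) : HH := ⟨Pi.single i 1, 0⟩

end HH

/-- evaluation of a word in the universal group -/
def EV : FreeGroup ℕ →* HH := FreeGroup.lift HH.e

theorem EV_diag (w : FreeGroup ℕ) (i : ℕ) :
    2 * (EV w).s i i = (EV w).u i * ((EV w).u i - 1) := by
  induction w using FreeGroup.induction_on with
  | C1 => simp [HH.one_u, HH.one_s]
  | of j =>
    simp only [EV, FreeGroup.lift_apply_of, HH.e]
    by_cases h : i = j
    · subst h; simp
    · simp [h]
  | inv_of j ih =>
    rw [map_inv, HH.inv_s, HH.inv_u, Pi.neg_apply]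
    linear_combination -ih
  | mul a b iha ihb =>
    rw [map_mul, HH.mul_s, HH.mul_u, Pi.add_apply]
    linear_combination iha + ihb

section BGhom
variable {p d n : ℕ} {β : Fin d → Fin d → Fin n → ZMod p}

theorem B_zsmul_left (c : ℤ) (u v : Fin d → ZMod p) : BG.B β (c • u) v = c • BG.B β u v := by
  simp only [BG.B, Pi.smul_apply, Finset.smul_sum]
  apply Finset.sum_congr rfl; intro i _
  apply Finset.sum_congr rfl; intro j _
  rw [smul_mul_assoc, smul_assoc]

theorem B_zsmul_right (c : ℤ) (u v : Fin d → ZMod p) : BG.B β u (c • v) = c • BG.B β u v := by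
  simp only [BG.B, Pi.smul_apply, Finset.smul_sum]
  apply Finset.sum_congr rfl; intro i _
  apply Finset.sum_congr rfl; intro j _
  rw [mul_smul_comm, smul_assoc]

theorem B_sum_left (N : ℕ) (f : ℕ → Fin d → ZMod p) (v : Fin d → ZMod p) :
    BG.B β (∑ i ∈ Finset.range N, f i) v = ∑ i ∈ Finset.range N, BG.B β (f i) v := by
  induction N with
  | zero => simp [BG.B_zero_left]
  | succ N ih => rw [Finset.sum_range_succ, BG.B_add_left, ih, Finset.sum_range_succ]

theorem B_sum_right (N : ℕ) (f : ℕ → Fin d → ZMod p) (v : Fin d → ZMod p) :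
    BG.B β v (∑ i ∈ Finset.range N, f i) = ∑ i ∈ Finset.range N, BG.B β v (f i) := by
  induction N with
  | zero => simp [BG.B_zero_right]
  | succ N ih => rw [Finset.sum_range_succ, BG.B_add_right, ih, Finset.sum_range_succ]

/-- the homomorphism from the universal group to `BG` -/
def phi (x : ℕ → BG p d n β) (N : ℕ) : HH →* BG p d n β :=
  MonoidHom.mk' (fun h =>
    ⟨∑ i ∈ Finset.range N, h.u i • (x i).v,
      (∑ i ∈ Finset.range N, ∑ j ∈ Finset.range N, h.s i j • BG.B β (x i).v (x j).v) +
        ∑ i ∈ Finset.range N, h.u i • (x i).w⟩) (by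
    intro h h'
    apply BG.ext'
    · simp only [BG.mul_v, HH.mul_u, Pi.add_apply, add_smul, Finset.sum_add_distrib]
    · simp only [BG.mul_w, HH.mul_u, HH.mul_s, Pi.add_apply, add_smul, Finset.sum_add_distrib]
      have h1 : BG.B β (∑ i ∈ Finset.range N, h.u i • (x i).v)
          (∑ i ∈ Finset.range N, h'.u i • (x i).v) =
          ∑ i ∈ Finset.range N, ∑ j ∈ Finset.range N,
            (h.u i * h'.u j) • BG.B β (x i).v (x j).v := by
        rw [B_sum_left]
        apply Finset.sum_congr rfl; intro i _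
        rw [B_sum_right]
        apply Finset.sum_congr rfl; intro j _
        rw [B_zsmul_left, B_zsmul_right, smul_smul]
      rw [h1]
      abel)

theorem phi_apply (x : ℕ → BG p d n β) (N : ℕ) (h : HH) : phi x N h =
    ⟨∑ i ∈ Finset.range N, h.u i • (x i).v,
      (∑ i ∈ Finset.range N, ∑ j ∈ Finset.range N, h.s i j • BG.B β (x i).v (x j).v) +
        ∑ i ∈ Finset.range N, h.u i • (x i).w⟩ := rfl

theorem phi_e (x : ℕ → BG p d n β) (N i : ℕ) (hi : i < N) : phi x N (HH.e i) = x i := by
  rw [phi_apply]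
  apply BG.ext'
  · show (∑ k ∈ Finset.range N, (Pi.single i (1 : ℤ) : ℕ → ℤ) k • (x k).v) = (x i).v
    rw [Finset.sum_eq_single i]
    · simp
    · intro k _ hk; simp [hk]
    · intro h; exact absurd (Finset.mem_range.mpr hi) h
  · show ((∑ k ∈ Finset.range N, ∑ j ∈ Finset.range N, (0 : ℤ) • BG.B β (x k).v (x j).v) +
      ∑ k ∈ Finset.range N, (Pi.single i (1 : ℤ) : ℕ → ℤ) k • (x k).w) = (x i).w
    simp only [zero_smul, Finset.sum_const_zero, zero_add]
    rw [Finset.sum_eq_single i]
    · simp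
    · intro k _ hk; simp [hk]
    · intro h; exact absurd (Finset.mem_range.mpr hi) h

theorem lift_eq_phi (x : ℕ → BG p d n β) (w : FreeGroup ℕ) :
    ∃ N0 : ℕ, ∀ N ≥ N0, FreeGroup.lift x w = phi x N (EV w) := by
  induction w using FreeGroup.induction_on with
  | C1 => exact ⟨0, fun N _ => by simp⟩
  | of j =>
    refine ⟨j + 1, fun N hN => ?_⟩
    simp only [EV, FreeGroup.lift_apply_of]
    exact (phi_e x N j hN).symm
  | inv_of j ih =>
    obtain ⟨N0, h⟩ := ih
    exact ⟨N0, fun N hN => by rw [map_inv, map_inv, map_inv, h N hN]⟩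
  | mul a b iha ihb =>
    obtain ⟨N1, h1⟩ := iha
    obtain ⟨N2, h2⟩ := ihb
    refine ⟨max N1 N2, fun N hN => ?_⟩
    rw [map_mul, map_mul, map_mul, h1 N (le_trans (le_max_left _ _) hN),
      h2 N (le_trans (le_max_right _ _) hN)]

end BGhom

/-! the two-variable part -/

section two
variable {G : Type*} [Group G]

theorem comm_zpow (x y z : G) (hz : ∀ g : G, z * g = g * z) (h : y * x = x * y * z) (a b : ℤ) :
    y ^ b * x ^ a = x ^ a * y ^ b * z ^ (b * a) := by
  have hzc : ∀ (k : ℤ) (g : G), z ^ k * g = g * z ^ k := by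
    intro k g
    exact (Commute.zpow_left (hz g : Commute z g) k)
  -- y x^a = x^a y z^a
  have h1 : ∀ a : ℤ, y * x ^ a = x ^ a * y * z ^ a := by
    intro a
    have hc : y * x * y⁻¹ = x * z := by
      rw [h]; rw [mul_assoc x y z, ← hz y]; group
    have h2 : y * x ^ a * y⁻¹ = x ^ a * z ^ a := by
      have : y * x ^ a * y⁻¹ = (y * x * y⁻¹) ^ a := by rw [conj_zpow]
      rw [this, hc]
      exact Commute.mul_zpow ((hz x).symm : Commute x z) a
    calc y * x ^ a = (y * x ^ a * y⁻¹) * y := by group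
      _ = x ^ a * z ^ a * y := by rw [h2]
      _ = x ^ a * y * z ^ a := by rw [mul_assoc, hzc a y, mul_assoc]
  -- (x^a)^-1 y x^a = y z^a
  have h3 : (x ^ a)⁻¹ * y * (x ^ a) = y * z ^ a := by
    rw [mul_assoc, h1 a]; group
  have h4 : (x ^ a)⁻¹ * y ^ b * (x ^ a) = y ^ b * z ^ (b * a) := by
    have : (x ^ a)⁻¹ * y ^ b * (x ^ a) = ((x ^ a)⁻¹ * y * ((x ^ a)⁻¹)⁻¹) ^ b := by
      rw [conj_zpow, inv_inv]
    rw [this, inv_inv, h3, Commute.mul_zpow (((hzc a y).symm : y * z ^ a = z ^ a * y) : Commute y (z ^ a)) b,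
      ← zpow_mul, mul_comm a b]
  calc y ^ b * x ^ a = x ^ a * ((x ^ a)⁻¹ * y ^ b * x ^ a) := by group
    _ = x ^ a * (y ^ b * z ^ (b * a)) := by rw [h4]
    _ = _ := by rw [mul_assoc]

/-- the homomorphism to a group with two elements whose commutator is central -/
def psi (x y z : G) (hz : ∀ g : G, z * g = g * z) (h : y * x = x * y * z) (i j : ℕ) : HH →* G :=
  MonoidHom.mk' (fun t => x ^ (t.u i) * y ^ (t.u j) * z ^ (t.s j i)) (by
    intro t t'
    have hzc : ∀ (k : ℤ) (g : G), z ^ k * g = g * z ^ k := by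
      intro k g
      exact (Commute.zpow_left (hz g : Commute z g) k)
    simp only [HH.mul_u, HH.mul_s, Pi.add_apply]
    have h1 := comm_zpow x y z hz h (t'.u i) (t.u j)
    calc x ^ (t.u i + t'.u i) * y ^ (t.u j + t'.u j) * z ^ (t.s j i + t'.s j i + t.u j * t'.u i)
        = x ^ (t.u i) * (x ^ (t'.u i) * (y ^ (t.u j) * (y ^ (t'.u j) *
          (z ^ (t.u j * t'.u i) * z ^ (t.s j i + t'.s j i))))) := by
          rw [zpow_add x, zpow_add y, ← zpow_add z, add_comm (t.u j * t'.u i)]
          simp only [mul_assoc]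
      _ = x ^ (t.u i) * (x ^ (t'.u i) * y ^ (t.u j) * z ^ (t.u j * t'.u i)) *
          (y ^ (t'.u j) * z ^ (t.s j i + t'.s j i)) := by
          simp only [mul_assoc]
          rw [← mul_assoc (z ^ (t.u j * t'.u i)) (y ^ (t'.u j)), hzc _ (y ^ (t'.u j))]
          simp only [mul_assoc]
      _ = x ^ (t.u i) * (y ^ (t.u j) * x ^ (t'.u i)) *
          (y ^ (t'.u j) * z ^ (t.s j i + t'.s j i)) := by rw [h1]
      _ = x ^ (t.u i) * y ^ (t.u j) * z ^ (t.s j i) *
          (x ^ (t'.u i) * y ^ (t'.u j) * z ^ (t'.s j i)) := by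
          rw [zpow_add z]
          simp only [mul_assoc]
          rw [← mul_assoc (z ^ (t.s j i)) (x ^ (t'.u i)), hzc _ (x ^ (t'.u i))]
          simp only [mul_assoc]
          rw [← mul_assoc (z ^ (t.s j i)) (y ^ (t'.u j)), hzc _ (y ^ (t'.u j))]
          simp only [mul_assoc])

theorem psi_apply (x y z : G) (hz : ∀ g : G, z * g = g * z) (h : y * x = x * y * z) (i j : ℕ)
    (t : HH) : psi x y z hz h i j t = x ^ (t.u i) * y ^ (t.u j) * z ^ (t.s j i) := rfl

theorem lift_two (x y z : G) (hz : ∀ g : G, z * g = g * z) (h : y * x = x * y * z) (i j : ℕ)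
    (hij : i ≠ j) (w : FreeGroup ℕ) :
    FreeGroup.lift (fun k => if k = i then x else if k = j then y else 1) w =
      x ^ ((EV w).u i) * y ^ ((EV w).u j) * z ^ ((EV w).s j i) := by
  rw [← psi_apply x y z hz h i j]
  have : (FreeGroup.lift (fun k => if k = i then x else if k = j then y else 1) : FreeGroup ℕ →* G) =
      (psi x y z hz h i j).comp EV := by
    ext k
    simp only [FreeGroup.lift_apply_of, MonoidHom.comp_apply, EV]
    rw [psi_apply]
    simp only [HH.e, Pi.zero_apply, zpow_zero, mul_one]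
    by_cases h1 : k = i
    · subst h1
      simp [hij.symm]
    · by_cases h2 : k = j
      · subst h2
        simp [h1, hij]
      · have h1' : i ≠ k := fun h => h1 h.symm
        have h2' : j ≠ k := fun h => h2 h.symm
        simp [h1, h2, h1', h2']
  rw [this]
  rfl

end two

theorem laws : Laws_Stmt := by
  intro p hp L hL1 hL2 d n β w hw x
  obtain ⟨G, hG, hlaw, a, b, hab⟩ := hL2
  -- the subgroup generated by a and b
  let G0 : Subgroup G := Subgroup.closure {a, b}
  have hlaw0 : ∀ w ∈ L, ∀ x : ℕ → G0, FreeGroup.lift x w = 1 := by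
    intro w hw x
    have h1 := hlaw w hw (fun i => (x i : G))
    have h2 : (FreeGroup.lift (fun i => (x i : G)) : FreeGroup ℕ →* G) =
        G0.subtype.comp (FreeGroup.lift x) := by
      ext k; simp
    rw [h2] at h1
    have h3 : ((FreeGroup.lift x w : G0) : G) = 1 := h1
    exact_mod_cast h3
  obtain ⟨hpG, hfin⟩ := hL1 G0 hlaw0
  have hfg : Group.FG G0 := by
    rw [Group.fg_iff_subgroup_fg]
    exact (Subgroup.fg_iff _).mpr ⟨{a, b}, rfl, Set.toFinite _⟩
  have : Finite G0 := hfin hfg
  have ha : a ∈ G0 := Subgroup.subset_closure (by simp)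
  have hb : b ∈ G0 := Subgroup.subset_closure (by simp)
  -- x, y with central commutator
  have : Group.IsNilpotent G0 := hpG.isNilpotent
  obtain ⟨x0, y0, z0, hz0, hz1, hyx⟩ : ∃ x y z : G0, (∀ g : G0, z * g = g * z) ∧ z ≠ 1 ∧
      y * x = x * y * z := by
    have hne : Subgroup.upperCentralSeries G0 1 ≠ Subgroup.upperCentralSeries G0 2 := by
      intro heq
      have hstab : ∀ k, Subgroup.upperCentralSeries G0 (k + 1) = Subgroup.upperCentralSeries G0 1 := by
        intro k
        induction k with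
        | zero => rfl
        | succ k ih =>
          ext g
          rw [Subgroup.mem_upperCentralSeries_succ_iff, ih, ← Subgroup.mem_upperCentralSeries_succ_iff]
          exact heq ▸ Iff.rfl
      obtain ⟨k, hk⟩ := Group.IsNilpotent.nilpotent (G := G0)
      have htop : Subgroup.upperCentralSeries G0 1 = ⊤ := by
        rw [← hstab k, eq_top_iff, ← hk]
        exact Subgroup.upperCentralSeries_mono G0 (Nat.le_succ k)
      rw [Subgroup.upperCentralSeries_one] at htop
      have h1 : (⟨a, ha⟩ : G0) ∈ Subgroup.center G0 := by rw [htop]; exact Subgroup.mem_top _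
      have h2 := (Subgroup.mem_center_iff.mp h1) ⟨b, hb⟩
      apply hab
      have h3 := congrArg (fun g : G0 => (g : G)) h2
      exact h3.symm
    have hle : Subgroup.upperCentralSeries G0 1 ≤ Subgroup.upperCentralSeries G0 2 :=
      Subgroup.upperCentralSeries_mono G0 (by norm_num)
    obtain ⟨x, hx2, hx1⟩ := SetLike.exists_of_lt (lt_of_le_of_ne hle hne)
    rw [Subgroup.upperCentralSeries_one] at hx1
    rw [Subgroup.mem_upperCentralSeries_succ_iff] at hx2
    rw [Subgroup.mem_center_iff] at hx1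
    push Not at hx1
    obtain ⟨y, hy⟩ := hx1
    -- y * x ≠ x * y
    refine ⟨x, y, (x * y)⁻¹ * (y * x), ?_, ?_, ?_⟩
    · have h1 := hx2 y⁻¹
      rw [Subgroup.upperCentralSeries_one, Subgroup.mem_center_iff] at h1
      rw [commutatorElement_def] at h1
      have h2 : (x * y)⁻¹ * (y * x) = x * y⁻¹ * x⁻¹ * y⁻¹⁻¹ := by
        have h3 := h1 x⁻¹
        have h4 : (x * y)⁻¹ * (y * x) = (x⁻¹ * (x * y⁻¹ * x⁻¹ * y⁻¹⁻¹)) * x := by
          group
        rw [h4, h3]; group
      intro g
      rw [h2]; exact (h1 g).symm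
    · intro h0
      apply hy
      rw [inv_mul_eq_one] at h0
      exact h0.symm
    · group
  set u := (EV w).u with hu
  set s := (EV w).s with hs
  -- the laws
  have hlaw1 : ∀ (i : ℕ) (g : G0), g ^ (u i) = 1 := by
    intro i g
    have h1 := hlaw0 w hw (fun k => if k = i then g else if k = i + 1 then 1 else 1)
    rw [lift_two g 1 1 (by simp) (by simp) i (i + 1) (by omega)] at h1
    simpa using h1
  have hlaw2 : ∀ i j : ℕ, i ≠ j → z0 ^ (s j i) = 1 := by
    intro i j hij
    have h1 := hlaw0 w hw (fun k => if k = i then x0 else if k = j then y0 else 1)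
    rw [lift_two x0 y0 z0 hz0 hyx i j hij] at h1
    rw [← hu, ← hs, hlaw1, hlaw1] at h1
    simpa using h1
  -- order of z0
  have hdvd : ∀ c : ℤ, z0 ^ c = 1 → (p : ℤ) ∣ c := by
    intro c hc
    obtain ⟨k, hk⟩ := hpG z0
    have h1 : (orderOf z0 : ℤ) ∣ c := orderOf_dvd_iff_zpow_eq_one.mpr hc
    have h2 : orderOf z0 ∣ p ^ k := orderOf_dvd_of_pow_eq_one hk
    obtain ⟨l, hl, hl2⟩ := (Nat.dvd_prime_pow hp.out).mp h2
    have hl0 : l ≠ 0 := by
      intro h0
      rw [h0, pow_zero, orderOf_eq_one_iff] at hl2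
      exact hz1 hl2
    have h3 : p ∣ orderOf z0 := by rw [hl2]; exact dvd_pow_self p hl0
    exact (Int.natCast_dvd_natCast.mpr h3).trans h1
  have hpu : ∀ i, (p : ℤ) ∣ u i := fun i => hdvd _ (hlaw1 i z0)
  have hps : ∀ i j, (p : ℤ) ∣ s i j := by
    intro i j
    by_cases hij : i = j
    · subst hij
      have h2 := EV_diag w i
      rw [← hu, ← hs] at h2
      rcases hp.out.eq_two_or_odd' with hp2 | hodd
      · -- p = 2
        subst hp2
        have h4 : (4 : ℤ) ∣ u i := by
          by_contra h4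
          obtain ⟨c, hc⟩ := hpu i
          have hcodd : ¬ (2 : ℤ) ∣ c := by
            rintro ⟨c', hc'⟩
            apply h4
            exact ⟨c', by rw [hc, hc']; push_cast; ring⟩
          -- every element has square 1
          have hsq : ∀ g : G0, g ^ 2 = 1 := by
            intro g
            obtain ⟨k, hk⟩ := hpG g
            have h5 : orderOf g ∣ 2 ^ k := orderOf_dvd_of_pow_eq_one hk
            have h6 : (orderOf g : ℤ) ∣ u i := orderOf_dvd_iff_zpow_eq_one.mpr (hlaw1 i g)
            obtain ⟨l, hl, hl2⟩ := (Nat.dvd_prime_pow hp.out).mp h5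
            have hl1 : l ≤ 1 := by
              by_contra hl1
              push Not at hl1
              apply h4
              have h7 : (2 : ℕ) ^ 2 ∣ orderOf g := by rw [hl2]; exact pow_dvd_pow 2 hl1
              have h8 : (((2 : ℕ) ^ 2 : ℕ) : ℤ) ∣ (orderOf g : ℤ) := Int.natCast_dvd_natCast.mpr h7
              have h9 := h8.trans h6
              norm_num at h9
              exact h9
            have h10 : orderOf g ∣ 2 := by
              rw [hl2]
              interval_cases l <;> norm_num
            exact orderOf_dvd_iff_pow_eq_one.mp h10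
          apply hz1
          have h11 : ∀ g : G0, g * g = 1 := fun g => by rw [← sq]; exact hsq g
          have hinv : ∀ g : G0, g⁻¹ = g := fun g => inv_eq_of_mul_eq_one_left (h11 g)
          have hcomm : y0 * x0 = x0 * y0 := by
            calc y0 * x0 = (y0 * x0)⁻¹ := (hinv _).symm
              _ = x0⁻¹ * y0⁻¹ := mul_inv_rev _ _
              _ = x0 * y0 := by rw [hinv, hinv]
          rw [hcomm] at hyx
          exact (mul_eq_left.mp hyx.symm)
        obtain ⟨c, hc⟩ := h4
        rw [hc] at h2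
        refine ⟨c * (4 * c - 1), ?_⟩
        push_cast
        linarith
      · -- p odd
        have h3 : (p : ℤ) ∣ 2 * s i i := by
          rw [h2]; exact Dvd.dvd.mul_right (hpu i) _
        have hp' : Prime (p : ℤ) := Nat.prime_iff_prime_int.mp hp.out
        rcases hp'.dvd_or_dvd h3 with h4 | h4
        · exfalso
          have h5 : p ∣ 2 := by exact_mod_cast h4
          have h6 := (Nat.prime_dvd_prime_iff_eq hp.out Nat.prime_two).mp h5
          rw [h6] at hodd
          exact absurd hodd (by decide)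
        · exact h4
    · exact hdvd _ (hlaw2 j i (fun h => hij h.symm))
  -- conclusion
  obtain ⟨N0, hN⟩ := lift_eq_phi x w
  rw [hN N0 le_rfl, phi_apply, ← hu, ← hs]
  have hz : ∀ (c : ℤ) (k : ℕ) (v : Fin k → ZMod p), (p : ℤ) ∣ c → c • v = 0 := by
    intro c k v hc
    obtain ⟨c', rfl⟩ := hc
    funext l
    rw [Pi.smul_apply, Pi.zero_apply, mul_comm, mul_smul]
    have : ((p : ℕ) : ℤ) • v l = 0 := by
      rw [zsmul_eq_mul]; simp
    rw [this, smul_zero]
  apply BG.ext'
  · show (∑ i ∈ Finset.range N0, u i • (x i).v) = 0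
    exact Finset.sum_eq_zero (fun i _ => hz _ _ _ (hpu i))
  · show ((∑ i ∈ Finset.range N0, ∑ j ∈ Finset.range N0, s i j • BG.B β (x i).v (x j).v) +
      ∑ i ∈ Finset.range N0, u i • (x i).w) = 0
    rw [Finset.sum_eq_zero (fun i _ => Finset.sum_eq_zero (fun j _ => hz _ _ _ (hps i j))),
      Finset.sum_eq_zero (fun i _ => hz _ _ _ (hpu i)), add_zero]

end Pool.Agent.Helper37.SM
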