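import Mathlib
import Pool.Agent.Helper37.SM.Defs
import Pool.Agent.Helper37.SM.Code
import Pool.Agent.Helper37.SM.Stmts

set_option autoImplicit false

/-! Module M-LOWER: Higman's lower bound. -/

namespace Pool.Agent.Helper37.SM

namespace LowerAux

variable {p d n : ℕ}

/-- the equivalence of `BG` with pairs -/
def bgEquiv (β : Fin d → Fin d → Fin n → ZMod p) :
    BG p d n β ≃ (Fin d → ZMod p) × (Fin n → ZMod p) where
  toFun x := (x.v, x.w)
  invFun q := ⟨q.1, q.2⟩
  left_inv _ := rfl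
  right_inv _ := rfl

theorem card_BG [Fact p.Prime] (β : Fin d → Fin d → Fin n → ZMod p) :
    Nat.card (BG p d n β) = p ^ (d + n) := by
  rw [Nat.card_congr (bgEquiv β), Nat.card_prod, Nat.card_fun, Nat.card_fun, Nat.card_fin,
    Nat.card_fin, Nat.card_zmod, pow_add]

/-- the strictly upper triangular matrix -/
def tri (γ : (Σ j : Fin d, Fin j) → Fin n → ZMod p) : Fin d → Fin d → Fin n → ZMod p :=
  fun i j => if h : i < j then γ ⟨j, ⟨i, h⟩⟩ else 0

theorem card_tri [Fact p.Prime] :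
    Nat.card ((Σ j : Fin d, Fin j) → Fin n → ZMod p) = p ^ (n * (d * (d - 1) / 2)) := by
  have h1 : Nat.card (Σ j : Fin d, Fin j) = d * (d - 1) / 2 := by
    rw [Nat.card_eq_fintype_card, Fintype.card_sigma]
    simp only [Fintype.card_fin]
    rw [Fin.sum_univ_eq_sum_range (fun i => i) d, Finset.sum_range_id]
  rw [Nat.card_fun, Nat.card_fun, Nat.card_fin, Nat.card_zmod, h1, ← pow_mul]

/-- generators -/
def gen (β : Fin d → Fin d → Fin n → ZMod p) : Fin d ⊕ Fin n → BG p d n β
  | Sum.inl i => ⟨Pi.single i 1, 0⟩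
  | Sum.inr k => ⟨0, Pi.single k 1⟩

/-- the central embedding -/
def cen (β : Fin d → Fin d → Fin n → ZMod p) : Multiplicative (Fin n → ZMod p) →* BG p d n β where
  toFun w := ⟨0, w.toAdd⟩
  map_one' := rfl
  map_mul' x y := by
    apply BG.ext'
    · simp [BG.mul_v]
    · simp [BG.mul_w, BG.B_zero_left]

theorem B_single (β : Fin d → Fin d → Fin n → ZMod p) (i j : Fin d) :
    BG.B β (Pi.single i 1) (Pi.single j 1) = β i j := by
  unfold BG.B
  rw [Finset.sum_eq_single i]
  · rw [Finset.sum_eq_single j]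
    · simp
    · intro b _ hb
      simp [Pi.single_eq_of_ne hb]
    · intro h; exact absurd (Finset.mem_univ j) h
  · intro b _ hb
    apply Finset.sum_eq_zero
    intro c _
    simp [Pi.single_eq_of_ne hb]
  · intro h; exact absurd (Finset.mem_univ i) h

theorem swap_gen (γ : (Σ j : Fin d, Fin j) → Fin n → ZMod p) (i j : Fin d) (h : i < j) :
    gen (tri γ) (Sum.inl i) * gen (tri γ) (Sum.inl j) =
      gen (tri γ) (Sum.inl j) * gen (tri γ) (Sum.inl i) *
        cen (tri γ) (Multiplicative.ofAdd (γ ⟨j, ⟨i, h⟩⟩)) := by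
  apply BG.ext'
  · simp only [gen, cen, BG.mul_v, MonoidHom.coe_mk, OneHom.coe_mk]
    rw [add_zero, add_comm]
  · simp only [gen, cen, BG.mul_v, BG.mul_w, MonoidHom.coe_mk, OneHom.coe_mk, B_single,
      BG.B_zero_right, toAdd_ofAdd]
    have h1 : tri γ i j = γ ⟨j, ⟨i, h⟩⟩ := by simp [tri, h]
    have h2 : tri γ j i = 0 := by simp [tri, not_lt.mpr h.le]
    rw [h1, h2]
    simp

/-- a homomorphism which fixes the generators fixes the central elements -/
theorem fix_cen (β β' : Fin d → Fin d → Fin n → ZMod p) (ψ : BG p d n β →* BG p d n β')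
    (h : ∀ k : Fin n, ψ (gen β (Sum.inr k)) = gen β' (Sum.inr k)) (w : Fin n → ZMod p) [NeZero p] :
    ψ (cen β (Multiplicative.ofAdd w)) = cen β' (Multiplicative.ofAdd w) := by
  have h0 : ∀ k : Fin n, ∀ a : ZMod p,
      ψ (cen β (Multiplicative.ofAdd (Pi.single k a))) =
        cen β' (Multiplicative.ofAdd (Pi.single k a)) := by
    intro k a
    have h1 : (Pi.single k a : Fin n → ZMod p) = a.val • (Pi.single k 1 : Fin n → ZMod p) := by
      rw [← Pi.single_smul]
      congr 1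
      rw [nsmul_eq_mul, mul_one, ZMod.natCast_zmod_val]
    rw [h1, ofAdd_nsmul, map_pow, map_pow, map_pow]
    congr 1
    exact h k
  have h1 : w = ∑ k, Pi.single k (w k) := by
    rw [Finset.univ_sum_single]
  rw [h1]
  induction (Finset.univ : Finset (Fin n)) using Finset.induction_on with
  | empty =>
    rw [Finset.sum_empty, ofAdd_zero, map_one, map_one, map_one]
  | insert a s ha ih =>
    rw [Finset.sum_insert ha, ofAdd_add, map_mul, map_mul, map_mul, ih, h0]

theorem cen_injective (β : Fin d → Fin d → Fin n → ZMod p) : Function.Injective (cen β) := by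
  intro x y h
  have := congrArg BG.w h
  exact this

/-- an isomorphism fixing all generators forces the matrices to be equal -/
theorem eq_of_fix [NeZero p] (γ γ' : (Σ j : Fin d, Fin j) → Fin n → ZMod p)
    (ψ : BG p d n (tri γ) →* BG p d n (tri γ'))
    (h : ∀ q, ψ (gen (tri γ) q) = gen (tri γ') q) : γ = γ' := by
  funext q
  obtain ⟨j, i, hi⟩ := q
  have hij : (⟨i, hi.trans j.2⟩ : Fin d) < j := hi
  have h1 := swap_gen γ ⟨i, hi.trans j.2⟩ j hij
  have h2 := swap_gen γ' ⟨i, hi.trans j.2⟩ j hij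
  have h3 := congrArg ψ h1
  rw [map_mul, map_mul, map_mul, h, h, h2, fix_cen _ _ ψ (fun k => h (Sum.inr k))] at h3
  have h4 := cen_injective _ (mul_left_cancel h3)
  exact (Multiplicative.ofAdd.injective h4).symm

/-- Cayley: a group of order `N` is isomorphic to a subgroup of `Perm (Fin N)`. -/
theorem cayley (G : Type) [Group G] (N : ℕ) (hN : 0 < N) (h : Nat.card G = N) :
    ∃ H : Subgroup (Equiv.Perm (Fin N)), Nonempty (G ≃* H) := by
  have : Finite G := Nat.finite_of_card_ne_zero (by omega)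
  obtain ⟨k, ⟨e⟩⟩ := Finite.exists_equiv_fin G
  have hk : k = N := by
    rw [← h, Nat.card_congr e, Nat.card_fin]
  subst hk
  let f : G →* Equiv.Perm (Fin k) := (e.permCongrHom.toMonoidHom).comp (MulAction.toPermHom G G)
  have hf : Function.Injective f := by
    intro a b hab
    have h1 : MulAction.toPermHom G G a = MulAction.toPermHom G G b :=
      e.permCongrHom.injective hab
    exact MulAction.toPerm_injective h1
  exact ⟨f.range, ⟨MonoidHom.ofInjective hf⟩⟩

theorem lift_map {G H : Type} [Group G] [Group H] (f : G →* H) (x : ℕ → G) (w : FreeGroup ℕ) :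
    f (FreeGroup.lift x w) = FreeGroup.lift (fun i => f (x i)) w := by
  have : f.comp (FreeGroup.lift x) = FreeGroup.lift (fun i => f (x i)) := by
    apply FreeGroup.ext_hom
    intro a
    simp
  rw [← this]
  rfl

theorem num (m : ℕ) : 2 * m ^ 3 / 27 ≤
    (m - 2 * m / 3) * ((2 * m / 3) * (2 * m / 3 - 1) / 2) + m ^ 2 := by
  set d := 2 * m / 3 with hd
  obtain ⟨e, he⟩ : ∃ e, d * (d - 1) = 2 * e := by
    have : Even (d * (d - 1)) := Nat.even_mul_pred_self d
    obtain ⟨e, he⟩ := this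
    exact ⟨e, by omega⟩
  have he2 : d * (d - 1) / 2 = e := by omega
  rw [he2]
  obtain ⟨n, hn⟩ : ∃ n, n = m - d := ⟨_, rfl⟩
  rw [← hn]
  have hd1 : 2 * m ≤ 3 * d + 2 := by omega
  have hd2 : 3 * d ≤ 2 * m := by omega
  have hn1 : m = n + d := by omega
  have hn2 : m ≤ 3 * n := by omega
  apply Nat.div_le_of_le_mul
  -- 2 m^3 ≤ 27 (n e + m^2)
  rcases Nat.eq_zero_or_pos d with h0 | h0
  · rw [h0] at hd1
    have : m ≤ 1 := by omega
    have h9 := Nat.zero_le (n * e)
    interval_cases m <;> omega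
  · obtain ⟨c, hc⟩ : ∃ c, d = c + 1 := ⟨d - 1, by omega⟩
    have he3 : (c + 1) * c = 2 * e := by
      rw [hc] at he
      simpa using he
    -- n e ≥ (m/3) e
    have h1 : m * ((c + 1) * c) ≤ 3 * n * (2 * e) := by
      rw [he3]; exact Nat.mul_le_mul_right _ hn2
    have h2 : 2 * m ≤ 3 * c + 5 := by omega
    have h3 : (2 * m) * (2 * m) ≤ (3 * c + 5) * (3 * c + 5) := Nat.mul_le_mul h2 h2
    have h5 : 3 * c ≤ 2 * m := by omega
    have h6 : 1 ≤ m := by omega
    have h4 : 4 * (m * m) ≤ 9 * ((c + 1) * c) + 42 * m + 25 := by nlinarith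
    have h7 : 4 * (m * m) * m ≤ (9 * ((c + 1) * c) + 42 * m + 25) * m := Nat.mul_le_mul_right _ h4
    nlinarith
end LowerAux

open LowerAux in
theorem lower : Lower_Stmt := by
  intro p hp
  refine ⟨2, ?_⟩
  intro m hm L hL
  classical
  have : NeZero p := ⟨hp.out.ne_zero⟩
  set d := 2 * m / 3 with hd
  set n := m - d with hn
  have hdn : d + n = m := by omega
  -- the class of γ
  have hex : ∀ γ : (Σ j : Fin d, Fin j) → Fin n → ZMod p,
      ∃ H : {H : Subgroup (Equiv.Perm (Fin (p ^ m))) //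
        Nat.card H = p ^ m ∧ ∀ w ∈ L, ∀ x : ℕ → H, FreeGroup.lift x w = 1},
        Nonempty (BG p d n (tri γ) ≃* H.1) := by
    intro γ
    have h1 : Nat.card (BG p d n (tri γ)) = p ^ m := by rw [card_BG, hdn]
    obtain ⟨H, ⟨e⟩⟩ := cayley (BG p d n (tri γ)) (p ^ m) (pow_pos hp.out.pos m) h1
    refine ⟨⟨H, ?_, ?_⟩, ⟨e⟩⟩
    · rw [← Nat.card_congr e.toEquiv, h1]
    · intro w hw x
      apply e.symm.injective
      rw [map_one]
      have := lift_map e.symm.toMonoidHom x w
      rw [hL _ _ _ w hw] at this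
      exact this
  choose H hH using hex
  let F : ((Σ j : Fin d, Fin j) → Fin n → ZMod p) → cls p m L := fun γ => Quot.mk _ (H γ)
  have hF : ∀ γ γ', F γ = F γ' → Nonempty (BG p d n (tri γ) ≃* BG p d n (tri γ')) := by
    intro γ γ' h
    let P : cls p m L → Prop := Quot.lift (fun K => Nonempty ((H γ).1 ≃* K.1)) (by
      rintro K K' ⟨e⟩
      apply propext
      exact ⟨fun ⟨f⟩ => ⟨f.trans e⟩, fun ⟨f⟩ => ⟨f.trans e.symm⟩⟩)
    have h1 : P (F γ) := ⟨MulEquiv.refl _⟩
    rw [h] at h1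
    obtain ⟨e⟩ := h1
    obtain ⟨e1⟩ := hH γ
    obtain ⟨e2⟩ := hH γ'
    exact ⟨(e1.trans e).trans e2.symm⟩
  have hfinc : Finite (cls p m L) := by
    unfold cls
    infer_instance
  have hBfin : ∀ γ : (Σ j : Fin d, Fin j) → Fin n → ZMod p, Finite (BG p d n (tri γ)) := by
    intro γ
    exact Finite.of_equiv _ (bgEquiv (tri γ)).symm
  -- fibres
  have hfib : ∀ y ∈ (Set.univ : Set (cls p m L)),
      {x | x ∈ (Set.univ : Set ((Σ j : Fin d, Fin j) → Fin n → ZMod p)) ∧ F x = y}.ncard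
        ≤ p ^ (m * m) := by
    intro y _
    rcases Set.eq_empty_or_nonempty {x | x ∈ (Set.univ : Set ((Σ j : Fin d, Fin j) → Fin n → ZMod p)) ∧ F x = y}
      with h0 | ⟨γ₀, -, hγ₀⟩
    · rw [h0, Set.ncard_empty]; exact Nat.zero_le _
    · have hx : ∀ γ, F γ = y → Nonempty (BG p d n (tri γ) ≃* BG p d n (tri γ₀)) :=
        fun γ hγ => hF γ γ₀ (hγ.trans hγ₀.symm)
      let g : ((Σ j : Fin d, Fin j) → Fin n → ZMod p) → (Fin d ⊕ Fin n → BG p d n (tri γ₀)) :=
        fun γ q => if h : F γ = y then (hx γ h).some (gen (tri γ) q) else 1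
      have hinj : Set.InjOn g {x | x ∈ (Set.univ : Set ((Σ j : Fin d, Fin j) → Fin n → ZMod p)) ∧ F x = y} := by
        rintro γ ⟨-, hγ⟩ γ' ⟨-, hγ'⟩ hg
        apply eq_of_fix γ γ' (((hx γ hγ).some.trans (hx γ' hγ').some.symm).toMonoidHom)
        intro q
        have h1 := congrFun hg q
        simp only [g, dif_pos hγ, dif_pos hγ'] at h1
        show (hx γ' hγ').some.symm ((hx γ hγ).some (gen (tri γ) q)) = _
        rw [h1, MulEquiv.symm_apply_apply]
      have h1 : {x | x ∈ (Set.univ : Set ((Σ j : Fin d, Fin j) → Fin n → ZMod p)) ∧ F x = y}.ncard ≤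
          (Set.univ : Set (Fin d ⊕ Fin n → BG p d n (tri γ₀))).ncard :=
        Set.ncard_le_ncard_of_injOn g (fun _ _ => trivial) hinj (Set.toFinite _)
      refine h1.trans (le_of_eq ?_)
      rw [Set.ncard_univ, Nat.card_fun, card_BG, hdn, Nat.card_sum, Nat.card_fin, Nat.card_fin, hdn,
        ← pow_mul]
  have hmain := ncard_le_mul_of_fibers F Set.univ Set.univ (p ^ (m * m)) (fun _ _ => trivial) hfib
  rw [Set.ncard_univ, Set.ncard_univ, card_tri] at hmain
  have hnum := num m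
  have h1 : p ^ (2 * m ^ 3 / 27) ≤ p ^ (n * (d * (d - 1) / 2) + m ^ 2) :=
    Nat.pow_le_pow_right hp.out.pos hnum
  refine h1.trans ?_
  rw [pow_add]
  calc p ^ (n * (d * (d - 1) / 2)) * p ^ m ^ 2
      ≤ (Nat.card (cls p m L) * p ^ (m * m)) * p ^ m ^ 2 := Nat.mul_le_mul_right _ hmain
    _ = p ^ (2 * m ^ 2) * Nat.card (cls p m L) := by
        rw [mul_assoc, ← pow_add, mul_comm]
        congr 2
        ring

end Pool.Agent.Helper37.SM
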