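import Pool.Agent.Helper37.SM.Stmts

set_option autoImplicit false

/-! Modules Chain and Marks (helper97). -/

namespace Pool.Agent.Helper37.SM

theorem chain : Chain_Stmt := by
  intro p hp G _ _ hG H A B hAB hHA hHB
  classical
  have : Group.IsNilpotent G := hG.isNilpotent
  obtain ⟨N, hN⟩ := Group.IsNilpotent.nilpotent G
  have hex : ∃ i, ¬ (Subgroup.upperCentralSeries G i ⊓ B ≤ A) :=
    ⟨N, by rw [hN, top_inf_eq]; exact not_le_of_gt hAB⟩
  have hi := Nat.find_spec hex
  have hi0 : Nat.find hex ≠ 0 := by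
    intro h0
    apply hi
    rw [h0, Subgroup.upperCentralSeries_zero, bot_inf_eq]
    exact bot_le
  obtain ⟨j, hj⟩ := Nat.exists_eq_succ_of_ne_zero hi0
  have hjle : Subgroup.upperCentralSeries G j ⊓ B ≤ A := by
    by_contra hc
    exact Nat.find_min hex (by omega) hc
  rw [hj] at hi
  obtain ⟨y0, hy0, hy0A⟩ := SetLike.not_le_iff_exists.mp hi
  have hex2 : ∃ k, y0 ^ (p ^ k) ∈ A := by
    obtain ⟨k, hk⟩ := hG y0
    exact ⟨k, by rw [hk]; exact A.one_mem⟩
  have hk := Nat.find_spec hex2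
  have hk0 : Nat.find hex2 ≠ 0 := by
    intro h0
    rw [h0, pow_zero, pow_one] at hk
    exact hy0A hk
  obtain ⟨k, hkk⟩ := Nat.exists_eq_succ_of_ne_zero hk0
  have hyA : y0 ^ (p ^ k) ∉ A := Nat.find_min hex2 (by omega)
  rw [hkk, pow_succ, pow_mul] at hk
  have hy : y0 ^ (p ^ k) ∈ Subgroup.upperCentralSeries G (j + 1) ⊓ B := Subgroup.pow_mem _ hy0 _
  generalize y0 ^ (p ^ k) = y at hyA hk hy
  have hcomm : ∀ x : G, y⁻¹ * x⁻¹ * y * x ∈ Subgroup.upperCentralSeries G j := by
    intro x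
    have h1 : y⁻¹ ∈ Subgroup.upperCentralSeries G (j + 1) := Subgroup.inv_mem _ hy.1
    have h2 := Subgroup.mem_upperCentralSeries_succ_iff.mp h1 x⁻¹
    rw [commutatorElement_def, inv_inv, inv_inv] at h2
    exact h2
  refine ⟨y, hy.2, hyA, hk, ?_, ?_⟩
  · intro x hx
    exact hjle ⟨hcomm x, B.mul_mem (B.mul_mem (B.mul_mem (B.inv_mem hy.2) (B.inv_mem hx)) hy.2) hx⟩
  · intro x hx
    refine hjle ⟨hcomm x, ?_⟩
    have : y⁻¹ * x⁻¹ * y * x = y⁻¹ * (x⁻¹ * y * x) := by group
    rw [this]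
    exact B.mul_mem (B.inv_mem hy.2) (hHB x hx y hy.2)

namespace MarksM

theorem card_sup_zpowers (p : ℕ) [hp : Fact p.Prime] {G : Type} [Group G] [Finite G]
    (hG : IsPGroup p G) (A : Subgroup G) (y : G) (hyA : y ∉ A) (hyp : y ^ p ∈ A)
    (hn : ∀ a ∈ A, y⁻¹ * a * y ∈ A) :
    Nat.card (A ⊔ Subgroup.zpowers y : Subgroup G) = p * Nat.card A := by
  have hp0 : 0 < p := hp.out.pos
  have hyn : y⁻¹ ∈ Subgroup.normalizer (A : Set G) := by
    apply Subgroup.mem_normalizer_fintype
    intro n hn'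
    have := hn n hn'
    rw [inv_inv]
    exact this
  have hyn' : y ∈ Subgroup.normalizer (A : Set G) := by
    have := Subgroup.inv_mem _ hyn
    rwa [inv_inv] at this
  have hle : Subgroup.zpowers y ≤ Subgroup.normalizer (A : Set G) := by
    rw [Subgroup.zpowers_le]
    exact hyn'
  have hset := Subgroup.coe_mul_of_right_le_normalizer_left A (Subgroup.zpowers y) hle
  apply le_antisymm
  · have hy' : y ∈ A ⊔ Subgroup.zpowers y :=
      (le_sup_right : Subgroup.zpowers y ≤ A ⊔ Subgroup.zpowers y) (Subgroup.mem_zpowers y)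
    let f : Fin p × A → (A ⊔ Subgroup.zpowers y : Subgroup G) := fun x =>
      ⟨x.2 * y ^ (x.1 : ℕ), Subgroup.mul_mem _
        ((le_sup_left : A ≤ A ⊔ Subgroup.zpowers y) x.2.2) (Subgroup.pow_mem _ hy' _)⟩
    have hf : Function.Surjective f := by
      rintro ⟨x, hx⟩
      have hx' : x ∈ (↑(A ⊔ Subgroup.zpowers y) : Set G) := hx
      rw [hset] at hx'
      obtain ⟨a, ha, b, ⟨k, hk⟩, rfl⟩ := Set.mem_mul.mp hx'
      have hk' : y ^ k = b := hk
      have hpz : (p : ℤ) ≠ 0 := by exact_mod_cast hp0.ne'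
      have hr0 := Int.emod_nonneg k hpz
      have hr1 := Int.emod_lt_of_pos k (by exact_mod_cast hp0 : (0 : ℤ) < p)
      obtain ⟨r, hr⟩ := Int.eq_ofNat_of_zero_le hr0
      have hrp : r < p := by
        rw [hr] at hr1
        exact_mod_cast hr1
      have e : y ^ k = (y ^ p) ^ (k / p) * y ^ r := by
        rw [← zpow_natCast y r, ← zpow_natCast y p, ← zpow_mul, ← zpow_add, ← hr,
          Int.mul_ediv_add_emod]
      refine ⟨(⟨r, hrp⟩, ⟨a * (y ^ p) ^ (k / p), A.mul_mem ha (A.zpow_mem hyp _)⟩), ?_⟩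
      apply Subtype.ext
      show a * (y ^ p) ^ (k / p) * y ^ r = a * b
      rw [← hk', e, mul_assoc]
    have := Nat.card_le_card_of_surjective f hf
    rw [Nat.card_prod, Nat.card_fin] at this
    exact this
  · obtain ⟨i, hi⟩ := (IsPGroup.iff_card (p := p) (G := A)).mp (hG.to_subgroup A)
    obtain ⟨j, hj⟩ := (IsPGroup.iff_card (p := p) (G := (A ⊔ Subgroup.zpowers y : Subgroup G))).mp
      (hG.to_subgroup _)
    have hlt : i < j := by
      by_contra hc
      have h1 : Nat.card (A ⊔ Subgroup.zpowers y : Subgroup G) ≤ Nat.card A := by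
        rw [hi, hj]
        exact Nat.pow_le_pow_right hp0 (by omega)
      have h2 := Subgroup.eq_of_le_of_card_ge (le_sup_left : A ≤ A ⊔ Subgroup.zpowers y) h1
      apply hyA
      rw [h2]
      exact (le_sup_right : Subgroup.zpowers y ≤ A ⊔ Subgroup.zpowers y) (Subgroup.mem_zpowers y)
    rw [hi, hj, mul_comm, ← pow_succ]
    exact Nat.pow_le_pow_right hp0 hlt

/-- the marks reach `B` after `j` steps -/
def Q (p : ℕ) {G : Type} [Group G] (H B : Subgroup G) (c : ℕ → G) (j : ℕ) : Prop :=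
  R c j = B ∧ (∀ k ≤ j, Nat.card (R c k) = p ^ k) ∧
    (∀ k < j, ∀ x ∈ R c k, (c k)⁻¹ * x * c k ∈ R c k) ∧
    (∀ k < j, ∀ x ∈ H, (c k)⁻¹ * x⁻¹ * c k * x ∈ R c k)

theorem Q.congr {p : ℕ} {G : Type} [Group G] {H B : Subgroup G} {c c' : ℕ → G} {j : ℕ}
    (h : Q p H B c j) (hc : ∀ k < j, c' k = c k) : Q p H B c' j := by
  have e : ∀ k ≤ j, R c' k = R c k := fun k hk => R_congr c' fun l hl => hc l (by omega)
  obtain ⟨h1, h2, h3, h4⟩ := h
  refine ⟨by rw [e j le_rfl, h1], fun k hk => by rw [e k hk, h2 k hk], fun k hk => ?_,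
    fun k hk => ?_⟩
  · rw [e k hk.le, hc k hk]
    exact h3 k hk
  · rw [e k hk.le, hc k hk]
    exact h4 k hk

theorem extend (p : ℕ) [hp : Fact p.Prime] {G : Type} [Group G] [Finite G] (hG : IsPGroup p G)
    (H B : Subgroup G) (hHB : ∀ x ∈ H, ∀ a ∈ B, x⁻¹ * a * x ∈ B) (j : ℕ)
    (hB : Nat.card B = p ^ j) (m : ℕ) :
    ∀ (A : Subgroup G) (c : ℕ → G) (i : ℕ), i + m = j → A ≤ B →
      (∀ x ∈ H, ∀ a ∈ A, x⁻¹ * a * x ∈ A) → Q p H A c i →
      ∃ c' : ℕ → G, (∀ k < i, c' k = c k) ∧ Q p H B c' j := by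
  induction m with
  | zero =>
    intro A c i hij hAB hHA hQ
    have hij' : i = j := by omega
    subst hij'
    have hA : Nat.card A = p ^ i := by
      rw [← hQ.1]
      exact hQ.2.1 i le_rfl
    have : A = B := Subgroup.eq_of_le_of_card_ge hAB (by rw [hA, hB])
    subst this
    exact ⟨c, fun k _ => rfl, hQ⟩
  | succ m ih =>
    intro A c i hij hAB hHA hQ
    have hp1 : 1 < p := hp.out.one_lt
    have hA : Nat.card A = p ^ i := by
      rw [← hQ.1]
      exact hQ.2.1 i le_rfl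
    have hlt : A < B := by
      refine lt_of_le_of_ne hAB ?_
      rintro rfl
      rw [hA] at hB
      have := Nat.pow_right_injective hp1 hB
      omega
    obtain ⟨y, hyB, hyA, hyp, hy1, hy2⟩ := chain p G hG H A B hlt hHA hHB
    have hnorm : ∀ a ∈ A, y⁻¹ * a * y ∈ A := by
      intro a ha
      have h1 := hy1 a⁻¹ (B.inv_mem (hAB ha))
      have h2 : y⁻¹ * a * y = (y⁻¹ * a⁻¹⁻¹ * y * a⁻¹) * a := by group
      rw [h2]
      exact A.mul_mem h1 ha
    have hcard := card_sup_zpowers p hG A y hyA hyp hnorm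
    have hyA' : y ∈ A ⊔ Subgroup.zpowers y :=
      (le_sup_right : Subgroup.zpowers y ≤ A ⊔ Subgroup.zpowers y) (Subgroup.mem_zpowers y)
    have hAA' : A ≤ A ⊔ Subgroup.zpowers y := le_sup_left
    have hA'B : A ⊔ Subgroup.zpowers y ≤ B := sup_le hAB (by rw [Subgroup.zpowers_le]; exact hyB)
    have hHA' : ∀ x ∈ H, ∀ a ∈ A ⊔ Subgroup.zpowers y,
        x⁻¹ * a * x ∈ A ⊔ Subgroup.zpowers y := by
      intro x hx
      have h1 : A ⊔ Subgroup.zpowers y ≤
          (A ⊔ Subgroup.zpowers y).comap (MulAut.conj x⁻¹).toMonoidHom := by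
        apply sup_le
        · intro a ha
          rw [Subgroup.mem_comap]
          have := hAA' (hHA x hx a ha)
          simpa using this
        · rw [Subgroup.zpowers_le, Subgroup.mem_comap]
          have h2 : x⁻¹ * y * x = y * (y⁻¹ * x⁻¹ * y * x) := by group
          have h3 : x⁻¹ * y * x ∈ A ⊔ Subgroup.zpowers y := by
            rw [h2]
            exact Subgroup.mul_mem _ hyA' (hAA' (hy2 x hx))
          simpa using h3
      intro a ha
      have := h1 ha
      rw [Subgroup.mem_comap] at this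
      simpa using this
    let c1 : ℕ → G := Function.update c i y
    have hc1 : ∀ k < i, c1 k = c k := fun k hk => by
      simp only [c1]
      rw [Function.update_of_ne (by omega)]
    have hc1i : c1 i = y := by
      simp only [c1]
      rw [Function.update_self]
    have hQ1 : Q p H A c1 i := hQ.congr hc1
    have hR : R c1 (i + 1) = A ⊔ Subgroup.zpowers y := by
      rw [R_succ, hQ1.1, hc1i]
    have hQ2 : Q p H (A ⊔ Subgroup.zpowers y) c1 (i + 1) := by
      refine ⟨hR, fun k hk => ?_, fun k hk => ?_, fun k hk => ?_⟩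
      · rcases Nat.lt_or_ge k (i + 1) with h | h
        · exact hQ1.2.1 k (by omega)
        · have hk' : k = i + 1 := by omega
          subst hk'
          rw [hR, hcard, hA, pow_succ, mul_comm]
      · rcases Nat.lt_or_ge k i with h | h
        · exact hQ1.2.2.1 k h
        · have hk' : k = i := by omega
          subst hk'
          rw [hQ1.1, hc1i]
          exact hnorm
      · rcases Nat.lt_or_ge k i with h | h
        · exact hQ1.2.2.2 k h
        · have hk' : k = i := by omega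
          subst hk'
          rw [hQ1.1, hc1i]
          exact hy2
    obtain ⟨c', hc', hQ'⟩ := ih (A ⊔ Subgroup.zpowers y) c1 (i + 1) (by omega) hA'B hHA' hQ2
    refine ⟨c', fun k hk => ?_, hQ'⟩
    rw [hc' k (by omega), hc1 k hk]

end MarksM

open MarksM in
theorem marks : Marks_Stmt := by
  intro p hp G _ _ hG H C D P z b n hCD hDP hHC hHD hHP hC hD hP
  have hp1 : 1 < p := hp.out.one_lt
  have hzb : z ≤ b := by
    have := Nat.card_le_card_of_injective (Subgroup.inclusion hCD) (Subgroup.inclusion_injective hCD)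
    rw [hC, hD] at this
    exact (Nat.pow_le_pow_iff_right hp1).mp this
  have hbn : b ≤ n := by
    have := Nat.card_le_card_of_injective (Subgroup.inclusion hDP) (Subgroup.inclusion_injective hDP)
    rw [hD, hP] at this
    exact (Nat.pow_le_pow_iff_right hp1).mp this
  have hQ0 : Q p H ⊥ (fun _ => (1 : G)) 0 := by
    refine ⟨R_zero _, fun k hk => ?_, fun k hk => absurd hk (by omega),
      fun k hk => absurd hk (by omega)⟩
    have : k = 0 := by omega
    subst this
    rw [R_zero, pow_zero]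
    exact Subgroup.card_bot
  obtain ⟨c1, -, hQ1⟩ := extend p hG H C hHC z hC z ⊥ (fun _ => 1) 0 (by omega) bot_le
    (fun x _ a ha => by
      rw [Subgroup.mem_bot] at ha ⊢
      rw [ha]; group) hQ0
  obtain ⟨c2, h2, hQ2⟩ := extend p hG H D hHD b hD (b - z) C c1 z (by omega) hCD hHC hQ1
  obtain ⟨c3, h3, hQ3⟩ := extend p hG H P hHP n hP (n - b) D c2 b (by omega) hDP hHD hQ2
  have e1 : R c3 z = C := by
    rw [← hQ1.1]
    exact R_congr c3 fun k hk => by rw [h3 k (by omega), h2 k hk]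
  have e2 : R c3 b = D := by
    rw [← hQ2.1]
    exact R_congr c3 fun k hk => h3 k hk
  exact ⟨c3, e1, e2, hQ3.1, hQ3.2.1, hQ3.2.2.1, hQ3.2.2.2⟩

end Pool.Agent.Helper37.SM
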