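import Mathlib
import Pool.Agent.Helper37.SM.Stmts

set_option autoImplicit false

/-! The numerical inequality. -/

namespace Pool.Agent.Helper37.SM

theorem num_tot_le (p m z b n t t1 A a1 x y q : ℕ) (hb : b = z + x) (hn : n = b + y)
    (hm : m = n + t1 + q) :
    2 * tot ⟨p, m, z, b, n, t, t1, A, a1⟩ ≤
      2 * ((m + t) * base ⟨p, m, z, b, n, t, t1, A, a1⟩) + z * (x + y + t + t1) ^ 2
        + z * (q ^ 2 + 2 * q * y) + 2 * (q * (t1 * b)) := by
  unfold tot cost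
  dsimp only
  rw [Finset.sum_add_distrib, Finset.sum_const, Finset.card_range, smul_eq_mul, mul_add]
  have hmt : m + t = (n + t + t1) + q := by omega
  have hsum : ∀ B : ℕ, (∑ i ∈ Finset.range (m + t),
      (if i < n + t + t1 then z * (i - z) else z * (i - b - t - t1) + B)) =
      (∑ i ∈ Finset.range (n + t + t1), z * (i - z)) +
      ∑ j ∈ Finset.range q, (z * (y + j) + B) := by
    intro B
    rw [hmt, Finset.sum_range_add]
    congr 1
    · apply Finset.sum_congr rfl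
      intro i hi
      rw [if_pos (Finset.mem_range.mp hi)]
    · apply Finset.sum_congr rfl
      intro j _
      rw [if_neg (by omega)]
      congr 2
      omega
  have h1 : ∀ k : ℕ, 2 * ∑ i ∈ Finset.range k, i ≤ k ^ 2 := by
    intro k
    have := Finset.sum_range_id_mul_two k
    have h2 : k * (k - 1) ≤ k * k := Nat.mul_le_mul_left _ (Nat.sub_le _ _)
    rw [sq]
    omega
  have hS1 : 2 * ∑ i ∈ Finset.range (n + t + t1), z * (i - z) ≤ z * (x + y + t + t1) ^ 2 := by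
    have e : n + t + t1 = z + (x + y + t + t1) := by omega
    rw [e, Finset.sum_range_add]
    have h0 : ∑ i ∈ Finset.range z, z * (i - z) = 0 := by
      apply Finset.sum_eq_zero
      intro i hi
      have := Finset.mem_range.mp hi
      rw [Nat.sub_eq_zero_of_le this.le, mul_zero]
    rw [h0, zero_add]
    have h2 : ∑ i ∈ Finset.range (x + y + t + t1), z * (z + i - z) =
        z * ∑ i ∈ Finset.range (x + y + t + t1), i := by
      rw [Finset.mul_sum]
      apply Finset.sum_congr rfl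
      intro i _
      rw [Nat.add_sub_cancel_left]
    rw [h2]
    calc 2 * (z * ∑ i ∈ Finset.range (x + y + t + t1), i) =
        z * (2 * ∑ i ∈ Finset.range (x + y + t + t1), i) := by ring
      _ ≤ _ := Nat.mul_le_mul_left _ (h1 _)
  have hS2 : 2 * ∑ j ∈ Finset.range q, (z * (y + j) + t1 * b) ≤
      z * (q ^ 2 + 2 * q * y) + 2 * (q * (t1 * b)) := by
    have h2 : ∑ j ∈ Finset.range q, (z * (y + j) + t1 * b) =
        z * (q * y) + z * (∑ j ∈ Finset.range q, j) + q * (t1 * b) := by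
      rw [Finset.sum_add_distrib, ← Finset.mul_sum, Finset.sum_add_distrib, Finset.sum_const,
        Finset.sum_const, Finset.card_range, smul_eq_mul, smul_eq_mul]
      ring
    rw [h2]
    have h3 := Nat.mul_le_mul_left z (h1 q)
    nlinarith
  have h5 := hsum (t1 * b)
  rw [h5]
  have : 2 * ((∑ i ∈ Finset.range (n + t + t1), z * (i - z)) +
      ∑ j ∈ Finset.range q, (z * (y + j) + t1 * b)) =
      2 * (∑ i ∈ Finset.range (n + t + t1), z * (i - z)) +
      2 * ∑ j ∈ Finset.range q, (z * (y + j) + t1 * b) := by ring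
  rw [this]
  omega

theorem num_real (p m z b n t t1 A a1 x y q C1 : ℕ) (hb : b = z + x) (hn : n = b + y)
    (hm : m = n + t1 + q) (hm1 : 1 ≤ m) (ht : 100000 * t ≤ x + y)
    (hC : p ^ A + A + p ^ a1 + a1 + 4 ≤ C1) :
    (54 * tot ⟨p, m, z, b, n, t, t1, A, a1⟩ : ℝ) ≤
      27 * z * (m - z) ^ 2 - 54 * q * x * (z - t1) + 0.00068 * (x + y) * m ^ 2
        + 108 * C1 * m ^ 2 := by
  have h1 := num_tot_le p m z b n t t1 A a1 x y q hb hn hm
  have hbase : base ⟨p, m, z, b, n, t, t1, A, a1⟩ ≤ m * t + C1 * m := by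
    unfold base
    simp only
    nlinarith
  have h2 : 2 * tot ⟨p, m, z, b, n, t, t1, A, a1⟩ ≤
      2 * ((m + t) * (m * t + C1 * m)) + z * (x + y + t + t1) ^ 2
        + z * (q ^ 2 + 2 * q * y) + 2 * (q * (t1 * b)) := by
    have := Nat.mul_le_mul_left (m + t) hbase
    omega
  set T := tot ⟨p, m, z, b, n, t, t1, A, a1⟩
  have h3 : (2 * T : ℝ) ≤ 2 * ((m + t) * (m * t + C1 * m)) + z * (x + y + t + t1) ^ 2
        + z * (q ^ 2 + 2 * q * y) + 2 * (q * (t1 * b)) := by exact_mod_cast h2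
  have hb' : (b : ℝ) = z + x := by exact_mod_cast hb
  have hm' : (m : ℝ) = z + x + y + t1 + q := by
    have : m = z + x + y + t1 + q := by omega
    exact_mod_cast this
  have ht' : (100000 * t : ℝ) ≤ x + y := by exact_mod_cast ht
  have z0 : (0 : ℝ) ≤ z := Nat.cast_nonneg z
  have x0 : (0 : ℝ) ≤ x := Nat.cast_nonneg x
  have y0 : (0 : ℝ) ≤ y := Nat.cast_nonneg y
  have t0 : (0 : ℝ) ≤ t := Nat.cast_nonneg t
  have t10 : (0 : ℝ) ≤ t1 := Nat.cast_nonneg t1
  have q0 : (0 : ℝ) ≤ q := Nat.cast_nonneg q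
  have C0 : (0 : ℝ) ≤ C1 := Nat.cast_nonneg C1
  have m0 : (0 : ℝ) ≤ m := Nat.cast_nonneg m
  have htm : (100000 * t : ℝ) ≤ m := by rw [hm']; linarith
  -- first term
  have a1' : ((m : ℝ) + t) * (m * t + C1 * m) ≤ 1.00001 * (t * m ^ 2) + 2 * C1 * m ^ 2 := by
    have e : ((m : ℝ) + t) * (m * t + C1 * m) = (m + t) * m * (t + C1) := by ring
    have e2 : ((m : ℝ) + t) ≤ 1.00001 * m := by linarith
    have e3 : ((m : ℝ) + t) * m ≤ 1.00001 * m * m := mul_le_mul_of_nonneg_right e2 m0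
    have e4 : ((m : ℝ) + t) * m * (t + C1) ≤ 1.00001 * m * m * (t + C1) :=
      mul_le_mul_of_nonneg_right e3 (by linarith)
    rw [e]
    refine e4.trans ?_
    have e5 : 0 ≤ C1 * (m : ℝ) ^ 2 := by positivity
    have e6 : 1.00001 * (m : ℝ) * m * (t + C1) = 1.00001 * (t * m ^ 2) + 1.00001 * (C1 * (m : ℝ) ^ 2) := by
      ring
    rw [e6]
    nlinarith
  -- square
  have k1 : (z : ℝ) * (x + y + t1) ≤ m ^ 2 / 4 := by
    have : (z : ℝ) + (x + y + t1) ≤ m := by rw [hm']; linarith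
    have h4 : 0 ≤ (x : ℝ) + y + t1 := by linarith
    nlinarith [sq_nonneg ((z : ℝ) - (x + y + t1))]
  have k2 : (z : ℝ) * (x + y + t + t1) ^ 2 ≤ z * (x + y + t1) ^ 2 + 0.50001 * (t * m ^ 2) := by
    have e : (z : ℝ) * (x + y + t + t1) ^ 2 = z * (x + y + t1) ^ 2 + 2 * t * (z * (x + y + t1))
      + (z * t) * t := by ring
    have e2 : 2 * (t : ℝ) * (z * (x + y + t1)) ≤ 2 * t * (m ^ 2 / 4) :=
      mul_le_mul_of_nonneg_left k1 (by linarith)
    have zm : (z : ℝ) ≤ m := by rw [hm']; linarith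
    have e3 : (z : ℝ) * t ≤ m * (m / 100000) := by
      apply mul_le_mul zm (by linarith) t0 m0
    have e4 : ((z : ℝ) * t) * t ≤ m * (m / 100000) * t := mul_le_mul_of_nonneg_right e3 t0
    rw [e]
    have e5 : m * ((m : ℝ) / 100000) * t = 0.00001 * (t * m ^ 2) := by ring
    rw [e5] at e4
    have e6 : 2 * (t : ℝ) * (m ^ 2 / 4) = 0.5 * (t * m ^ 2) := by ring
    rw [e6] at e2
    linarith
  have hid : (z : ℝ) * (x + y + t1) ^ 2 + z * (q ^ 2 + 2 * q * y) + 2 * (q * (t1 * b)) =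
      z * (m - z) ^ 2 - 2 * q * x * (z - t1) := by
    rw [hb', hm']; ring
  have htm2 : (t : ℝ) * m ^ 2 ≤ (x + y) / 100000 * m ^ 2 :=
    mul_le_mul_of_nonneg_right (by linarith) (by positivity)
  have hxy : (0 : ℝ) ≤ (x + y) * m ^ 2 := by positivity
  have hfin : (54 * T : ℝ) ≤ 27 * (2 * (1.00001 * (t * m ^ 2) + 2 * C1 * m ^ 2) +
      (z * (m - z) ^ 2 - 2 * q * x * (z - t1)) + 0.50001 * (t * m ^ 2)) := by
    rw [← hid]
    linarith
  refine hfin.trans ?_
  have e7 : ((x : ℝ) + y) / 100000 * m ^ 2 = 0.00001 * ((x + y) * m ^ 2) := by ring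
  rw [e7] at htm2
  nlinarith

theorem num_floor {T m C : ℕ} (h : (54 * T : ℝ) ≤ 4 * m ^ 3 + 54 * C * m ^ 2) :
    T ≤ 2 * m ^ 3 / 27 + C * m ^ 2 := by
  have h1 : 54 * T ≤ 4 * m ^ 3 + 54 * C * m ^ 2 := by exact_mod_cast h
  have h2 : 27 * T ≤ 2 * m ^ 3 + 27 * (C * m ^ 2) := by nlinarith
  have h3 : T ≤ (2 * m ^ 3 + 27 * (C * m ^ 2)) / 27 := by
    rw [Nat.le_div_iff_mul_le (by norm_num)]
    omega
  rw [Nat.add_mul_div_left _ _ (by norm_num)] at h3
  exact h3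

theorem num_cubic (m z : ℝ) (hz : 0 ≤ z) (hzm : z ≤ m) : 27 * z * (m - z) ^ 2 ≤ 4 * m ^ 3 := by
  have : 4 * m ^ 3 - 27 * z * (m - z) ^ 2 = (m - 3 * z) ^ 2 * (4 * m - 3 * z) := by ring
  have h2 : 0 ≤ (m - 3 * z) ^ 2 * (4 * m - 3 * z) := by
    apply mul_nonneg (sq_nonneg _); linarith
  linarith

theorem num : Num_Stmt := by
  intro p
  set C1 : ℕ := p ^ 100000 + 100000 + p ^ 80 + 80 + 5 with hC1
  refine ⟨2 * C1, ?_⟩
  intro m z n t hm hzn hnm ht
  obtain ⟨κ, rfl⟩ := Nat.exists_eq_add_of_le hzn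
  obtain ⟨d, rfl⟩ := Nat.exists_eq_add_of_le hnm
  rw [Nat.add_sub_cancel_left] at *
  have hC80 : p ^ 100000 + 100000 + p ^ 80 + 80 + 4 ≤ C1 := by rw [hC1]; omega
  have hC0 : p ^ 100000 + 100000 + p ^ 0 + 0 + 4 ≤ C1 := by
    rw [hC1, pow_zero]; omega
  clear_value C1
  set m := z + κ + d with hmdef
  have mr : (m : ℝ) = z + κ + d := by rw [hmdef]; push_cast; ring
  have z0 : (0 : ℝ) ≤ z := Nat.cast_nonneg z
  have κ0 : (0 : ℝ) ≤ κ := Nat.cast_nonneg κ
  have d0 : (0 : ℝ) ≤ d := Nat.cast_nonneg d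
  have m1 : (1 : ℝ) ≤ m := by exact_mod_cast hm
  have cc : (2 * C1 : ℕ) = (2 * C1 : ℝ) := by push_cast; ring
  have C1big : 100000 ≤ C1 := by omega
  by_cases hsmall : m < 1000
  · -- small m
    right; right; right
    have h1 : m - (z + κ) + 1 ≤ 1000 := by omega
    have h2 : m * (m + 1) / 2 ≤ m ^ 2 := by
      apply Nat.div_le_of_le_mul
      nlinarith
    calc (m - (z + κ) + 1) * (m * (m + 1) / 2) ≤ 1000 * m ^ 2 := Nat.mul_le_mul h1 h2
      _ ≤ 2 * C1 * m ^ 2 := Nat.mul_le_mul_right _ (by omega)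
      _ ≤ _ := Nat.le_add_left _ _
  push Not at hsmall
  have m1000 : (1000 : ℝ) ≤ m := by exact_mod_cast hsmall
  by_cases hI : 16 * κ ≤ m
  · -- case I
    right; left
    intro t1 ht1 hnt
    apply num_floor
    obtain ⟨q, hq⟩ := Nat.exists_eq_add_of_le hnt
    have h1 := num_real p m z (z + κ) (z + κ) t t1 100000 0 κ 0 q C1 rfl (by omega) hq hm
      (by omega) hC0
    refine h1.trans ?_
    have hIr : (16 * κ : ℝ) ≤ m := by exact_mod_cast hI
    have ht1r : (t1 : ℝ) ≤ 2 * κ := by exact_mod_cast ht1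
    have t10 : (0 : ℝ) ≤ t1 := Nat.cast_nonneg t1
    have hdq : (d : ℝ) = t1 + q := by
      have : d = t1 + q := by omega
      exact_mod_cast this
    have hqr : (q : ℝ) = d - t1 := by rw [hdq]; ring
    rw [hqr]
    push_cast
    have e1 : 27 * (z : ℝ) * (m - z) ^ 2 - 54 * (d - t1) * κ * (z - t1) =
        27 * (z * d ^ 2) + 27 * (z * κ ^ 2) + 54 * κ * t1 * (z + d) - 54 * κ * t1 ^ 2 := by
      rw [mr]; ring
    rw [e1]
    have e2 : 27 * (z : ℝ) * d ^ 2 ≤ 4 * (z + d) ^ 3 := by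
      have := num_cubic ((z : ℝ) + d) z z0 (by linarith)
      have e3 : (z : ℝ) + d - z = d := by ring
      rwa [e3] at this
    have hzd : (z : ℝ) + d = m - κ := by rw [mr]; ring
    rw [hzd] at e2 ⊢
    have e4 : 4 * ((m : ℝ) - κ) ^ 3 ≤ 4 * m ^ 3 - 12 * m ^ 2 * κ + 12 * m * κ ^ 2 := by
      have : 0 ≤ (κ : ℝ) ^ 3 := by positivity
      nlinarith
    have e5 : 54 * (κ : ℝ) * t1 * (m - κ) ≤ 108 * κ ^ 2 * m := by
      have h3 : (t1 : ℝ) * (m - κ) ≤ 2 * κ * m := by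
        apply mul_le_mul ht1r (by linarith) (by linarith) (by linarith)
      have h4 := mul_le_mul_of_nonneg_left h3 (show (0 : ℝ) ≤ 54 * κ by linarith)
      nlinarith
    have e6 : 0 ≤ 54 * (κ : ℝ) * t1 ^ 2 := by positivity
    have e7 : 27 * ((z : ℝ) * κ ^ 2) ≤ 27 * m * κ ^ 2 := by
      have : (z : ℝ) ≤ m := by rw [mr]; linarith
      nlinarith [sq_nonneg (κ : ℝ)]
    have e8 : 147 * (m : ℝ) * κ ^ 2 ≤ 147 / 16 * (m ^ 2 * κ) := by
      have : (m : ℝ) * κ * (16 * κ) ≤ m * κ * m :=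
        mul_le_mul_of_nonneg_left hIr (by positivity)
      nlinarith
    have e9 : 0 ≤ (m : ℝ) ^ 2 * κ := by positivity
    nlinarith
  push Not at hI
  by_cases hII : 8 * d < m
  · -- case II
    right; right; right
    have h0 : m - (z + κ) = d := by omega
    rw [h0]
    have h1 : 2 * (m * (m + 1) / 2) ≤ m * (m + 1) := Nat.mul_div_le _ _
    have h2 : 2 * ((d + 1) * (m * (m + 1) / 2)) ≤ (d + 1) * (m * (m + 1)) := by
      calc 2 * ((d + 1) * (m * (m + 1) / 2)) = (d + 1) * (2 * (m * (m + 1) / 2)) := by ring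
        _ ≤ _ := Nat.mul_le_mul_left _ h1
    apply num_floor
    have h3 : (2 * (((d + 1) * (m * (m + 1) / 2) : ℕ) : ℝ)) ≤ ((d : ℝ) + 1) * (m * (m + 1)) := by
      exact_mod_cast h2
    have hd : (8 * d : ℝ) ≤ m := by exact_mod_cast hII.le
    have h4 : ((d : ℝ) + 1) * (m * (m + 1)) ≤ (m / 8 + 1) * (m * (m + 1)) :=
      mul_le_mul_of_nonneg_right (by linarith) (by positivity)
    have hCr : (100000 : ℝ) ≤ C1 := by exact_mod_cast C1big
    rw [cc]
    have h5 : (m / 8 + 1) * (m * ((m : ℝ) + 1)) = m ^ 3 / 8 + 9 / 8 * m ^ 2 + m := by ring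
    have h6 : (m : ℝ) ≤ m ^ 2 := by nlinarith
    have h7 : 0 ≤ (m : ℝ) ^ 3 := by positivity
    have h8 : 100000 * (m : ℝ) ^ 2 ≤ C1 * m ^ 2 := mul_le_mul_of_nonneg_right hCr (by positivity)
    nlinarith
  push Not at hII
  by_cases hIII : 10 * z < m
  · -- case III
    left
    apply num_floor
    have h1 := num_real p m z z (z + κ) t 0 100000 0 0 κ d C1 (by omega) rfl (by omega) hm
      (by omega) hC0
    refine h1.trans ?_
    rw [cc]
    push_cast
    have hz : (10 * z : ℝ) ≤ m := by exact_mod_cast hIII.le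
    have e1 : 4 * (m : ℝ) ^ 3 - 27 * z * (m - z) ^ 2 = (m - 3 * z) ^ 2 * (4 * m - 3 * z) := by ring
    have e2 : (0.7 * (m : ℝ)) ^ 2 ≤ (m - 3 * z) ^ 2 := by
      apply pow_le_pow_left₀ (by positivity); linarith
    have e3 : (0.7 * (m : ℝ)) ^ 2 * (3.7 * m) ≤ (m - 3 * z) ^ 2 * (4 * m - 3 * z) :=
      mul_le_mul e2 (by linarith) (by positivity) (sq_nonneg _)
    have e4 : (κ : ℝ) * m ^ 2 ≤ m ^ 3 := by
      have : (κ : ℝ) ≤ m := by rw [mr]; linarith
      nlinarith [sq_nonneg (m : ℝ)]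
    have e5 : 0 ≤ (m : ℝ) ^ 3 := by positivity
    nlinarith
  push Not at hIII
  -- case IV
  right; right; left
  obtain ⟨j0, hj1, hj2⟩ : ∃ j0 : ℕ, m ≤ 160 * j0 ∧ 160 * j0 ≤ m + 160 := by
    refine ⟨m / 160 + 1, ?_, ?_⟩ <;> omega
  refine ⟨j0, by omega, ?_⟩
  intro t1 b hb1 hb2 hnt ht80
  apply num_floor
  obtain ⟨x, rfl⟩ := Nat.exists_eq_add_of_le (show z ≤ b by omega)
  obtain ⟨y, hy⟩ := Nat.exists_eq_add_of_le hb2
  obtain ⟨q, hq⟩ := Nat.exists_eq_add_of_le hnt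
  have h1 := num_real p m z (z + x) (z + κ) t t1 100000 80 x y q C1 rfl hy hq hm
    (by omega) hC80
  refine h1.trans ?_
  rw [cc]
  have t10 : (0 : ℝ) ≤ t1 := Nat.cast_nonneg t1
  have hκxy : (κ : ℝ) = x + y := by
    have : κ = x + y := by omega
    exact_mod_cast this
  have x1 : m ≤ 160 * x := by omega
  have x1r : (m : ℝ) ≤ 160 * x := by exact_mod_cast x1
  have t1b : 80 * t1 ≤ 2 * m + 160 := by omega
  have t1r : (80 * t1 : ℝ) ≤ 2 * m + 160 := by exact_mod_cast t1b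
  have hdq : (d : ℝ) = t1 + q := by
    have : d = t1 + q := by omega
    exact_mod_cast this
  have hdr : (m : ℝ) ≤ 8 * d := by exact_mod_cast hII
  have hzr : (m : ℝ) ≤ 10 * z := by exact_mod_cast hIII
  have q1 : 0.098 * (m : ℝ) ≤ q := by linarith
  have z1 : 0.073 * (m : ℝ) ≤ z - t1 := by linarith
  have x2 : 0.00625 * (m : ℝ) ≤ x := by linarith
  have g1 : 0.098 * (m : ℝ) * (0.00625 * m) ≤ q * x :=
    mul_le_mul q1 x2 (by positivity) (by linarith)
  have g2 : 0.098 * (m : ℝ) * (0.00625 * m) * (0.073 * m) ≤ q * x * (z - t1) :=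
    mul_le_mul g1 z1 (by positivity) (by positivity)
  have g3 := num_cubic (m : ℝ) z z0 (by rw [mr]; linarith)
  have e4 : ((x : ℝ) + y) * m ^ 2 ≤ m ^ 3 := by
    have : (x : ℝ) + y ≤ m := by rw [← hκxy, mr]; linarith
    nlinarith [sq_nonneg (m : ℝ)]
  have e5 : 0 ≤ (m : ℝ) ^ 3 := by positivity
  nlinarith

end Pool.Agent.Helper37.SM
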