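import Mathlib
import Pool.Agent.Helper37.SM.Defs
import Pool.Agent.Helper37.SM.Stmts

set_option autoImplicit false

namespace Pool.Agent.Helper37.SM

theorem sat : Sat_Stmt := by
  intro p _ G _ _ _ C t h d g T₀ w
  classical
  -- the family of admissible sets
  let S : Finset (Finset (Fin d)) := Finset.univ.filter (fun T => T₀ ⊆ T ∧
    p ^ (w * (T.card - T₀.card)) * Nat.card (DT C t h g T₀) ≤ Nat.card (DT C t h g T))
  have hS : S.Nonempty := ⟨T₀, by simp [S]⟩
  obtain ⟨T, hT, hmax⟩ := S.exists_max_image (fun T => T.card) hS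
  simp only [S, Finset.mem_filter, Finset.mem_univ, true_and] at hT hmax
  refine ⟨T, hT.1, ?_, hT.2⟩
  intro k
  by_contra hk
  push Not at hk
  have hkT : k ∉ T := by
    intro hkT
    rw [Finset.insert_eq_of_mem hkT] at hk
    have hp : 1 ≤ p ^ w := Nat.one_le_pow _ _ (Nat.Prime.pos (Fact.out))
    have : Nat.card (DT C t h g T) ≤ p ^ w * Nat.card (DT C t h g T) := Nat.le_mul_of_pos_left _ hp
    omega
  have hcard : (insert k T).card = T.card + 1 := Finset.card_insert_of_notMem hkT
  have hle : T₀.card ≤ T.card := Finset.card_le_card hT.1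
  have h1 := hmax (insert k T) ⟨hT.1.trans (Finset.subset_insert _ _), by
    rw [hcard]
    have h2 : T.card + 1 - T₀.card = (T.card - T₀.card) + 1 := by omega
    rw [h2, mul_add, mul_one, pow_add]
    calc p ^ (w * (T.card - T₀.card)) * p ^ w * Nat.card (DT C t h g T₀)
        = p ^ w * (p ^ (w * (T.card - T₀.card)) * Nat.card (DT C t h g T₀)) := by ring
      _ ≤ p ^ w * Nat.card (DT C t h g T) := Nat.mul_le_mul_left _ hT.2
      _ ≤ _ := hk.le⟩
  omega

end Pool.Agent.Helper37.SM
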