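import Mathlib
import Pool.Agent.Helper37.SM.Stmts

set_option autoImplicit false
set_option linter.style.haveILetI false

namespace Pool.Agent.Helper37.SM

namespace SmallM

variable {p : ℕ} [hp : Fact p.Prime] {F : Type} [Group F]

/-- every normal subgroup of index `p^(j+1)` is the kernel of an invariant homomorphism to `Z/p`
on a normal subgroup of index `p^j`. -/
theorem up (N : Subgroup F) [N.Normal] (j : ℕ) (hN : N.index = p ^ (j + 1)) :
    ∃ (N1 : Subgroup F) (c : F) (f : N1 →* Multiplicative (ZMod p)), N1.Normal ∧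
      N1.index = p ^ j ∧ N ≤ N1 ∧ c ∈ N1 ∧ c ∉ N ∧ c ^ p ∈ N ∧ (∀ x, c * x * c⁻¹ * x⁻¹ ∈ N) ∧
      (∀ x ∈ N1, ∃ k : ℤ, x * (c ^ k)⁻¹ ∈ N) ∧
      (∀ x : N1, f x = 1 ↔ (x : F) ∈ N) ∧
      (∀ (x y : N1) (g : F), (y : F) = g * x * g⁻¹ → f y = f x) := by
  have hcard : Nat.card (F ⧸ N) = p ^ (j + 1) := by
    rw [← Subgroup.index_eq_card]; exact hN
  have hpos : 0 < Nat.card (F ⧸ N) := by rw [hcard]; exact pow_pos hp.out.pos _
  haveI : Finite (F ⧸ N) := Nat.finite_of_card_ne_zero hpos.ne'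
  have hpG : IsPGroup p (F ⧸ N) := IsPGroup.of_card hcard
  haveI : Nontrivial (F ⧸ N) := by
    apply Finite.one_lt_card_iff_nontrivial.mp
    rw [hcard]
    exact Nat.one_lt_pow (Nat.succ_ne_zero j) hp.out.one_lt
  haveI := hpG.center_nontrivial
  -- an element of order p in the center
  have hdvd : p ∣ Nat.card (Subgroup.center (F ⧸ N)) := by
    have h1 : IsPGroup p (Subgroup.center (F ⧸ N)) := hpG.to_subgroup _
    obtain ⟨n, hn⟩ := IsPGroup.iff_card.mp h1
    rw [hn]
    rcases Nat.eq_zero_or_pos n with h0 | h0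
    · exfalso
      rw [h0, pow_zero] at hn
      have := Finite.one_lt_card (α := Subgroup.center (F ⧸ N))
      omega
    · exact dvd_pow_self p h0.ne'
  obtain ⟨z, hz⟩ := exists_prime_orderOf_dvd_card' p hdvd
  have hzo : orderOf (z : F ⧸ N) = p := by rw [Subgroup.orderOf_coe]; exact hz
  have hzc : ∀ q : F ⧸ N, q * z = z * q := fun q => (Subgroup.mem_center_iff.mp z.2) q
  have hle : Subgroup.zpowers (z : F ⧸ N) ≤ Subgroup.center (F ⧸ N) := by
    rw [Subgroup.zpowers_le]; exact z.2
  haveI hZn : (Subgroup.zpowers (z : F ⧸ N)).Normal := by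
    constructor
    intro n hn g
    have := Subgroup.mem_center_iff.mp (hle hn) g
    rw [this]
    simpa using hn
  obtain ⟨c, hc⟩ := QuotientGroup.mk'_surjective N (z : F ⧸ N)
  have hc' : ((c : F) : F ⧸ N) = z := hc
  have hcardZ : Nat.card (Subgroup.zpowers (z : F ⧸ N)) = p := by
    rw [Nat.card_zpowers, hzo]
  have e : ↥(Subgroup.zpowers (z : F ⧸ N)) ≃* Multiplicative (ZMod p) :=
    mulEquivOfPrimeCardEq (p := p) hcardZ (by simp)
  let N1 : Subgroup F := (Subgroup.zpowers (z : F ⧸ N)).comap (QuotientGroup.mk' N)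
  let f0 : N1 →* ↥(Subgroup.zpowers (z : F ⧸ N)) :=
    ((QuotientGroup.mk' N).comp N1.subtype).codRestrict _ (fun x => x.2)
  have hf0 : ∀ x : N1, (f0 x : F ⧸ N) = ((x : F) : F ⧸ N) := fun x => rfl
  refine ⟨N1, c, e.toMonoidHom.comp f0, ?_, ?_, ?_, ?_, ?_, ?_, ?_, ?_, ?_, ?_⟩
  · exact Subgroup.Normal.comap hZn _
  · have h1 : N1.index = (Subgroup.zpowers (z : F ⧸ N)).index :=
      Subgroup.index_comap_of_surjective _ (QuotientGroup.mk'_surjective N)
    rw [h1]
    have h2 := Subgroup.card_mul_index (Subgroup.zpowers (z : F ⧸ N))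
    rw [hcardZ, hcard, pow_succ, mul_comm] at h2
    exact Nat.eq_of_mul_eq_mul_right hp.out.pos h2
  · intro x hx
    show ((x : F) : F ⧸ N) ∈ Subgroup.zpowers (z : F ⧸ N)
    rw [(QuotientGroup.eq_one_iff x).mpr hx]
    exact Subgroup.one_mem _
  · show ((c : F) : F ⧸ N) ∈ Subgroup.zpowers (z : F ⧸ N)
    rw [hc']; exact Subgroup.mem_zpowers _
  · intro h
    rw [← QuotientGroup.eq_one_iff, hc'] at h
    rw [h, orderOf_one] at hzo
    exact hp.out.one_lt.ne hzo
  · rw [← QuotientGroup.eq_one_iff, QuotientGroup.mk_pow, hc', ← hzo]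
    exact pow_orderOf_eq_one _
  · intro x
    rw [← QuotientGroup.eq_one_iff]
    simp only [QuotientGroup.mk_mul, QuotientGroup.mk_inv, hc']
    rw [← hzc]; group
  · intro x hx
    have hx' : ((x : F) : F ⧸ N) ∈ Subgroup.zpowers (z : F ⧸ N) := hx
    obtain ⟨k, hk⟩ := Subgroup.mem_zpowers_iff.mp hx'
    refine ⟨k, ?_⟩
    rw [← QuotientGroup.eq_one_iff]
    simp only [QuotientGroup.mk_mul, QuotientGroup.mk_inv, QuotientGroup.mk_zpow, hc']
    rw [← hk]; group
  · intro x
    show e (f0 x) = 1 ↔ _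
    rw [map_eq_one_iff e e.injective]
    constructor
    · intro h
      rw [← QuotientGroup.eq_one_iff, ← hf0, h]; rfl
    · intro h
      apply Subtype.ext
      rw [hf0, (QuotientGroup.eq_one_iff _).mpr h]; rfl
  · intro x y g hxy
    show e (f0 y) = e (f0 x)
    congr 1
    apply Subtype.ext
    rw [hf0, hf0, hxy]
    simp only [QuotientGroup.mk_mul, QuotientGroup.mk_inv]
    have hx' : ((x : F) : F ⧸ N) ∈ Subgroup.zpowers (z : F ⧸ N) := x.2
    have := Subgroup.mem_center_iff.mp (hle hx') (g : F ⧸ N)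
    rw [this]; group

theorem gens (d : ℕ) (gen : Fin d → F) (hgen : Subgroup.closure (Set.range gen) = ⊤) :
    ∀ (j : ℕ) (N : Subgroup F), N.Normal → N.index = p ^ j →
      ∃ (ι : Type) (_ : Fintype ι) (S : ι → F), Fintype.card ι = d + (d + 1) * j ∧
        Subgroup.normalClosure (Set.range S) = N := by
  intro j
  induction j with
  | zero =>
    intro N _ hN
    rw [pow_zero, Subgroup.index_eq_one] at hN
    refine ⟨Fin d, inferInstance, gen, by simp, ?_⟩
    rw [hN, eq_top_iff, ← hgen]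
    exact Subgroup.closure_le_normalClosure
  | succ j ih =>
    intro N hNn hN
    obtain ⟨N1, c, f, hN1n, hN1, hle, hc1, hc2, hc3, hc4, hc5, -, -⟩ := up N j hN
    obtain ⟨ι, _, S, hcard, hS⟩ := ih N1 hN1n hN1
    have hSmem : ∀ i, S i ∈ N1 := fun i => by
      rw [← hS]; exact Subgroup.subset_normalClosure ⟨i, rfl⟩
    choose a ha using fun i => hc5 (S i) (hSmem i)
    let S' : (ι ⊕ Fin d) ⊕ Unit → F :=
      Sum.elim (Sum.elim (fun i => S i * (c ^ (a i))⁻¹) (fun k => c * gen k * c⁻¹ * (gen k)⁻¹))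
        (fun _ => c ^ p)
    refine ⟨(ι ⊕ Fin d) ⊕ Unit, inferInstance, S', ?_, ?_⟩
    · simp only [Fintype.card_sum, Fintype.card_fin, Fintype.card_unit, hcard]
      ring
    · set M : Subgroup F := Subgroup.normalClosure (Set.range S') with hM
      haveI : M.Normal := Subgroup.normalClosure_normal
      have hMN : M ≤ N := by
        apply Subgroup.normalClosure_le_normal
        rintro _ ⟨(i | k) | u, rfl⟩
        · exact ha i
        · exact hc4 (gen k)
        · exact hc3
      have hM1 : ∀ i, S i * (c ^ (a i))⁻¹ ∈ M := fun i =>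
        Subgroup.subset_normalClosure ⟨Sum.inl (Sum.inl i), rfl⟩
      have hM2 : ∀ k, c * gen k * c⁻¹ * (gen k)⁻¹ ∈ M := fun k =>
        Subgroup.subset_normalClosure ⟨Sum.inl (Sum.inr k), rfl⟩
      have hM3 : c ^ p ∈ M := Subgroup.subset_normalClosure ⟨Sum.inr (), rfl⟩
      apply le_antisymm hMN
      -- c is central modulo M
      have hcent : ∀ x : F, ((c : F) : F ⧸ M) * (x : F ⧸ M) = (x : F ⧸ M) * ((c : F) : F ⧸ M) := by
        intro x
        have hx : x ∈ Subgroup.closure (Set.range gen) := by rw [hgen]; trivial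
        have hx2 : x ∈ (Subgroup.centralizer {((c : F) : F ⧸ M)}).comap (QuotientGroup.mk' M) := by
          revert x
          rw [← SetLike.le_def, Subgroup.closure_le]
          rintro _ ⟨k, rfl⟩
          show ((gen k : F) : F ⧸ M) ∈ Subgroup.centralizer _
          rw [Subgroup.mem_centralizer_singleton_iff]
          have := (QuotientGroup.eq_one_iff _).mpr (hM2 k)
          simp only [QuotientGroup.mk_mul, QuotientGroup.mk_inv] at this
          rw [mul_inv_eq_one, mul_inv_eq_iff_eq_mul] at this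
          exact this.symm
        exact (Subgroup.mem_centralizer_singleton_iff.mp hx2).symm
      haveI hZn : (Subgroup.zpowers ((c : F) : F ⧸ M)).Normal := by
        constructor
        intro n hn g
        obtain ⟨k, rfl⟩ := Subgroup.mem_zpowers_iff.mp hn
        obtain ⟨g, rfl⟩ := QuotientGroup.mk'_surjective M g
        have h1 : Commute ((c : F) : F ⧸ M) ((g : F) : F ⧸ M) := hcent g
        have h2 := (h1.zpow_left k).eq
        show ((g : F) : F ⧸ M) * _ * ((g : F) : F ⧸ M)⁻¹ ∈ _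
        rw [← h2]
        simp
      have hN1le : N1 ≤ (Subgroup.zpowers ((c : F) : F ⧸ M)).comap (QuotientGroup.mk' M) := by
        haveI := Subgroup.Normal.comap hZn (QuotientGroup.mk' M)
        rw [← hS]
        apply Subgroup.normalClosure_le_normal
        rintro _ ⟨i, rfl⟩
        show ((S i : F) : F ⧸ M) ∈ Subgroup.zpowers ((c : F) : F ⧸ M)
        have := (QuotientGroup.eq_one_iff _).mpr (hM1 i)
        simp only [QuotientGroup.mk_mul, QuotientGroup.mk_inv, QuotientGroup.mk_zpow] at this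
        rw [mul_inv_eq_one] at this
        rw [this]
        exact Subgroup.zpow_mem_zpowers _ _
      intro x hx
      obtain ⟨k, hk⟩ := Subgroup.mem_zpowers_iff.mp (hN1le (hle hx))
      have hk' : (x * (c ^ k)⁻¹) ∈ M := by
        rw [← QuotientGroup.eq_one_iff]
        simp only [QuotientGroup.mk_mul, QuotientGroup.mk_inv, QuotientGroup.mk_zpow]
        rw [hk]
        show ((x : F) : F ⧸ M) * ((x : F) : F ⧸ M)⁻¹ = 1
        group
      have hck : c ^ k ∈ N := by
        have h1 := N.mul_mem (N.inv_mem (hMN hk')) hx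
        have h2 : (x * (c ^ k)⁻¹)⁻¹ * x = c ^ k := by group
        rwa [h2] at h1
      have hdvd : (p : ℤ) ∣ k := by
        by_contra hnd
        have hcop : IsCoprime (p : ℤ) k :=
          (Int.prime_iff_natAbs_prime.mpr (by simpa using hp.out)).coprime_iff_not_dvd.mpr hnd
        obtain ⟨u, v, huv⟩ := hcop
        apply hc2
        have h1 : c = (c ^ p) ^ u * (c ^ k) ^ v := by
          rw [← zpow_natCast, ← zpow_mul, ← zpow_mul, ← zpow_add]
          have : (p : ℤ) * u + k * v = 1 := by rw [← huv]; ring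
          rw [this, zpow_one]
        rw [h1]
        exact N.mul_mem (Subgroup.zpow_mem _ hc3 _) (Subgroup.zpow_mem _ hck _)
      obtain ⟨q, rfl⟩ := hdvd
      have h3 : x = (x * (c ^ ((p : ℤ) * q))⁻¹) * (c ^ p) ^ q := by
        rw [zpow_mul, zpow_natCast]; group
      rw [h3]
      exact M.mul_mem hk' (Subgroup.zpow_mem _ hM3 _)

/-- normal subgroups of index `p^j` -/
def NN (p : ℕ) (F : Type) [Group F] (j : ℕ) : Type := {N : Subgroup F // N.Normal ∧ N.index = p ^ j}

theorem code (d : ℕ) (gen : Fin d → F) (hgen : Subgroup.closure (Set.range gen) = ⊤) (j : ℕ) :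
    Nonempty (NN p F j ↪ Fin (p ^ ((d + 1) * (j * (j + 1) / 2)))) := by
  induction j with
  | zero =>
    refine ⟨⟨fun _ => ⟨0, pow_pos hp.out.pos _⟩, ?_⟩⟩
    rintro ⟨N, hN, hN2⟩ ⟨N', hN', hN2'⟩ -
    rw [pow_zero, Subgroup.index_eq_one] at hN2 hN2'
    apply Subtype.ext
    exact hN2.trans hN2'.symm
  | succ j ih =>
    obtain ⟨g⟩ := ih
    have hup : ∀ N : NN p F (j + 1), ∃ (N1 : NN p F j) (f : N1.1 →* Multiplicative (ZMod p)),
        N.1 ≤ N1.1 ∧ (∀ x : N1.1, f x = 1 ↔ (x : F) ∈ N.1) ∧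
        (∀ (x y : N1.1) (g : F), (y : F) = g * x * g⁻¹ → f y = f x) := by
      intro N
      haveI := N.2.1
      obtain ⟨N1, c, f, hN1n, hN1, hle, -, -, -, -, -, h1, h2⟩ := up N.1 j N.2.2
      exact ⟨⟨N1, hN1n, hN1⟩, f, hle, h1, h2⟩
    choose N1 f hle h1 h2 using hup
    have hgens : ∀ N : NN p F j, ∃ S : Fin (d + (d + 1) * j) → F,
        Subgroup.normalClosure (Set.range S) = N.1 := by
      intro N
      obtain ⟨ι, _, S, hc, hS⟩ := gens (p := p) d gen hgen j N.1 N.2.1 N.2.2
      refine ⟨S ∘ (Fintype.equivFinOfCardEq hc).symm, ?_⟩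
      rw [EquivLike.range_comp]
      exact hS
    choose S hS using hgens
    have hSm : ∀ N i, S N i ∈ N.1 := by
      intro N i
      rw [← hS N]
      exact Subgroup.subset_normalClosure ⟨i, rfl⟩
    let G : NN p F (j + 1) → Fin (p ^ ((d + 1) * (j * (j + 1) / 2))) ×
        (Fin (d + (d + 1) * j) → ZMod p) := fun N =>
      (g (N1 N), fun i => Multiplicative.toAdd (f N ⟨S (N1 N) i, hSm _ i⟩))
    have hG : Function.Injective G := by
      intro N N' hNN
      have e1 : N1 N = N1 N' := g.injective (congrArg Prod.fst hNN)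
      have e2 : ∀ i, f N ⟨S (N1 N) i, hSm _ i⟩ = f N' ⟨S (N1 N') i, hSm _ i⟩ := fun i =>
        congrFun (congrArg Prod.snd hNN) i
      -- the subgroup where f N and f N' agree
      have key : ∀ x (hx : x ∈ (N1 N).1) (hx' : x ∈ (N1 N').1), f N ⟨x, hx⟩ = f N' ⟨x, hx'⟩ := by
        haveI := (N1 N).2.1
        let K : Subgroup F :=
          { carrier := {x | ∃ (hx : x ∈ (N1 N).1) (hx' : x ∈ (N1 N').1), f N ⟨x, hx⟩ = f N' ⟨x, hx'⟩}
            one_mem' := ⟨Subgroup.one_mem _, Subgroup.one_mem _, by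
              rw [show (⟨1, Subgroup.one_mem _⟩ : (N1 N).1) = 1 from rfl,
                show (⟨1, Subgroup.one_mem _⟩ : (N1 N').1) = 1 from rfl, map_one, map_one]⟩
            mul_mem' := by
              rintro a b ⟨ha, ha', hab⟩ ⟨hb, hb', hbb⟩
              refine ⟨Subgroup.mul_mem _ ha hb, Subgroup.mul_mem _ ha' hb', ?_⟩
              rw [show (⟨a * b, Subgroup.mul_mem _ ha hb⟩ : (N1 N).1) = ⟨a, ha⟩ * ⟨b, hb⟩ from rfl,
                show (⟨a * b, Subgroup.mul_mem _ ha' hb'⟩ : (N1 N').1) = ⟨a, ha'⟩ * ⟨b, hb'⟩ from rfl,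
                map_mul, map_mul, hab, hbb]
            inv_mem' := by
              rintro a ⟨ha, ha', hab⟩
              refine ⟨Subgroup.inv_mem _ ha, Subgroup.inv_mem _ ha', ?_⟩
              rw [show (⟨a⁻¹, Subgroup.inv_mem _ ha⟩ : (N1 N).1) = (⟨a, ha⟩)⁻¹ from rfl,
                show (⟨a⁻¹, Subgroup.inv_mem _ ha'⟩ : (N1 N').1) = (⟨a, ha'⟩)⁻¹ from rfl,
                map_inv, map_inv, hab] }
        haveI hKn : K.Normal := by
          constructor
          rintro n ⟨hn, hn', hnn⟩ q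
          haveI := (N1 N').2.1
          have m1 : q * n * q⁻¹ ∈ (N1 N).1 := (N1 N).2.1.conj_mem n hn q
          have m2 : q * n * q⁻¹ ∈ (N1 N').1 := (N1 N').2.1.conj_mem n hn' q
          refine ⟨m1, m2, ?_⟩
          rw [h2 N ⟨n, hn⟩ ⟨_, m1⟩ q rfl, h2 N' ⟨n, hn'⟩ ⟨_, m2⟩ q rfl, hnn]
        have hKle : (N1 N).1 ≤ K := by
          rw [← hS (N1 N)]
          apply Subgroup.normalClosure_le_normal
          rintro _ ⟨i, rfl⟩
          have m2 : S (N1 N) i ∈ (N1 N').1 := by rw [← e1]; exact hSm _ i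
          refine ⟨hSm _ i, m2, ?_⟩
          rw [e2 i]
          congr 1
          apply Subtype.ext
          show S (N1 N') i = S (N1 N) i
          rw [e1]
        intro x hx hx'
        obtain ⟨_, _, h⟩ := hKle hx
        exact h
      apply Subtype.ext
      ext x
      constructor
      · intro hx
        have m1 : x ∈ (N1 N).1 := hle N hx
        have m2 : x ∈ (N1 N').1 := by rw [← e1]; exact m1
        rw [← h1 N' ⟨x, m2⟩, ← key x m1 m2, h1 N]
        exact hx
      · intro hx
        have m2 : x ∈ (N1 N').1 := hle N' hx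
        have m1 : x ∈ (N1 N).1 := by rw [e1]; exact m2
        rw [← h1 N ⟨x, m1⟩, key x m1 m2, h1 N']
        exact hx
    haveI : NeZero p := ⟨hp.out.ne_zero⟩
    have hcard : Fintype.card (Fin (p ^ ((d + 1) * (j * (j + 1) / 2))) ×
        (Fin (d + (d + 1) * j) → ZMod p)) ≤
        Fintype.card (Fin (p ^ ((d + 1) * ((j + 1) * (j + 1 + 1) / 2)))) := by
      rw [Fintype.card_prod, Fintype.card_fin, Fintype.card_fin, Fintype.card_fun, ZMod.card,
        Fintype.card_fin, ← pow_add]
      apply Nat.pow_le_pow_right hp.out.pos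
      have h3 : (j + 1) * (j + 1 + 1) / 2 = j * (j + 1) / 2 + (j + 1) := by
        rw [show (j + 1) * (j + 1 + 1) = j * (j + 1) + (j + 1) * 2 by ring,
          Nat.add_mul_div_right _ _ (by norm_num)]
      rw [h3]
      ring_nf
      omega
    obtain ⟨e⟩ := Function.Embedding.nonempty_of_card_le hcard
    exact ⟨⟨fun N => e (G N), fun N N' h => hG (e.injective h)⟩⟩

end SmallM

open SmallM in
theorem small : Small_Stmt := by
  intro p hp d m
  obtain ⟨g⟩ := code (p := p) (F := FreeGroup (Fin d)) d FreeGroup.of (FreeGroup.closure_range_of _) m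
  have hsurj : ∀ O : GenObj p d m, Function.Surjective (FreeGroup.lift O.g) := by
    intro O
    rw [← MonoidHom.range_eq_top, FreeGroup.range_lift_eq_closure]
    exact O.gen
  have hidx : ∀ O : GenObj p d m, (FreeGroup.lift O.g).ker.index = p ^ m := by
    intro O
    rw [Subgroup.index_ker, MonoidHom.range_eq_top.mpr (hsurj O), Subgroup.card_top]
    exact O.card
  refine ⟨fun O => g ⟨(FreeGroup.lift O.g).ker, MonoidHom.normal_ker _, hidx O⟩, ?_⟩
  intro O O' h
  have h1 := g.injective h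
  have h2 : (FreeGroup.lift O.g).ker = (FreeGroup.lift O'.g).ker := congrArg Subtype.val h1
  exact ⟨(QuotientGroup.quotientKerEquivOfSurjective _ (hsurj O)).symm.trans
    ((QuotientGroup.quotientMulEquivOfEq h2).trans
      (QuotientGroup.quotientKerEquivOfSurjective _ (hsurj O')))⟩

end Pool.Agent.Helper37.SM
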