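import Mathlib
import Pool.Agent.Helper37.SM.Stmts
import Pool.Agent.Helper37.SM.Code

set_option autoImplicit false

namespace Pool.Agent.Helper37.SM

/-- Homomorphisms on `R s i` agreeing on the marks are equal. -/
theorem hom_ext_R {G H : Type*} [Group G] [Group H] {s : ℕ → G} {i : ℕ} (f g : ↥(R s i) →* H)
    (hfg : ∀ j < i, ∀ x : R s i, (x : G) = s j → f x = g x) : f = g := by
  have key : ∀ x : G, ∀ hx : x ∈ R s i, f ⟨x, hx⟩ = g ⟨x, hx⟩ := by
    intro x hx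
    have h2 : ∀ x : G, ∀ hx : x ∈ Subgroup.closure (s '' Set.Iio i),
        (fun (y : G) (hy : y ∈ Subgroup.closure (s '' Set.Iio i)) =>
          f ⟨y, hy⟩ = g ⟨y, hy⟩) x hx := by
      intro x hx
      induction hx using Subgroup.closure_induction with
      | mem x hx =>
        obtain ⟨j, hj, rfl⟩ := hx
        exact hfg j hj _ rfl
      | one => exact (map_one f).trans (map_one g).symm
      | mul x y hx hy h1 h2 =>
        have e1 : f (⟨x, hx⟩ * ⟨y, hy⟩ : ↥(R s i)) = g (⟨x, hx⟩ * ⟨y, hy⟩ : ↥(R s i)) := by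
          rw [map_mul, map_mul]
          exact congrArg₂ (· * ·) h1 h2
        exact e1
      | inv x hx h1 =>
        have e1 : f ((⟨x, hx⟩ : ↥(R s i))⁻¹) = g ((⟨x, hx⟩ : ↥(R s i))⁻¹) := by
          rw [map_inv, map_inv]
          exact congrArg (·⁻¹) h1
        exact e1
    exact h2 x hx
  ext x
  exact key x x.2

/-- conjugation by `y` as an automorphism of a subgroup of a finite group -/
noncomputable def conjAut {G : Type*} [Group G] [Finite G] (K : Subgroup G) (y : G)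
    (h : ∀ x ∈ K, y⁻¹ * x * y ∈ K) : MulAut K :=
  MulEquiv.ofBijective
    ({ toFun := fun x => ⟨y⁻¹ * x * y, h x x.2⟩
       map_one' := by ext; simp
       map_mul' := by intro a b; ext; simp; group } : K →* K)
    (Finite.injective_iff_bijective.mp (by
      intro a b hab
      have h1 : y⁻¹ * (a : G) * y = y⁻¹ * (b : G) * y := congrArg Subtype.val hab
      ext
      simpa using h1))

@[simp] theorem conjAut_coe {G : Type*} [Group G] [Finite G] (K : Subgroup G) (y : G)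
    (h : ∀ x ∈ K, y⁻¹ * x * y ∈ K) (x : K) : ((conjAut K y h x : K) : G) = y⁻¹ * x * y := rfl

section
variable {π : Par}

/-- `R s i` is normalised by the `h k`. -/
theorem h_norm (O : Obj π) (i : ℕ) (hi : i ≤ π.m + π.t) (k : ℕ) (hk : k < π.t) :
    ∀ x ∈ R O.s i, (O.h k)⁻¹ * x * O.h k ∈ R O.s i := by
  intro x hx
  unfold R at hx
  induction hx using Subgroup.closure_induction with
  | mem x hx =>
    obtain ⟨j, hj, rfl⟩ := hx
    have hj' : j < i := hj
    have h1 := O.good.hcomm j (by omega) k hk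
    have h2 := R_mono O.s hj'.le h1
    have h3 := mem_R O.s hj'
    have h4 := mul_mem h3 h2
    have h5 : O.s j * ((O.s j)⁻¹ * (O.h k)⁻¹ * O.s j * O.h k) = (O.h k)⁻¹ * O.s j * O.h k := by
      group
    rwa [h5] at h4
  | one => simp
  | mul x y _ _ h1 h2 =>
    have h4 := mul_mem h1 h2
    have h5 : (O.h k)⁻¹ * x * O.h k * ((O.h k)⁻¹ * y * O.h k) = (O.h k)⁻¹ * (x * y) * O.h k := by
      group
    rwa [h5] at h4
  | inv x _ h1 =>
    have h4 := inv_mem h1
    have h5 : ((O.h k)⁻¹ * x * O.h k)⁻¹ = (O.h k)⁻¹ * x⁻¹ * O.h k := by group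
    rwa [h5] at h4

/-- an isomorphism matching the marks maps `R s j` onto `R s' j` -/
theorem map_R {G G' : Type*} [Group G] [Group G'] {s : ℕ → G} {s' : ℕ → G'} {i : ℕ}
    (τ : R s i ≃* R s' i) (hτ : ∀ j < i, ∀ x : R s i, (x : G) = s j → (τ x : G') = s' j)
    {j : ℕ} (hj : j ≤ i) (x : R s i) (hx : (x : G) ∈ R s j) : (τ x : G') ∈ R s' j := by
  have key : ∀ y : G, y ∈ Subgroup.closure (s '' Set.Iio j) → ∀ hy : y ∈ R s i,
      (τ ⟨y, hy⟩ : G') ∈ R s' j := by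
    intro y hy
    induction hy using Subgroup.closure_induction with
    | mem y hy =>
      obtain ⟨l, hl, rfl⟩ := hy
      have hl' : l < j := hl
      intro hy
      rw [hτ l (by omega) _ rfl]
      exact mem_R s' hl'
    | one =>
      intro hy
      have : (⟨1, hy⟩ : R s i) = 1 := rfl
      rw [this, map_one]
      exact one_mem _
    | mul a b ha hb h1 h2 =>
      intro hy
      have ha' : a ∈ R s i := R_mono s hj ha
      have hb' : b ∈ R s i := R_mono s hj hb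
      have : (⟨a * b, hy⟩ : R s i) = ⟨a, ha'⟩ * ⟨b, hb'⟩ := rfl
      rw [this, map_mul]
      exact mul_mem (h1 ha') (h2 hb')
    | inv a ha h1 =>
      intro hy
      have ha' : a ∈ R s i := R_mono s hj ha
      have : (⟨a⁻¹, hy⟩ : R s i) = (⟨a, ha'⟩ : R s i)⁻¹ := rfl
      rw [this, map_inv]
      exact inv_mem (h1 ha')
  exact key x hx x.2

theorem symm_marks {G G' : Type*} [Group G] [Group G'] {s : ℕ → G} {s' : ℕ → G'} {i : ℕ}
    (τ : R s i ≃* R s' i) (hτ : ∀ j < i, ∀ x : R s i, (x : G) = s j → (τ x : G') = s' j) :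
    ∀ j < i, ∀ x : R s' i, (x : G') = s' j → (τ.symm x : G) = s j := by
  intro j hj x hx
  have h1 : τ ⟨s j, mem_R s hj⟩ = x := by
    ext
    rw [hτ j hj _ rfl, hx]
  rw [← h1, MulEquiv.symm_apply_apply]

theorem map_R_iff {G G' : Type*} [Group G] [Group G'] {s : ℕ → G} {s' : ℕ → G'} {i : ℕ}
    (τ : R s i ≃* R s' i) (hτ : ∀ j < i, ∀ x : R s i, (x : G) = s j → (τ x : G') = s' j)
    {j : ℕ} (hj : j ≤ i) (x : R s i) : (x : G) ∈ R s j ↔ (τ x : G') ∈ R s' j := by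
  refine ⟨map_R τ hτ hj x, fun h => ?_⟩
  have := map_R τ.symm (symm_marks τ hτ) hj (τ x) h
  rwa [MulEquiv.symm_apply_apply] at this

/-- **Extension of the relation.** -/
theorem rel_succ (hext : Ext_Stmt) {i : ℕ} (hi : i < π.m + π.t) (O O' : Obj π)
    (τ : R O.s i ≃* R O'.s i)
    (hτ : ∀ j < i, ∀ x : R O.s i, (x : O.G) = O.s j → (τ x : O'.G) = O'.s j)
    (hη : ∀ k < π.t, ∀ x x2 : R O.s i, (x2 : O.G) = (O.h k)⁻¹ * x * O.h k →
      (τ x2 : O'.G) = (O'.h k)⁻¹ * (τ x : O'.G) * O'.h k)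
    (e : ℕ) (he : 0 < e)
    (he1 : ∀ k, 0 < k → k < e → (O.s i) ^ k ∉ R O.s i) (he2 : (O.s i) ^ e ∈ R O.s i)
    (he3 : ∀ k, 0 < k → k < e → (O'.s i) ^ k ∉ R O'.s i) (he4 : (O'.s i) ^ e ∈ R O'.s i)
    (hu : ∀ j < i, ∀ x : R O.s i, (x : O.G) = (O.s i)⁻¹ * O.s j * O.s i →
      (τ x : O'.G) = (O'.s i)⁻¹ * O'.s j * O'.s i)
    (hw : ∀ x : R O.s i, (x : O.G) = (O.s i) ^ e → (τ x : O'.G) = (O'.s i) ^ e)
    (hq : ∀ k < π.t, ∀ x : R O.s i, (x : O.G) = (O.s i)⁻¹ * (O.h k)⁻¹ * O.s i * O.h k →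
      (τ x : O'.G) = (O'.s i)⁻¹ * (O'.h k)⁻¹ * O'.s i * O'.h k) :
    Rel π (i + 1) O O' := by
  have hn := O.good.norm i hi
  have hn' := O'.good.norm i hi
  -- conjugation is matched
  have hconj : ∀ x x2 : R O.s i, (x2 : O.G) = (O.s i)⁻¹ * x * O.s i →
      (τ x2 : O'.G) = (O'.s i)⁻¹ * (τ x : O'.G) * O'.s i := by
    have h1 : (τ.toMonoidHom.comp (conjAut (R O.s i) (O.s i) hn).toMonoidHom) =
        ((conjAut (R O'.s i) (O'.s i) hn').toMonoidHom.comp τ.toMonoidHom) := by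
      apply hom_ext_R
      intro j hj x hx
      ext
      have h2 := hu j hj (conjAut (R O.s i) (O.s i) hn x) (by rw [conjAut_coe, hx])
      have h3 : ((conjAut (R O'.s i) (O'.s i) hn' (τ x) : R O'.s i) : O'.G) =
          (O'.s i)⁻¹ * O'.s j * O'.s i := by rw [conjAut_coe, hτ j hj x hx]
      exact h2.trans h3.symm
    intro x x2 hx2
    have h2 : x2 = conjAut (R O.s i) (O.s i) hn x := by
      ext; rw [hx2, conjAut_coe]
    have h3 := congrArg (fun f : R O.s i →* R O'.s i => ((f x : R O'.s i) : O'.G)) h1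
    rw [h2]
    exact h3
  obtain ⟨τ', h1, h2⟩ := hext O.G O'.G (R O.s i) (R O'.s i) τ (O.s i) (O'.s i) e hn hn' hconj he
    he1 he2 he3 he4 hw
  have e1 := R_succ O.s i
  have e2 := R_succ O'.s i
  let σ : R O.s (i + 1) ≃* R O'.s (i + 1) :=
    (MulEquiv.subgroupCongr e1).trans (τ'.trans (MulEquiv.subgroupCongr e2).symm)
  have hσ1 : ∀ (x : R O.s i) (x2 : R O.s (i + 1)), (x2 : O.G) = x → (σ x2 : O'.G) = τ x := by
    intro x x2 hx
    exact h1 x (MulEquiv.subgroupCongr e1 x2) hx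
  have hσ2 : ∀ x2 : R O.s (i + 1), (x2 : O.G) = O.s i → (σ x2 : O'.G) = O'.s i := by
    intro x2 hx
    exact h2 (MulEquiv.subgroupCongr e1 x2) hx
  have hσm : ∀ j < i + 1, ∀ x : R O.s (i + 1), (x : O.G) = O.s j → (σ x : O'.G) = O'.s j := by
    intro j hj x hx
    rcases Nat.lt_succ_iff_lt_or_eq.mp hj with h | h
    · rw [hσ1 ⟨O.s j, mem_R O.s h⟩ x hx]
      exact hτ j h _ rfl
    · subst h
      exact hσ2 x hx
  refine ⟨σ, hσm, ?_⟩
  intro k hk
  have hN := h_norm O (i + 1) hi k hk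
  have hN' := h_norm O' (i + 1) hi k hk
  have h3 : (σ.toMonoidHom.comp (conjAut (R O.s (i + 1)) (O.h k) hN).toMonoidHom) =
      ((conjAut (R O'.s (i + 1)) (O'.h k) hN').toMonoidHom.comp σ.toMonoidHom) := by
    apply hom_ext_R
    intro j hj x hx
    ext
    have h4 : ((conjAut (R O'.s (i + 1)) (O'.h k) hN' (σ x) : R O'.s (i + 1)) : O'.G) =
        (O'.h k)⁻¹ * O'.s j * O'.h k := by rw [conjAut_coe, hσm j hj x hx]
    refine Eq.trans ?_ h4.symm
    show ((σ (conjAut (R O.s (i + 1)) (O.h k) hN x) : R O'.s (i + 1)) : O'.G) = _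
    rcases Nat.lt_succ_iff_lt_or_eq.mp hj with h | h
    · -- old mark
      have hmem := h_norm O i hi.le k hk (O.s j) (mem_R O.s h)
      rw [hσ1 ⟨_, hmem⟩ (conjAut (R O.s (i + 1)) (O.h k) hN x) (by rw [conjAut_coe, hx])]
      have h5 := hη k hk ⟨O.s j, mem_R O.s h⟩ ⟨_, hmem⟩ rfl
      rw [h5, hτ j h _ rfl]
    · -- the new mark
      subst h
      have hc := O.good.hcomm j (by omega) k hk
      have hy : O.s j ∈ R O.s (j + 1) := mem_R O.s (Nat.lt_succ_self j)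
      have hc' : (O.s j)⁻¹ * (O.h k)⁻¹ * O.s j * O.h k ∈ R O.s (j + 1) :=
        R_mono O.s (Nat.le_succ j) hc
      have h5 : conjAut (R O.s (j + 1)) (O.h k) hN x = ⟨O.s j, hy⟩ * ⟨_, hc'⟩ := by
        ext
        rw [conjAut_coe, hx]
        show _ = O.s j * ((O.s j)⁻¹ * (O.h k)⁻¹ * O.s j * O.h k)
        group
      rw [h5, map_mul]
      show ((σ ⟨O.s j, hy⟩ : R O'.s (j + 1)) : O'.G) * ((σ ⟨_, hc'⟩ : R O'.s (j + 1)) : O'.G) = _
      rw [hσ2 _ rfl, hσ1 ⟨_, hc⟩ ⟨_, hc'⟩ rfl, hq k hk ⟨_, hc⟩ rfl]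
      group
  intro x x2 hx2
  have h4 : x2 = conjAut (R O.s (i + 1)) (O.h k) hN x := by
    ext; rw [hx2, conjAut_coe]
  have h5 := congrArg (fun f : R O.s (i + 1) →* R O'.s (i + 1) =>
    ((f x : R O'.s (i + 1)) : O'.G)) h3
  rw [h4]
  exact h5

end

end Pool.Agent.Helper37.SM
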