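import Mathlib
import Pool.Agent.Helper37.SM.StepBasic

set_option autoImplicit false

namespace Pool.Agent.Helper37.SM

section
variable {π : Par} {i : ℕ} {O O₀ : Obj π}

/-- the two properties of the isomorphism in `Rel` -/
structure IsRel (π : Par) (i : ℕ) (O O' : Obj π) (τ : R O.s i ≃* R O'.s i) : Prop where
  marks : ∀ j < i, ∀ x : R O.s i, (x : O.G) = O.s j → (τ x : O'.G) = O'.s j
  hconj : ∀ k < π.t, ∀ x x2 : R O.s i, (x2 : O.G) = (O.h k)⁻¹ * x * O.h k →
      (τ x2 : O'.G) = (O'.h k)⁻¹ * (τ x : O'.G) * O'.h k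

theorem rel_iff : Rel π i O O₀ ↔ ∃ τ : R O.s i ≃* R O₀.s i, IsRel π i O O₀ τ :=
  ⟨fun ⟨τ, h1, h2⟩ => ⟨τ, ⟨h1, h2⟩⟩, fun ⟨τ, h⟩ => ⟨τ, h.marks, h.hconj⟩⟩

/-- the automorphism `ξ` -/
noncomputable def xi (hi : i < π.m + π.t) (τ : R O.s i ≃* R O₀.s i) : MulAut (R O₀.s i) :=
  τ.symm.trans ((conjAut (R O.s i) (O.s i) (O.good.norm i hi)).trans τ)

theorem xi_apply (hi : i < π.m + π.t) (τ : R O.s i ≃* R O₀.s i) (x : R O.s i) :
    xi hi τ (τ x) = τ (conjAut (R O.s i) (O.s i) (O.good.norm i hi) x) := by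
  simp [xi]

/-- the element `q_k` -/
noncomputable def qq (hi : i < π.m + π.t) (τ : R O.s i ≃* R O₀.s i) (k : ℕ) (hk : k < π.t) :
    R O₀.s i :=
  τ ⟨(O.s i)⁻¹ * (O.h k)⁻¹ * O.s i * O.h k, O.good.hcomm i hi k hk⟩

/-- (x1) `ξ η = c(q) η ξ` -/
theorem xi_eta (hi : i < π.m + π.t) (τ : R O.s i ≃* R O₀.s i) (hτ : IsRel π i O O₀ τ)
    (k : ℕ) (hk : k < π.t) (x : R O₀.s i) :
    xi hi τ (conjAut (R O₀.s i) (O₀.h k) (h_norm O₀ i hi.le k hk) x) =
      qq hi τ k hk * conjAut (R O₀.s i) (O₀.h k) (h_norm O₀ i hi.le k hk) (xi hi τ x) *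
        (qq hi τ k hk)⁻¹ := by
  obtain ⟨x', rfl⟩ := τ.surjective x
  have e1 : conjAut (R O₀.s i) (O₀.h k) (h_norm O₀ i hi.le k hk) (τ x') =
      τ (conjAut (R O.s i) (O.h k) (h_norm O i hi.le k hk) x') := by
    ext
    rw [hτ.hconj k hk x' _ (conjAut_coe _ _ _ _), conjAut_coe]
  rw [e1, xi_apply, xi_apply]
  have e2 : conjAut (R O₀.s i) (O₀.h k) (h_norm O₀ i hi.le k hk)
      (τ (conjAut (R O.s i) (O.s i) (O.good.norm i hi) x')) =
      τ (conjAut (R O.s i) (O.h k) (h_norm O i hi.le k hk)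
        (conjAut (R O.s i) (O.s i) (O.good.norm i hi) x')) := by
    ext
    rw [hτ.hconj k hk _ _ (conjAut_coe _ _ _ _), conjAut_coe]
  rw [e2]
  unfold qq
  rw [← map_inv, ← map_mul, ← map_mul]
  congr 1
  ext
  simp only [conjAut_coe, Subgroup.coe_mul, Subgroup.coe_inv]
  group

/-- (x2) `x⁻¹ ξ(x)` lies in the commutator subgroup -/
theorem xi_comm (hi : i < π.m + π.t) (τ : R O.s i ≃* R O₀.s i) (hτ : IsRel π i O O₀ τ)
    (x : R O₀.s i) : (x : O₀.G)⁻¹ * (xi hi τ x : O₀.G) ∈ R O₀.s π.n := by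
  obtain ⟨x', rfl⟩ := τ.surjective x
  rw [xi_apply]
  have e1 : ((τ x' : R O₀.s i) : O₀.G)⁻¹ *
      ((τ (conjAut (R O.s i) (O.s i) (O.good.norm i hi) x') : R O₀.s i) : O₀.G) =
      ((τ (x'⁻¹ * conjAut (R O.s i) (O.s i) (O.good.norm i hi) x') : R O₀.s i) : O₀.G) := by
    rw [map_mul, map_inv]; rfl
  rw [e1]
  have hc : ((x'⁻¹ * conjAut (R O.s i) (O.s i) (O.good.norm i hi) x' : R O.s i) : O.G) ∈
      R O.s π.n := by
    have := O.good.comm (x' : O.G) (O.s i)
    simp only [Subgroup.coe_mul, Subgroup.coe_inv, conjAut_coe]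
    have e2 : (x' : O.G)⁻¹ * ((O.s i)⁻¹ * (x' : O.G) * O.s i) =
      (x' : O.G)⁻¹ * (O.s i)⁻¹ * x' * O.s i := by group
    rw [e2]
    exact this
  rcases le_total i π.n with h | h
  · exact R_mono O₀.s h (SetLike.coe_mem _)
  · exact map_R τ hτ.marks h _ hc

/-- (x4) the image of `h k` -/
theorem xi_h (hi : i < π.m + π.t) (τ : R O.s i ≃* R O₀.s i) (hτ : IsRel π i O O₀ τ)
    (k : ℕ) (hk : k < π.t) (hki : π.n + k < i) :
    (xi hi τ ⟨O₀.s (π.n + k), mem_R O₀.s hki⟩ : O₀.G) =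
      O₀.s (π.n + k) * ((qq hi τ k hk : R O₀.s i) : O₀.G)⁻¹ := by
  have e1 : (⟨O₀.s (π.n + k), mem_R O₀.s hki⟩ : R O₀.s i) =
      τ ⟨O.s (π.n + k), mem_R O.s hki⟩ := by
    ext
    rw [hτ.marks _ hki _ rfl]
  rw [e1, xi_apply]
  have e2 : O₀.s (π.n + k) = ((τ ⟨O.s (π.n + k), mem_R O.s hki⟩ : R O₀.s i) : O₀.G) := by
    rw [hτ.marks _ hki _ rfl]
  rw [e2]
  unfold qq
  rw [← Subgroup.coe_inv, ← Subgroup.coe_mul, ← map_inv, ← map_mul]
  congr 2
  ext
  simp only [conjAut_coe, Subgroup.coe_mul, Subgroup.coe_inv, O.good.mark k hk]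
  group

/-- (x3) rank: the values `ξ(c) c⁻¹` for `c ∈ C` are few -/
theorem xi_rank (hi : i < π.m + π.t) (τ : R O.s i ≃* R O₀.s i) (hτ : IsRel π i O O₀ τ) :
    {v : O₀.G | ∃ x : R O₀.s i, (x : O₀.G) ∈ R O₀.s (min i π.z) ∧
      v = (xi hi τ x : O₀.G) * (x : O₀.G)⁻¹}.ncard ≤ π.p ^ π.A := by
  classical
  set l := min i π.z with hl
  have hli : l ≤ i := min_le_left _ _
  have hlz : l ≤ π.z := min_le_right _ _
  -- the set of x in R₀ ∩ R l
  let C : Set (R O₀.s i) := {x | (x : O₀.G) ∈ R O₀.s l}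
  let F : Set (R O₀.s i) := {x | (x : O₀.G) ∈ R O₀.s l ∧ xi hi τ x = x}
  let g : R O₀.s i → O₀.G := fun x => (xi hi τ x : O₀.G) * (x : O₀.G)⁻¹
  have hset : {v : O₀.G | ∃ x : R O₀.s i, (x : O₀.G) ∈ R O₀.s l ∧
      v = (xi hi τ x : O₀.G) * (x : O₀.G)⁻¹} = g '' C := by
    ext v
    constructor
    · rintro ⟨x, hx, rfl⟩; exact ⟨x, hx, rfl⟩
    · rintro ⟨x, hx, rfl⟩; exact ⟨x, hx, rfl⟩
  rw [hset]
  -- cardinalities
  have hC : C.ncard = Nat.card (R O.s l) := by
    have e : C ≃ R O.s l :=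
      { toFun := fun x => ⟨(τ.symm x.1 : O.G), by
          have := map_R τ.symm (symm_marks τ hτ.marks) hli x.1 x.2
          exact this⟩
        invFun := fun y => ⟨τ ⟨y.1, R_mono O.s hli y.2⟩, map_R τ hτ.marks hli _ y.2⟩
        left_inv := by
          intro x
          ext
          simp
        right_inv := by
          intro y
          ext
          simp }
    exact Nat.card_congr e
  have hF : F.ncard = Nat.card {c : O.G // c ∈ R O.s l ∧ c * O.s i = O.s i * c} := by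
    have e : F ≃ {c : O.G // c ∈ R O.s l ∧ c * O.s i = O.s i * c} :=
      { toFun := fun x => ⟨(τ.symm x.1 : O.G),
          map_R τ.symm (symm_marks τ hτ.marks) hli x.1 x.2.1, by
          have h1 := x.2.2
          obtain ⟨y, hy⟩ := τ.surjective x.1
          rw [← hy, xi_apply] at h1
          have h2 := congrArg (fun u : R O.s i => (u : O.G)) (τ.injective h1)
          simp only [conjAut_coe] at h2
          rw [← hy, MulEquiv.symm_apply_apply]
          calc (y : O.G) * O.s i = O.s i * ((O.s i)⁻¹ * y * O.s i) := by group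
            _ = O.s i * y := by rw [h2]⟩
        invFun := fun y => ⟨τ ⟨y.1, R_mono O.s hli y.2.1⟩, map_R τ hτ.marks hli _ y.2.1, by
          rw [xi_apply]
          congr 1
          ext
          simp only [conjAut_coe]
          have := y.2.2
          rw [mul_assoc, this]
          group⟩
        left_inv := by
          intro x
          ext
          simp
        right_inv := by
          intro y
          ext
          simp }
    exact Nat.card_congr e
  have hrank := O.good.rank l hlz (O.s i)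
  rw [← hC, ← hF] at hrank
  -- fibres of g on C have at least |F| elements
  have hfin : C.Finite := Set.toFinite _
  have hFne : F.Nonempty := ⟨1, by
    refine ⟨?_, map_one _⟩
    exact one_mem _⟩
  have hFpos : 0 < F.ncard := (Set.ncard_pos (Set.toFinite _)).mpr hFne
  have hfib : ∀ v ∈ g '' C, F.ncard ≤ {x | x ∈ C ∧ g x = v}.ncard := by
    rintro v ⟨x, hx, rfl⟩
    have h1 : (fun f => x * f) '' F ⊆ {y | y ∈ C ∧ g y = g x} := by
      rintro _ ⟨f, hf, rfl⟩
      refine ⟨?_, ?_⟩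
      · show ((x * f : R O₀.s i) : O₀.G) ∈ R O₀.s l
        exact mul_mem hx hf.1
      · show ((xi hi τ (x * f) : R O₀.s i) : O₀.G) * ((x * f : R O₀.s i) : O₀.G)⁻¹ =
          (xi hi τ x : O₀.G) * (x : O₀.G)⁻¹
        rw [map_mul, hf.2]
        simp only [Subgroup.coe_mul]
        group
    calc F.ncard = ((fun f => x * f) '' F).ncard :=
          (Set.ncard_image_of_injective _ (mul_right_injective x)).symm
      _ ≤ _ := Set.ncard_le_ncard h1 (Set.toFinite _)
  have hmul : (g '' C).ncard * F.ncard ≤ C.ncard := by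
    rw [Set.ncard_eq_toFinset_card C hfin]
    have h2 := Finset.mul_card_image_le_card (s := hfin.toFinset) (f := g) F.ncard (by
      intro v hv
      rw [Finset.mem_image] at hv
      obtain ⟨x, hx, rfl⟩ := hv
      have hx' : x ∈ C := hfin.mem_toFinset.mp hx
      refine (hfib (g x) ⟨x, hx', rfl⟩).trans ?_
      rw [Set.ncard_eq_toFinset_card _ (Set.toFinite _)]
      apply Finset.card_le_card
      intro y hy
      rw [Set.Finite.mem_toFinset] at hy
      rw [Finset.mem_filter, Set.Finite.mem_toFinset]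
      exact hy)
    have h3 : (g '' C).ncard = (hfin.toFinset.image g).card := by
      rw [Set.ncard_eq_toFinset_card _ (Set.toFinite _)]
      congr 1
      ext v
      simp
    rw [h3, mul_comm]
    exact h2
  have h5 : (g '' C).ncard * F.ncard ≤ π.p ^ π.A * F.ncard := hmul.trans hrank
  exact Nat.le_of_mul_le_mul_right h5 hFpos

end

end Pool.Agent.Helper37.SM
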