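import Mathlib
import Pool.Agent.Helper37.SM.StepXi

set_option autoImplicit false

namespace Pool.Agent.Helper37.SM

section
variable {π : Par} {i : ℕ} {O O' O₀ : Obj π}

theorem exists_pow_mem (O : Obj π) (i : ℕ) : ∃ k, 0 < k ∧ (O.s i) ^ k ∈ R O.s i :=
  ⟨Nat.card O.G, Nat.card_pos, by rw [pow_card_eq_one']; exact one_mem _⟩

open Classical in
/-- order of the mark `i` modulo `R s i` -/
noncomputable def ee (O : Obj π) (i : ℕ) : ℕ := Nat.find (exists_pow_mem O i)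

theorem ee_pos (O : Obj π) (i : ℕ) : 0 < ee O i := by
  classical
  exact (Nat.find_spec (exists_pow_mem O i)).1

theorem ee_mem (O : Obj π) (i : ℕ) : (O.s i) ^ (ee O i) ∈ R O.s i := by
  classical
  exact (Nat.find_spec (exists_pow_mem O i)).2

theorem ee_min (O : Obj π) (i : ℕ) (k : ℕ) (hk : 0 < k) (hk2 : k < ee O i) :
    (O.s i) ^ k ∉ R O.s i := by
  classical
  intro h
  exact Nat.find_min (exists_pow_mem O i) hk2 ⟨hk, h⟩

theorem ee_le (O : Obj π) (i : ℕ) : ee O i ≤ π.p ^ π.m := by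
  classical
  rw [← O.good.cardG]
  exact Nat.find_min' (exists_pow_mem O i) ⟨Nat.card_pos, by rw [pow_card_eq_one']; exact one_mem _⟩

/-- the type of data -/
abbrev Dat (π : Par) (i : ℕ) (O₀ : Obj π) : Type :=
  Fin (π.p ^ π.m + 1) × O₀.G × (Fin π.t → O₀.G) × (Fin i → O₀.G)

/-- the data of `O` relative to `O₀` -/
noncomputable def dat (hi : i < π.m + π.t) (τ : R O.s i ≃* R O₀.s i) : Dat π i O₀ :=
  (⟨ee O i, Nat.lt_succ_of_le (ee_le O i)⟩, (τ ⟨_, ee_mem O i⟩ : O₀.G),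
    fun k => (qq hi τ k k.2 : O₀.G), fun j => (xi hi τ ⟨O₀.s j, mem_R O₀.s j.2⟩ : O₀.G))

/-- equal data implies the next relation -/
theorem rel_of_dat (hext : Ext_Stmt) (hi : i < π.m + π.t) (τ : R O.s i ≃* R O₀.s i)
    (hτ : IsRel π i O O₀ τ) (τ' : R O'.s i ≃* R O₀.s i) (hτ' : IsRel π i O' O₀ τ')
    (h : dat hi τ = dat hi τ') : Rel π (i + 1) O O' := by
  have he : ee O i = ee O' i := congrArg Fin.val (congrArg Prod.fst h)
  have hw : (τ ⟨_, ee_mem O i⟩ : O₀.G) = (τ' ⟨_, ee_mem O' i⟩ : O₀.G) :=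
    congrArg (fun x : Dat π i O₀ => x.2.1) h
  have hq : ∀ k (hk : k < π.t), qq hi τ k hk = qq hi τ' k hk := by
    intro k hk
    ext
    exact congrFun (congrArg (fun x : Dat π i O₀ => x.2.2.1) h) ⟨k, hk⟩
  have hu : ∀ j (hj : j < i), xi hi τ ⟨O₀.s j, mem_R O₀.s hj⟩ = xi hi τ' ⟨O₀.s j, mem_R O₀.s hj⟩ := by
    intro j hj
    ext
    exact congrFun (congrArg (fun x : Dat π i O₀ => x.2.2.2) h) ⟨j, hj⟩
  -- the composite isomorphism
  have hm' := symm_marks τ' hτ'.marks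
  have hmarks : ∀ j < i, ∀ x : R O.s i, (x : O.G) = O.s j →
      ((τ.trans τ'.symm) x : O'.G) = O'.s j := by
    intro j hj x hx
    exact hm' j hj (τ x) (hτ.marks j hj x hx)
  refine rel_succ hext hi O O' (τ.trans τ'.symm) hmarks ?_ (ee O i) (ee_pos O i)
    (fun k hk hk2 => ee_min O i k hk hk2) (ee_mem O i)
    (fun k hk hk2 => ee_min O' i k hk (he ▸ hk2)) (he ▸ ee_mem O' i) ?_ ?_ ?_
  · intro k hk x x2 hx2
    have h1 := hτ.hconj k hk x x2 hx2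
    have hN := h_norm O' i hi.le k hk
    have h2 := hτ'.hconj k hk (τ'.symm (τ x)) (conjAut (R O'.s i) (O'.h k) hN (τ'.symm (τ x)))
      (conjAut_coe _ _ _ _)
    rw [MulEquiv.apply_symm_apply] at h2
    have h3 : τ x2 = τ' (conjAut (R O'.s i) (O'.h k) hN (τ'.symm (τ x))) := by
      ext
      rw [h1, h2]
    show ((τ'.symm (τ x2) : R O'.s i) : O'.G) = _
    rw [h3, MulEquiv.symm_apply_apply, conjAut_coe]
    rfl
  · intro j hj x hx
    have h1 : x = conjAut (R O.s i) (O.s i) (O.good.norm i hi) ⟨O.s j, mem_R O.s hj⟩ := by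
      ext; rw [hx, conjAut_coe]
    have h2 : τ ⟨O.s j, mem_R O.s hj⟩ = ⟨O₀.s j, mem_R O₀.s hj⟩ := by
      ext; rw [hτ.marks j hj _ rfl]
    have h3 : τ' ⟨O'.s j, mem_R O'.s hj⟩ = ⟨O₀.s j, mem_R O₀.s hj⟩ := by
      ext; rw [hτ'.marks j hj _ rfl]
    have h4 : τ x = τ' (conjAut (R O'.s i) (O'.s i) (O'.good.norm i hi)
        ⟨O'.s j, mem_R O'.s hj⟩) := by
      rw [h1, ← xi_apply hi τ, ← xi_apply hi τ', h2, h3]
      exact hu j hj
    show ((τ'.symm (τ x) : R O'.s i) : O'.G) = _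
    rw [h4, MulEquiv.symm_apply_apply, conjAut_coe]
  · intro x hx
    have h1 : x = ⟨_, ee_mem O i⟩ := by ext; exact hx
    have h4 : τ x = τ' ⟨_, ee_mem O' i⟩ := by
      rw [h1]; ext; exact hw
    show ((τ'.symm (τ x) : R O'.s i) : O'.G) = _
    rw [h4, MulEquiv.symm_apply_apply, he]
  · intro k hk x hx
    have h1 : x = ⟨_, O.good.hcomm i hi k hk⟩ := by ext; exact hx
    have h4 : τ x = τ' ⟨_, O'.good.hcomm i hi k hk⟩ := by
      rw [h1]; exact hq k hk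
    show ((τ'.symm (τ x) : R O'.s i) : O'.G) = _
    rw [h4, MulEquiv.symm_apply_apply]

/-- the set of data -/
def Sdat (π : Par) (i : ℕ) (hi : i < π.m + π.t) (O₀ : Obj π) : Set (Dat π i O₀) :=
  {x | ∃ (O : Obj π) (τ : R O.s i ≃* R O₀.s i), IsRel π i O O₀ τ ∧ dat hi τ = x}

/-- **Fibre bound** from the key lemma. -/
theorem fiber_bound (hkey : Key_Stmt) (hi : i < π.m + π.t) (J : Set ℕ) (T : Set (Dat π i O₀))
    {O₁ : Obj π} (τ₁ : R O₁.s i ≃* R O₀.s i) (hτ₁ : IsRel π i O₁ O₀ τ₁)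
    (hT : ∀ x ∈ T, ∃ (O : Obj π) (τ : R O.s i ≃* R O₀.s i), IsRel π i O O₀ τ ∧ dat hi τ = x ∧
      x.1 = (dat hi τ₁).1 ∧ x.2.1 = (dat hi τ₁).2.1 ∧
      (∀ k (hk : k < π.t), qq hi τ k hk = qq hi τ₁ k hk) ∧
      ∀ j ∈ J, ∀ y : R O₀.s i, (y : O₀.G) = O₀.s j → xi hi τ y = xi hi τ₁ y) :
    T.ncard ≤ (π.p ^ π.z) ^ {j | j < i ∧ j ∉ J}.ncard := by
  classical
  let Γ : Set (MulAut (R O₀.s i)) := {γ | ∃ (O : Obj π) (τ : R O.s i ≃* R O₀.s i),
    IsRel π i O O₀ τ ∧ (∀ k (hk : k < π.t), qq hi τ k hk = qq hi τ₁ k hk) ∧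
    (∀ j ∈ J, ∀ y : R O₀.s i, (y : O₀.G) = O₀.s j → xi hi τ y = xi hi τ₁ y) ∧
    γ = (xi hi τ₁)⁻¹ * xi hi τ}
  have hΓ : Γ.ncard ≤ Nat.card (R O₀.s π.z) ^ {j | j < i ∧ j ∉ J}.ncard := by
    refine hkey O₀.G O₀.s i (Fin π.t) (fun k => O₀.h k) (R O₀.s π.n) (R O₀.s π.z) J Γ ?_ ?_ ?_ ?_ ?_ ?_
    · intro j hj
      exact O₀.good.norm j (by omega)
    · intro j hj k
      exact O₀.good.hcomm j (by omega) k k.2
    · intro v hv hk
      exact O₀.good.fix v hv (fun k hk' => hk ⟨k, hk'⟩)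
    · rintro γ ⟨O, τ, hτ, hq, -, rfl⟩ k x x2 hx2
      have hN := h_norm O₀ i hi.le k k.2
      have e1 : x2 = conjAut (R O₀.s i) (O₀.h k) hN x := by
        ext; rw [hx2, conjAut_coe]
      have e2 := xi_eta hi τ hτ k k.2 x
      have e3 := xi_eta hi τ₁ hτ₁ k k.2 (((xi hi τ₁)⁻¹ * xi hi τ) x)
      have e4 : xi hi τ₁ (((xi hi τ₁)⁻¹ * xi hi τ) x) = xi hi τ x := by
        show xi hi τ₁ ((xi hi τ₁).symm (xi hi τ x)) = xi hi τ x
        exact (xi hi τ₁).apply_symm_apply _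
      rw [e4, ← hq k k.2, ← e2] at e3
      have e5 : ((xi hi τ₁)⁻¹ * xi hi τ) x2 =
          conjAut (R O₀.s i) (O₀.h k) hN (((xi hi τ₁)⁻¹ * xi hi τ) x) := by
        apply (xi hi τ₁).injective
        rw [e3, e1]
        show xi hi τ₁ ((xi hi τ₁).symm (xi hi τ _)) = _
        exact (xi hi τ₁).apply_symm_apply _
      rw [e5, conjAut_coe]
    · rintro γ ⟨O, τ, hτ, hq, -, rfl⟩ x
      set w := ((xi hi τ₁)⁻¹ * xi hi τ) x with hw
      have e4 : xi hi τ₁ w = xi hi τ x := by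
        show xi hi τ₁ ((xi hi τ₁).symm (xi hi τ x)) = xi hi τ x
        exact (xi hi τ₁).apply_symm_apply _
      have e5 := xi_comm hi τ₁ hτ₁ w
      have e6 := xi_comm hi τ hτ x
      rw [e4] at e5
      have e7 := mul_mem e6 (inv_mem e5)
      have e8 : (x : O₀.G)⁻¹ * (xi hi τ x : O₀.G) * ((w : O₀.G)⁻¹ * (xi hi τ x : O₀.G))⁻¹ =
        (x : O₀.G)⁻¹ * w := by group
      rwa [e8] at e7
    · rintro γ ⟨O, τ, hτ, hq, hJ, rfl⟩ j hj x hx
      have e1 := hJ j hj x hx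
      show (xi hi τ₁).symm (xi hi τ x) = x
      rw [e1]
      exact (xi hi τ₁).symm_apply_apply _
  rw [O₀.good.cardz] at hΓ
  refine le_trans ?_ hΓ
  -- T is contained in the image of Γ
  let F : MulAut (R O₀.s i) → Dat π i O₀ := fun γ =>
    ((dat hi τ₁).1, (dat hi τ₁).2.1, (dat hi τ₁).2.2.1,
      fun j => (xi hi τ₁ (γ ⟨O₀.s j, mem_R O₀.s j.2⟩) : O₀.G))
  have hsub : T ⊆ F '' Γ := by
    intro x hx
    obtain ⟨O, τ, hτ, hd, h1, h2, hq, hJ⟩ := hT x hx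
    refine ⟨(xi hi τ₁)⁻¹ * xi hi τ, ⟨O, τ, hτ, hq, hJ, rfl⟩, ?_⟩
    have e3 : x.2.2.1 = (dat hi τ₁).2.2.1 := by
      rw [← hd]
      funext k
      show (qq hi τ k k.2 : O₀.G) = (qq hi τ₁ k k.2 : O₀.G)
      rw [hq k k.2]
    have e4 : x.2.2.2 = fun j : Fin i =>
        (xi hi τ₁ (((xi hi τ₁)⁻¹ * xi hi τ) ⟨O₀.s j, mem_R O₀.s j.2⟩) : O₀.G) := by
      rw [← hd]
      funext j
      show (xi hi τ ⟨O₀.s j, mem_R O₀.s j.2⟩ : O₀.G) =
        (xi hi τ₁ ((xi hi τ₁).symm (xi hi τ ⟨O₀.s j, mem_R O₀.s j.2⟩)) : O₀.G)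
      rw [(xi hi τ₁).apply_symm_apply]
    show ((dat hi τ₁).1, (dat hi τ₁).2.1, (dat hi τ₁).2.2.1, _) = x
    rw [← h1, ← h2, ← e3, ← e4]
  have hΓf : Γ.Finite := Set.toFinite _
  exact (Set.ncard_le_ncard hsub (hΓf.image F)).trans (Set.ncard_image_le hΓf)

end

end Pool.Agent.Helper37.SM
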