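import Mathlib
import Pool.Agent.Helper37.SM.StepData

set_option autoImplicit false

namespace Pool.Agent.Helper37.SM

theorem card_map_le' {G G' : Type*} [Group G] [Group G'] (H : Subgroup G) [Finite H]
    (f : G →* G') : Nat.card (H.map f) ≤ Nat.card H :=
  Nat.card_le_card_of_surjective (fun x : H => (⟨f x, x, x.2, rfl⟩ : H.map f)) (by
    rintro ⟨_, x, hx, rfl⟩
    exact ⟨⟨x, hx⟩, rfl⟩)

/-- Tuples generating a group not much larger than `D`. -/
theorem card_sat {G : Type} [Group G] [Finite G] (D : Subgroup G) (r N : ℕ) :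
    {v : Fin r → G | Nat.card (Subgroup.closure ((D : Set G) ∪ Set.range v)) ≤
      N * Nat.card D}.ncard ≤ (Nat.card G) ^ N * N ^ r * (Nat.card D) ^ r := by
  classical
  set S : Set (Fin r → G) := {v : Fin r → G | Nat.card (Subgroup.closure ((D : Set G) ∪ Set.range v)) ≤
      N * Nat.card D} with hS
  -- representatives of left cosets
  let ρ : G → G := fun x => (QuotientGroup.mk (s := D) x : G ⧸ D).out
  have hρ : ∀ x, (ρ x)⁻¹ * x ∈ D := by
    intro x
    have h1 : (QuotientGroup.mk (s := D) (ρ x) : G ⧸ D) = QuotientGroup.mk x := Quotient.out_eq _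
    exact QuotientGroup.eq.mp h1
  let F1 : Set (Fin r → G) := {u | (Set.range u).ncard ≤ N}
  have hF1 : F1.ncard ≤ (Nat.card G) ^ N * N ^ r := by
    have := card_few_values (ι := Fin r) (X := G) N F1 (fun u hu => hu)
    simpa using this
  -- the representatives of v ∈ S take few values
  have hfew : ∀ v ∈ S, (fun l => ρ (v l)) ∈ F1 := by
    intro v hv
    set H := Subgroup.closure ((D : Set G) ∪ Set.range v) with hH
    have hDH : D ≤ H := fun x hx => Subgroup.subset_closure (Or.inl hx)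
    have hvH : ∀ l, v l ∈ H := fun l => Subgroup.subset_closure (Or.inr ⟨l, rfl⟩)
    show (Set.range (fun l => ρ (v l))).ncard ≤ N
    -- map range × D → H
    have hDpos : 0 < Nat.card D := Nat.card_pos
    have h1 : (Set.range (fun l => ρ (v l))).ncard * Nat.card D ≤ Nat.card H := by
      have hinj : Function.Injective (fun q : (Set.range (fun l => ρ (v l))) × D =>
          (⟨q.1.1 * q.2.1, by
            obtain ⟨⟨_, ⟨l, rfl⟩⟩, d⟩ := q
            refine mul_mem ?_ (hDH d.2)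
            have h2 := hDH (hρ (v l))
            have h3 := mul_mem (hvH l) (inv_mem h2)
            have h4 : v l * ((ρ (v l))⁻¹ * v l)⁻¹ = ρ (v l) := by group
            rwa [h4] at h3⟩ : H)) := by
        rintro ⟨⟨_, ⟨l, rfl⟩⟩, d⟩ ⟨⟨_, ⟨l', rfl⟩⟩, d'⟩ h
        have h2 : ρ (v l) * (d : G) = ρ (v l') * (d' : G) := congrArg Subtype.val h
        have h3 : (QuotientGroup.mk (s := D) (ρ (v l)) : G ⧸ D) =
            QuotientGroup.mk (ρ (v l')) := by
          have e1 : (QuotientGroup.mk (s := D) (ρ (v l) * (d : G)) : G ⧸ D) =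
            QuotientGroup.mk (ρ (v l)) := QuotientGroup.mk_mul_of_mem _ d.2
          have e2 : (QuotientGroup.mk (s := D) (ρ (v l') * (d' : G)) : G ⧸ D) =
            QuotientGroup.mk (ρ (v l')) := QuotientGroup.mk_mul_of_mem _ d'.2
          rw [← e1, ← e2, h2]
        have h4 : ρ (v l) = ρ (v l') := by
          have e1 : (QuotientGroup.mk (s := D) (ρ (v l)) : G ⧸ D) = QuotientGroup.mk (v l) :=
            Quotient.out_eq _
          have e2 : (QuotientGroup.mk (s := D) (ρ (v l')) : G ⧸ D) = QuotientGroup.mk (v l') :=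
            Quotient.out_eq _
          have e3 : (QuotientGroup.mk (s := D) (v l) : G ⧸ D) = QuotientGroup.mk (v l') := by
            rw [← e1, ← e2, h3]
          show Quotient.out _ = Quotient.out _
          rw [e3]
        have h5 : (d : G) = d' := by
          rw [h4] at h2
          exact mul_left_cancel h2
        have h6 : d = d' := Subtype.ext h5
        subst h6
        simp only [Prod.mk.injEq, Subtype.mk.injEq, and_true]
        exact h4
      have h2 := Nat.card_le_card_of_injective _ hinj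
      rw [Nat.card_prod] at h2
      exact h2
    have h2 : (Set.range (fun l => ρ (v l))).ncard * Nat.card D ≤ N * Nat.card D := h1.trans hv
    exact Nat.le_of_mul_le_mul_right h2 hDpos
  -- S injects into F1 × (Fin r → D)
  have hsub : S ⊆ (fun q : (Fin r → G) × (Fin r → D) => fun l => q.1 l * (q.2 l : G)) ''
      (F1 ×ˢ Set.univ) := by
    intro v hv
    refine ⟨(fun l => ρ (v l), fun l => ⟨(ρ (v l))⁻¹ * v l, hρ (v l)⟩), ⟨hfew v hv, trivial⟩, ?_⟩
    funext l
    simp
  refine (Set.ncard_le_ncard hsub (Set.toFinite _)).trans ?_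
  refine (Set.ncard_image_le (Set.toFinite _)).trans ?_
  rw [Set.ncard_prod, Set.ncard_univ, Nat.card_fun, Nat.card_fin]
  exact Nat.mul_le_mul_right _ hF1

section
variable {π : Par} {i : ℕ} {O₀ : Obj π}

/-- number of indices `j < i` outside `[0,z)` -/
theorem ncard_free_A (i z : ℕ) : {j | j < i ∧ j ∉ {j | j < z ∧ j < i}}.ncard = i - z := by
  have : {j | j < i ∧ j ∉ {j | j < z ∧ j < i}} = (Finset.Ico z i : Set ℕ) := by
    ext j
    simp only [Set.mem_ofPred_eq, Finset.coe_Ico, Set.mem_Ico]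
    omega
  rw [this, Set.ncard_coe_finset, Nat.card_Ico]

theorem ncard_free_B (i b n r : ℕ) (hb : b ≤ n) (hi : n + r ≤ i) :
    {j | j < i ∧ j ∉ {j | j < b ∨ (n ≤ j ∧ j < n + r)}}.ncard = i - b - r := by
  have : {j | j < i ∧ j ∉ {j | j < b ∨ (n ≤ j ∧ j < n + r)}} =
      ((Finset.Ico b n ∪ Finset.Ico (n + r) i : Finset ℕ) : Set ℕ) := by
    ext j
    simp only [Set.mem_ofPred_eq, Finset.coe_union, Finset.coe_Ico, Set.mem_union, Set.mem_Ico]
    omega
  rw [this, Set.ncard_coe_finset, Finset.card_union_of_disjoint, Nat.card_Ico, Nat.card_Ico]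
  · omega
  · rw [Finset.disjoint_left]
    intro j hj hj'
    rw [Finset.mem_Ico] at hj hj'
    omega

/-- the differences `u_j s_j⁻¹` for `j < min i z` take few values -/
theorem few_C (hi : i < π.m + π.t) {O : Obj π} (τ : R O.s i ≃* R O₀.s i)
    (hτ : IsRel π i O O₀ τ) :
    (Set.range (fun j : Fin (min i π.z) => (dat hi τ).2.2.2 ⟨j, lt_of_lt_of_le j.2 (min_le_left _ _)⟩ *
      (O₀.s j)⁻¹)).ncard ≤ π.p ^ π.A := by
  refine le_trans (Set.ncard_le_ncard ?_ (Set.toFinite _)) (xi_rank hi τ hτ)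
  rintro _ ⟨j, rfl⟩
  exact ⟨⟨O₀.s j, mem_R O₀.s (lt_of_lt_of_le j.2 (min_le_left _ _))⟩, mem_R O₀.s j.2, rfl⟩

/-- number of the common prefixes -/
theorem card_prefix (π : Par) [Fact π.p.Prime] (i : ℕ) (O₀ : Obj π) :
    ((Set.univ : Set (Fin (π.p ^ π.m + 1))) ×ˢ (Set.univ : Set O₀.G) ×ˢ
      (Set.univ : Set (Fin π.t → O₀.G)) ×ˢ
      {δ : Fin (min i π.z) → O₀.G | (Set.range δ).ncard ≤ π.p ^ π.A}).ncard ≤
      π.p ^ (2 * π.m + 1 + π.m * π.t + π.m * π.p ^ π.A + π.A * π.m) := by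
  have hp : π.p.Prime := Fact.out
  have h1 := card_few_values (ι := Fin (min i π.z)) (X := O₀.G) (π.p ^ π.A)
    {δ : Fin (min i π.z) → O₀.G | (Set.range δ).ncard ≤ π.p ^ π.A} (fun u hu => hu)
  rw [Set.ncard_prod, Set.ncard_prod, Set.ncard_prod, Set.ncard_univ, Set.ncard_univ,
    Set.ncard_univ, Nat.card_fin, Nat.card_fun, O₀.good.cardG, Nat.card_fin]
  rw [O₀.good.cardG, Nat.card_fin] at h1
  have h2 : π.p ^ π.m + 1 ≤ π.p ^ (π.m + 1) := by
    have h3 : 1 ≤ π.p ^ π.m := Nat.one_le_pow _ _ hp.pos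
    have h4 : 2 * π.p ^ π.m ≤ π.p * π.p ^ π.m := Nat.mul_le_mul_right _ hp.two_le
    rw [pow_succ, mul_comm (π.p ^ π.m)]
    omega
  have hz : min i π.z ≤ π.m := by
    have := O₀.good.hz
    have := O₀.good.hb
    have := O₀.good.hL
    omega
  calc _ ≤ π.p ^ (π.m + 1) * (π.p ^ π.m * ((π.p ^ π.m) ^ π.t *
        ((π.p ^ π.m) ^ π.p ^ π.A * (π.p ^ π.A) ^ (min i π.z)))) := by
        gcongr
    _ = π.p ^ (π.m + 1 + (π.m + (π.m * π.t + (π.m * π.p ^ π.A + π.A * min i π.z)))) := by
        rw [← pow_mul, ← pow_mul, ← pow_mul, ← pow_add, ← pow_add, ← pow_add, ← pow_add]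
    _ ≤ _ := by
        apply Nat.pow_le_pow_right hp.pos
        have : π.A * min i π.z ≤ π.A * π.m := Nat.mul_le_mul_left _ hz
        omega

theorem card_Sdat_A (hkey : Key_Stmt) (π : Par) [Fact π.p.Prime] (i : ℕ) (hi : i < π.m + π.t)
    (O₀ : Obj π) : (Sdat π i hi O₀).ncard ≤ π.p ^ (base π + π.z * (i - π.z)) := by
  classical
  have hp : π.p.Prime := Fact.out
  let Y := Fin (π.p ^ π.m + 1) × O₀.G × (Fin π.t → O₀.G) × (Fin (min i π.z) → O₀.G)
  let T : Set Y := Set.univ ×ˢ Set.univ ×ˢ Set.univ ×ˢ {δ | (Set.range δ).ncard ≤ π.p ^ π.A}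
  let f : Dat π i O₀ → Y := fun x => (x.1, x.2.1, x.2.2.1,
    fun j => x.2.2.2 ⟨j, lt_of_lt_of_le j.2 (min_le_left _ _)⟩ * (O₀.s j)⁻¹)
  have h1 := ncard_le_mul_of_fibers f (Sdat π i hi O₀) T (π.p ^ (π.z * (i - π.z))) ?_ ?_
  · refine h1.trans ?_
    rw [pow_add]
    apply Nat.mul_le_mul_right
    refine (card_prefix π i O₀).trans (Nat.pow_le_pow_right hp.pos ?_)
    unfold base
    omega
  · rintro _ ⟨O, τ, hτ, rfl⟩
    exact ⟨trivial, trivial, trivial, few_C hi τ hτ⟩
  · intro y hy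
    by_cases hne : ∃ x, x ∈ Sdat π i hi O₀ ∧ f x = y
    · obtain ⟨_, ⟨O₁, τ₁, hτ₁, rfl⟩, hf1⟩ := hne
      have h2 := fiber_bound hkey hi {j | j < π.z ∧ j < i} {x | x ∈ Sdat π i hi O₀ ∧ f x = y} τ₁ hτ₁ ?_
      · rw [ncard_free_A, ← pow_mul] at h2
        exact h2
      · rintro _ ⟨⟨O, τ, hτ, rfl⟩, hf⟩
        have hff := hf.trans hf1.symm
        refine ⟨O, τ, hτ, rfl, congrArg (fun x : Y => x.1) hff, congrArg (fun x : Y => x.2.1) hff,
          ?_, ?_⟩
        · intro k hk
          ext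
          exact congrFun (congrArg (fun x : Y => x.2.2.1) hff) ⟨k, hk⟩
        · intro j hj y hy'
          have hji : j < i := hj.2
          have h3 := congrFun (congrArg (fun x : Y => x.2.2.2) hff) ⟨j, lt_min hji hj.1⟩
          have h4 := mul_right_cancel h3
          have h5 : y = ⟨O₀.s j, mem_R O₀.s hji⟩ := by ext; exact hy'
          rw [h5]
          ext
          exact h4
    · have : {x | x ∈ Sdat π i hi O₀ ∧ f x = y} = ∅ := by
        ext x
        simp only [Set.mem_ofPred_eq, Set.mem_empty_iff_false, iff_false]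
        exact fun h => hne ⟨x, h⟩
      rw [this, Set.ncard_empty]
      exact Nat.zero_le _

/-- saturation, transported to `O₀` -/
theorem sat_transport (hi : i < π.m + π.t) (hib : π.n + π.t + π.t1 ≤ i) {O : Obj π}
    (τ : R O.s i ≃* R O₀.s i) (hτ : IsRel π i O O₀ τ) (v : Fin π.t1 → O₀.G)
    (hv : ∀ l : Fin π.t1, ∃ x : R O₀.s i, (x : O₀.G) = O₀.s (π.n + π.t + l) ∧
      v l = (x : O₀.G)⁻¹ * (xi hi τ x : O₀.G)) :
    Nat.card (Subgroup.closure ((R O₀.s π.b : Set O₀.G) ∪ Set.range v)) ≤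
      π.p ^ π.a1 * Nat.card (R O₀.s π.b) := by
  classical
  have hbn := O.good.hb
  set K := Subgroup.closure ((R O.s π.b : Set O.G) ∪
      {x | ∃ l, π.n + π.t ≤ l ∧ l < π.n + π.t + π.t1 ∧
        x = (O.s l)⁻¹ * (O.s i)⁻¹ * O.s l * O.s i}) with hK
  have hsat : Nat.card K ≤ π.p ^ π.a1 * Nat.card (R O.s π.b) := O.good.sat i hib hi
  rw [O.good.cardb] at hsat
  rw [O₀.good.cardb]
  refine le_trans ?_ hsat
  have hKle : K ≤ R O.s i := by
    rw [hK, Subgroup.closure_le]
    rintro x (hx | ⟨l, hl1, hl2, rfl⟩)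
    · exact R_mono O.s (by omega) hx
    · exact R_mono O.s (by omega) (O.good.comm _ _)
  -- the image of K under τ
  let K' : Subgroup O₀.G := ((K.subgroupOf (R O.s i)).map τ.toMonoidHom).map (R O₀.s i).subtype
  have hmem : ∀ x : R O.s i, (x : O.G) ∈ K → (τ x : O₀.G) ∈ K' := by
    intro x hx
    exact ⟨τ x, ⟨x, hx, rfl⟩, rfl⟩
  have hle : Subgroup.closure ((R O₀.s π.b : Set O₀.G) ∪ Set.range v) ≤ K' := by
    rw [Subgroup.closure_le]
    rintro x (hx | ⟨l, rfl⟩)
    · have hxi : x ∈ R O₀.s i := R_mono O₀.s (by omega) hx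
      have h1 := map_R τ.symm (symm_marks τ hτ.marks) (j := π.b) (by omega) ⟨x, hxi⟩ hx
      have h2 := hmem (τ.symm ⟨x, hxi⟩) (Subgroup.subset_closure (Or.inl h1))
      rw [MulEquiv.apply_symm_apply] at h2
      exact h2
    · obtain ⟨x, hx, hvx⟩ := hv l
      rw [hvx]
      have hl : π.n + π.t + (l : ℕ) < i := by omega
      have h1 : x = τ ⟨O.s (π.n + π.t + l), mem_R O.s hl⟩ := by
        ext
        rw [hx, hτ.marks _ hl _ rfl]
      rw [h1, xi_apply]
      have h2 := hmem ((⟨O.s (π.n + π.t + l), mem_R O.s hl⟩ : R O.s i)⁻¹ *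
        conjAut (R O.s i) (O.s i) (O.good.norm i hi) ⟨O.s (π.n + π.t + l), mem_R O.s hl⟩) (by
          apply Subgroup.subset_closure
          refine Or.inr ⟨π.n + π.t + l, by omega, by omega, ?_⟩
          simp only [Subgroup.coe_mul, Subgroup.coe_inv, conjAut_coe]
          group)
      rw [map_mul, map_inv] at h2
      exact h2
  calc Nat.card (Subgroup.closure ((R O₀.s π.b : Set O₀.G) ∪ Set.range v)) ≤ Nat.card K' :=
        Nat.card_le_card_of_injective _ (Subgroup.inclusion_injective hle)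
    _ ≤ Nat.card ((K.subgroupOf (R O.s i)).map τ.toMonoidHom) := card_map_le' _ _
    _ ≤ Nat.card (K.subgroupOf (R O.s i)) := card_map_le' _ _
    _ ≤ Nat.card K := by
        rw [Nat.card_congr (Subgroup.subgroupOfEquivOfLe hKle).toEquiv]

theorem card_Sdat_B (hkey : Key_Stmt) (π : Par) [Fact π.p.Prime] (i : ℕ) (hi : i < π.m + π.t)
    (hib : π.n + π.t + π.t1 ≤ i)
    (O₀ : Obj π) : (Sdat π i hi O₀).ncard ≤
      π.p ^ (base π + (π.z * (i - π.b - π.t - π.t1) + π.t1 * π.b)) := by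
  classical
  have hp : π.p.Prime := Fact.out
  have hzb := O₀.good.hz
  have hbn := O₀.good.hb
  have hnL := O₀.good.hL
  let Y0 := Fin (π.p ^ π.m + 1) × O₀.G × (Fin π.t → O₀.G) × (Fin (min i π.z) → O₀.G)
  let Y := Y0 × (Fin π.t1 → O₀.G)
  let T0 : Set Y0 := Set.univ ×ˢ Set.univ ×ˢ Set.univ ×ˢ {δ | (Set.range δ).ncard ≤ π.p ^ π.A}
  let T1 : Set (Fin π.t1 → O₀.G) := {v | Nat.card (Subgroup.closure
    ((R O₀.s π.b : Set O₀.G) ∪ Set.range v)) ≤ π.p ^ π.a1 * Nat.card (R O₀.s π.b)}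
  let f : Dat π i O₀ → Y := fun x => ((x.1, x.2.1, x.2.2.1,
    fun j => x.2.2.2 ⟨j, lt_of_lt_of_le j.2 (min_le_left _ _)⟩ * (O₀.s j)⁻¹),
    fun l => (O₀.s (π.n + π.t + l))⁻¹ * x.2.2.2 ⟨π.n + π.t + l, by omega⟩)
  have h1 := ncard_le_mul_of_fibers f (Sdat π i hi O₀) (T0 ×ˢ T1)
    (π.p ^ (π.z * (i - π.b - π.t - π.t1))) ?_ ?_
  · refine h1.trans ?_
    have hc0 := card_prefix π i O₀
    have hc1 := card_sat (R O₀.s π.b) π.t1 (π.p ^ π.a1)
    rw [O₀.good.cardG, O₀.good.cardb] at hc1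
    rw [Set.ncard_prod]
    have hc1' : T1.ncard ≤ π.p ^ (π.m * π.p ^ π.a1 + π.a1 * π.m + π.t1 * π.b) := by
      show {v | Nat.card (Subgroup.closure
        ((R O₀.s π.b : Set O₀.G) ∪ Set.range v)) ≤ π.p ^ π.a1 * Nat.card (R O₀.s π.b)}.ncard ≤ _
      rw [O₀.good.cardb]
      refine hc1.trans ?_
      rw [← pow_mul, ← pow_mul, ← pow_mul, ← pow_add, ← pow_add]
      apply Nat.pow_le_pow_right hp.pos
      have h3 : π.a1 * π.t1 ≤ π.a1 * π.m := Nat.mul_le_mul_left _ (by omega)
      have h4 : π.b * π.t1 = π.t1 * π.b := mul_comm _ _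
      omega
    calc T0.ncard * T1.ncard * π.p ^ (π.z * (i - π.b - π.t - π.t1))
        ≤ π.p ^ (2 * π.m + 1 + π.m * π.t + π.m * π.p ^ π.A + π.A * π.m) *
          π.p ^ (π.m * π.p ^ π.a1 + π.a1 * π.m + π.t1 * π.b) *
          π.p ^ (π.z * (i - π.b - π.t - π.t1)) := by
          gcongr
      _ = π.p ^ (2 * π.m + 1 + π.m * π.t + π.m * π.p ^ π.A + π.A * π.m +
          (π.m * π.p ^ π.a1 + π.a1 * π.m + π.t1 * π.b) + π.z * (i - π.b - π.t - π.t1)) := by
          rw [← pow_add, ← pow_add]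
      _ ≤ _ := by
          apply Nat.pow_le_pow_right hp.pos
          unfold base
          omega
  · rintro _ ⟨O, τ, hτ, rfl⟩
    refine ⟨⟨trivial, trivial, trivial, few_C hi τ hτ⟩, ?_⟩
    exact sat_transport hi hib τ hτ _ (fun l =>
      ⟨⟨O₀.s (π.n + π.t + l), mem_R O₀.s (by omega)⟩, rfl, rfl⟩)
  · intro y hy
    by_cases hne : ∃ x, x ∈ Sdat π i hi O₀ ∧ f x = y
    · obtain ⟨_, ⟨O₁, τ₁, hτ₁, rfl⟩, hf1⟩ := hne
      have h2 := fiber_bound hkey hi {j | j < π.b ∨ (π.n ≤ j ∧ j < π.n + (π.t + π.t1))}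
        {x | x ∈ Sdat π i hi O₀ ∧ f x = y} τ₁ hτ₁ ?_
      · rw [ncard_free_B i π.b π.n (π.t + π.t1) hbn (by omega), ← pow_mul] at h2
        have h3 : i - π.b - (π.t + π.t1) = i - π.b - π.t - π.t1 := by omega
        rw [h3] at h2
        exact h2
      · rintro _ ⟨⟨O, τ, hτ, rfl⟩, hf⟩
        have hff := hf.trans hf1.symm
        have hq : ∀ k (hk : k < π.t), qq hi τ k hk = qq hi τ₁ k hk := by
          intro k hk
          ext
          exact congrFun (congrArg (fun x : Y => x.1.2.2.1) hff) ⟨k, hk⟩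
        -- agreement on the generators of K
        have hz : ∀ j (hj : j < π.z), xi hi τ ⟨O₀.s j, mem_R O₀.s (by omega)⟩ =
            xi hi τ₁ ⟨O₀.s j, mem_R O₀.s (by omega)⟩ := by
          intro j hj
          have h3 := congrFun (congrArg (fun x : Y => x.1.2.2.2) hff) ⟨j, lt_min (by omega) hj⟩
          have h4 := mul_right_cancel h3
          ext
          exact h4
        have hh : ∀ k (hk : k < π.t), xi hi τ ⟨O₀.s (π.n + k), mem_R O₀.s (by omega)⟩ =
            xi hi τ₁ ⟨O₀.s (π.n + k), mem_R O₀.s (by omega)⟩ := by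
          intro k hk
          ext
          rw [xi_h hi τ hτ k hk (by omega), xi_h hi τ₁ hτ₁ k hk (by omega), hq k hk]
        have ht1 : ∀ l (hl : l < π.t1),
            xi hi τ ⟨O₀.s (π.n + π.t + l), mem_R O₀.s (by omega)⟩ =
            xi hi τ₁ ⟨O₀.s (π.n + π.t + l), mem_R O₀.s (by omega)⟩ := by
          intro l hl
          have h3 := congrFun (congrArg (fun x : Y => x.2) hff) ⟨l, hl⟩
          have h4 := mul_left_cancel h3
          ext
          exact h4
        have hico : ∀ j (hj : π.n ≤ j ∧ j < π.n + (π.t + π.t1)),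
            xi hi τ ⟨O₀.s j, mem_R O₀.s (by omega)⟩ = xi hi τ₁ ⟨O₀.s j, mem_R O₀.s (by omega)⟩ := by
          rintro j ⟨hj1, hj2⟩
          by_cases hjt : j < π.n + π.t
          · obtain ⟨k, rfl⟩ := Nat.exists_eq_add_of_le hj1
            exact hh k (by omega)
          · obtain ⟨l, rfl⟩ := Nat.exists_eq_add_of_le (not_lt.mp hjt)
            exact ht1 l (by omega)
        -- agreement on K
        have hK : ∀ x : O₀.G, x ∈ Subgroup.closure
            (O₀.s '' (Set.Iio π.z ∪ Set.Ico π.n (π.n + π.t + π.t1))) →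
            ∀ hx : x ∈ R O₀.s i, xi hi τ ⟨x, hx⟩ = xi hi τ₁ ⟨x, hx⟩ := by
          intro x hx
          have hle : Subgroup.closure
            (O₀.s '' (Set.Iio π.z ∪ Set.Ico π.n (π.n + π.t + π.t1))) ≤ R O₀.s i := by
            rw [Subgroup.closure_le]
            rintro _ ⟨j, hj | hj, rfl⟩
            · exact mem_R O₀.s (by have : j < π.z := hj; omega)
            · exact mem_R O₀.s (by have : j < π.n + π.t + π.t1 := hj.2; omega)
          induction hx using Subgroup.closure_induction with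
          | mem x hx =>
            intro _
            obtain ⟨j, hj | hj, rfl⟩ := hx
            · exact hz j hj
            · exact hico j ⟨hj.1, by have : j < π.n + π.t + π.t1 := hj.2; omega⟩
          | one =>
            intro hx
            have : (⟨1, hx⟩ : R O₀.s i) = 1 := rfl
            rw [this, map_one, map_one]
          | mul a b ha hb h1 h2 =>
            intro hx
            have : (⟨a * b, hx⟩ : R O₀.s i) = ⟨a, hle ha⟩ * ⟨b, hle hb⟩ := rfl
            rw [this, map_mul, map_mul, h1 (hle ha), h2 (hle hb)]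
          | inv a ha h1 =>
            intro hx
            have : (⟨a⁻¹, hx⟩ : R O₀.s i) = (⟨a, hle ha⟩ : R O₀.s i)⁻¹ := rfl
            rw [this, map_inv, map_inv, h1 (hle ha)]
        refine ⟨O, τ, hτ, rfl, congrArg (fun x : Y => x.1.1) hff,
          congrArg (fun x : Y => x.1.2.1) hff, hq, ?_⟩
        intro j hj y hy'
        have hji : j < i := by
          rcases hj with hj | hj
          · omega
          · omega
        have h5 : y = ⟨O₀.s j, mem_R O₀.s hji⟩ := by ext; exact hy'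
        rw [h5]
        rcases hj with hj | hj
        · exact hK (O₀.s j) (O₀.good.clD (mem_R O₀.s hj)) _
        · exact hico j hj
    · have : {x | x ∈ Sdat π i hi O₀ ∧ f x = y} = ∅ := by
        ext x
        simp only [Set.mem_ofPred_eq, Set.mem_empty_iff_false, iff_false]
        exact fun h => hne ⟨x, h⟩
      rw [this, Set.ncard_empty]
      exact Nat.zero_le _

end

/-- **M-STEP** -/
theorem step_of (hext : Ext_Stmt) (hkey : Key_Stmt) : Step_Stmt := by
  classical
  intro π _ i hi O₀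
  let f : Obj π → Option (Dat π i O₀) := fun O =>
    if h : ∃ τ : R O.s i ≃* R O₀.s i, IsRel π i O O₀ τ then some (dat hi h.choose) else none
  refine ⟨Option (Dat π i O₀), f, some '' (Sdat π i hi O₀), Set.toFinite _, ?_, ?_, ?_⟩
  · rw [Set.ncard_image_of_injective _ (Option.some_injective _)]
    unfold cost
    split_ifs with h
    · exact card_Sdat_A hkey π i hi O₀
    · exact card_Sdat_B hkey π i hi (not_lt.mp h) O₀
  · intro O hO
    have h := rel_iff.mp hO
    show f O ∈ _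
    simp only [f, dif_pos h]
    exact ⟨_, ⟨O, h.choose, h.choose_spec, rfl⟩, rfl⟩
  · intro O O' hO hO' hf
    have h := rel_iff.mp hO
    have h' := rel_iff.mp hO'
    simp only [f, dif_pos h, dif_pos h'] at hf
    exact rel_of_dat hext hi h.choose h.choose_spec h'.choose h'.choose_spec
      (Option.some_injective _ hf)

end Pool.Agent.Helper37.SM
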