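import Pool.Agent.Helper37.SM.Stmts

set_option autoImplicit false

/-! Modules T2 and Rank (helper97). -/

namespace Pool.Agent.Helper37.SM

namespace T2M

variable {G : Type} [Group G]

/-- centraliser in `P` of the first `t` elements of `h` -/
def cen (P : Subgroup G) (t : ℕ) (h : ℕ → G) : Subgroup G where
  carrier := {v | v ∈ P ∧ ∀ k < t, v * h k = h k * v}
  mul_mem' := by
    rintro a b ⟨ha, ha'⟩ ⟨hb, hb'⟩
    refine ⟨P.mul_mem ha hb, fun k hk => ?_⟩
    rw [mul_assoc, hb' k hk, ← mul_assoc, ha' k hk, mul_assoc]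
  one_mem' := ⟨P.one_mem, fun k _ => by rw [one_mul, mul_one]⟩
  inv_mem' := by
    rintro a ⟨ha, ha'⟩
    refine ⟨P.inv_mem ha, fun k hk => ?_⟩
    have := ha' k hk
    rw [inv_mul_eq_iff_eq_mul, ← mul_assoc, this, mul_assoc, mul_inv_cancel, mul_one]

theorem mem_cen (P : Subgroup G) (t : ℕ) (h : ℕ → G) (v : G) :
    v ∈ cen P t h ↔ v ∈ P ∧ ∀ k < t, v * h k = h k * v := Iff.rfl

end T2M

open T2M in
theorem t2 : T2_Stmt := by
  intro p hp G _ _ hG P A
  classical
  have hp1 : 0 < p := hp.out.pos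
  -- minimise
  let f : ℕ × (ℕ → G) → ℕ := fun x => p ^ (A * x.1) * Nat.card (cen P x.1 x.2)
  obtain ⟨⟨t, h⟩, hmin⟩ : ∃ x, ∀ y, f x ≤ f y := by
    have hne : (Set.range f).Nonempty := ⟨f (0, fun _ => 1), ⟨_, rfl⟩⟩
    obtain ⟨x, hx⟩ := Nat.sInf_mem hne
    exact ⟨x, fun y => by rw [hx]; exact Nat.sInf_le ⟨y, rfl⟩⟩
  refine ⟨t, h, cen P t h, mem_cen P t h, ?_, ?_⟩
  · intro y
    have h1 := hmin (t + 1, fun k => if k = t then y else h k)
    simp only [f] at h1
    have h2 : Nat.card (cen P (t + 1) (fun k => if k = t then y else h k)) =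
        Nat.card {c : G // c ∈ cen P t h ∧ c * y = y * c} := by
      apply Nat.card_congr
      refine Equiv.subtypeEquivRight fun c => ?_
      rw [mem_cen, mem_cen]
      constructor
      · rintro ⟨ha, hb⟩
        refine ⟨⟨ha, fun k hk => ?_⟩, ?_⟩
        · have := hb k (by omega)
          rw [if_neg (by omega)] at this
          exact this
        · have := hb t (by omega)
          rw [if_pos rfl] at this
          exact this
      · rintro ⟨⟨ha, hb⟩, hc⟩
        refine ⟨ha, fun k hk => ?_⟩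
        by_cases hkt : k = t
        · simp only [if_pos hkt]; exact hc
        · simp only [if_neg hkt]; exact hb k (by omega)
    rw [h2] at h1
    have h3 : p ^ (A * (t + 1)) = p ^ (A * t) * p ^ A := by rw [← pow_add]; ring_nf
    rw [h3, mul_assoc] at h1
    exact Nat.le_of_mul_le_mul_left h1 (by positivity)
  · have h1 := hmin (0, h)
    simp only [f, mul_zero, pow_zero, one_mul] at h1
    refine h1.trans ?_
    have : cen P 0 h ≤ P := fun v hv => hv.1
    exact Nat.card_le_card_of_injective (Subgroup.inclusion this) (Subgroup.inclusion_injective this)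

theorem rank : Rank_Stmt := by
  intro G _ _ C X y N hXC hC
  let Z : Subgroup G := Subgroup.centralizer {y}
  have hZ : ∀ c : G, c ∈ Z ↔ c * y = y * c := by
    intro c
    simp only [Z, Subgroup.mem_centralizer_singleton_iff]
  have e : ∀ Y : Subgroup G, Nat.card {c : G // c ∈ Y ∧ c * y = y * c} * Z.relIndex Y = Nat.card Y := by
    intro Y
    have h1 : Nat.card {c : G // c ∈ Y ∧ c * y = y * c} = Nat.card (Z.subgroupOf Y) := by
      apply Nat.card_congr
      refine ⟨fun c => ⟨⟨c.1, c.2.1⟩, ?_⟩, fun c => ⟨c.1.1, c.1.2, ?_⟩, fun c => rfl, fun c => rfl⟩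
      · rw [Subgroup.mem_subgroupOf, hZ]
        exact c.2.2
      · have := c.2
        rw [Subgroup.mem_subgroupOf, hZ] at this
        exact this
    rw [h1]
    exact Subgroup.card_mul_index (Z.subgroupOf Y)
  have hpos : 0 < Nat.card {c : G // c ∈ C ∧ c * y = y * c} := by
    rw [Nat.card_pos_iff]
    exact ⟨⟨1, C.one_mem, by rw [one_mul, mul_one]⟩, inferInstance⟩
  have h1 : Z.relIndex C ≤ N := by
    rw [← e C, mul_comm] at hC
    exact Nat.le_of_mul_le_mul_right hC hpos
  have h2 : Z.relIndex X ≤ Z.relIndex C :=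
    Subgroup.relIndex_le_of_le_right hXC (Subgroup.index_ne_zero_of_finite (H := Z.subgroupOf C))
  rw [← e X, mul_comm]
  exact Nat.mul_le_mul_right _ (h2.trans h1)

end Pool.Agent.Helper37.SM
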