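import Mathlib
import Pool.Agent.Helper37.SM.Stmts
import Pool.Agent.Helper37.SM.Code

set_option autoImplicit false

namespace Pool.Agent.Helper37.SM

/-- the product of all steps -/
theorem coded_rel (hstep : Step_Stmt) (π : Par) [Fact π.p.Prime] :
    ∀ i ≤ π.m + π.t, Coded (Rel π i) (π.p ^ (∑ l ∈ Finset.range i, cost π l)) := by
  intro i
  induction i with
  | zero =>
    intro _
    refine ⟨fun _ => ⟨0, by simp⟩, ?_⟩
    intro O O' _
    have h1 : R O.s 0 = ⊥ := R_zero _
    have h2 : R O'.s 0 = ⊥ := R_zero _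
    have e : R O.s 0 ≃* R O'.s 0 :=
      (MulEquiv.subgroupCongr h1).trans
        ((MulEquiv.ofUnique (M := (⊥ : Subgroup O.G)) (N := (⊥ : Subgroup O'.G))).trans
          (MulEquiv.subgroupCongr h2).symm)
    have htriv : ∀ x : R O'.s 0, (x : O'.G) = 1 := by
      intro x
      have h3 : ∀ y : O'.G, y ∈ R O'.s 0 → y = 1 := by
        intro y hy
        rw [h2] at hy
        exact Subgroup.mem_bot.mp hy
      exact h3 x x.2
    refine ⟨e, fun j hj => absurd hj (Nat.not_lt_zero j), ?_⟩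
    intro k _ x x2 _
    rw [htriv, htriv]
    group
  | succ i ih =>
    intro hi
    rw [Finset.sum_range_succ, pow_add]
    exact (ih (by omega)).step (hstep π i (by omega))

/-- marked groups with parameters `π`, coded up to isomorphism -/
theorem coded_obj (hstep : Step_Stmt) (π : Par) [Fact π.p.Prime] :
    Coded (fun O O' : Obj π => Nonempty (O.G ≃* O'.G)) (π.p ^ tot π) := by
  refine (coded_rel hstep π (π.m + π.t) le_rfl).mono le_rfl ?_
  rintro O O' ⟨τ, -, -⟩
  have h1 := O.good.top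
  have h2 := O'.good.top
  exact ⟨(Subgroup.topEquiv.symm.trans (MulEquiv.subgroupCongr h1.symm)).trans
    (τ.trans ((MulEquiv.subgroupCongr h2).trans Subgroup.topEquiv))⟩

/-- If every object of `α` is isomorphic to (matches) an object of `β`, the coding transfers. -/
theorem Coded.transfer {α β : Type*} {r : α → α → Prop} {r' : β → β → Prop} {N : ℕ}
    (h : Coded r' N) (f : α → β) (hr : ∀ a a', r' (f a) (f a') → r a a') : Coded r N := by
  obtain ⟨g, hg⟩ := h
  exact ⟨fun a => g (f a), fun a b hab => hr _ _ (hg _ _ hab)⟩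

theorem upper (hstep : Step_Stmt) (hex : Exist_Stmt) (hsmall : Small_Stmt) (hnum : Num_Stmt) :
    Upper_Stmt := by
  classical
  intro p _
  have hp : p.Prime := Fact.out
  obtain ⟨C, hC⟩ := hnum p
  refine ⟨C + 20, fun m hm => ?_⟩
  set E : ℕ := 2 * m ^ 3 / 27 + C * m ^ 2 with hE
  -- the finite set of parameters: (option, z, b, n, t, t1, a1)
  -- index type
  let Idx := Fin 4 × Fin (m + 1) × Fin (m + 1) × Fin (m + 1) × Fin (m + 1) × Fin (m + 1)
  -- the parameter of an index
  let par : Idx → Par := fun q =>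
    ⟨p, m, q.2.1, q.2.2.1, q.2.2.2.1, q.2.2.2.2.1, q.2.2.2.2.2, 100000,
      if q.1 = 2 then 80 else 0⟩
  -- every group gets an index and a realisation
  have key : ∀ O : GrpObj p m, ∃ q : Idx,
      (q.1 ≠ 3 ∧ tot (par q) ≤ E ∧ ∃ (s h : ℕ → O.G), Good (par q) s h) ∨
      (q.1 = 3 ∧ ((m - (q.2.2.2.1 : ℕ)) + 1) * (m * (m + 1) / 2) ≤ E ∧
        ∃ g : Fin (m - (q.2.2.2.1 : ℕ)) → O.G, Subgroup.closure (Set.range g) = ⊤) := by
    intro O
    have hfin : Finite O.G := by
      apply Nat.finite_of_card_ne_zero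
      rw [O.card]
      exact (pow_pos hp.pos _).ne'
    obtain ⟨z, n, t, h, hzn, hnm, hAt, hgen, ⟨s0, h0⟩, ⟨t1, s1, ht1, hnt1, h1⟩, hopt2⟩ :=
      hex p O.G m 100000 (by norm_num) O.card
    have htm : t ≤ m := by omega
    rcases hC m z n t hm hzn hnm hAt with hn | hn | hn | hn
    · refine ⟨(0, ⟨z, by omega⟩, ⟨z, by omega⟩, ⟨n, by omega⟩, ⟨t, by omega⟩, ⟨0, by omega⟩),
        Or.inl ⟨?_, ?_, ?_⟩⟩
      · show (0 : Fin 4) ≠ 3
        decide
      · simpa [par] using hn
      · exact ⟨s0, h, by simpa [par] using h0⟩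
    · refine ⟨(1, ⟨z, by omega⟩, ⟨n, by omega⟩, ⟨n, by omega⟩, ⟨t, by omega⟩, ⟨t1, by omega⟩),
        Or.inl ⟨?_, ?_, ?_⟩⟩
      · show (1 : Fin 4) ≠ 3
        decide
      · simpa [par] using hn t1 ht1 hnt1
      · exact ⟨s1, h, by simpa [par] using h1⟩
    · obtain ⟨j0, hj0, hn⟩ := hn
      obtain ⟨t1, b, s2, hb1, hb2, hnt1, hw, h2⟩ := hopt2 j0 hj0 80 (by norm_num)
      refine ⟨(2, ⟨z, by omega⟩, ⟨b, by omega⟩, ⟨n, by omega⟩, ⟨t, by omega⟩, ⟨t1, by omega⟩),
        Or.inl ⟨?_, ?_, ?_⟩⟩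
      · show (2 : Fin 4) ≠ 3
        decide
      · simpa [par] using hn t1 b hb1 hb2 hnt1 hw
      · exact ⟨s2, h, by simpa [par] using h2⟩
    · refine ⟨(3, ⟨z, by omega⟩, ⟨z, by omega⟩, ⟨n, by omega⟩, ⟨t, by omega⟩, ⟨0, by omega⟩),
        Or.inr ⟨rfl, ?_, ?_⟩⟩
      · simpa using hn
      · simpa using hgen
  choose idx hidx using key
  have hcardIdx : Fintype.card Idx = 4 * ((m + 1) * ((m + 1) * ((m + 1) * ((m + 1) * (m + 1))))) := by
    simp [Idx]
  let eI : Idx ≃ Fin (Fintype.card Idx) := Fintype.equivFin Idx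
  have hmain : Coded (fun O O' : GrpObj p m => Nonempty (O.G ≃* O'.G)) (Fintype.card Idx * p ^ E) := by
    apply Coded.sigma (fun O => eI (idx O))
    intro k
    by_cases hne : ∃ O : GrpObj p m, eI (idx O) = k
    · obtain ⟨O₁, hO₁⟩ := hne
      have hk : ∀ a : {O : GrpObj p m // eI (idx O) = k}, idx a.1 = idx O₁ := by
        intro a
        exact eI.injective (a.2.trans hO₁.symm)
      rcases hidx O₁ with ⟨h3, htot, -⟩ | ⟨h3, htot, -⟩
      · have : Fact (par (idx O₁)).p.Prime := ⟨hp⟩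
        have hco := coded_obj hstep (par (idx O₁))
        have hreal : ∀ a : {O : GrpObj p m // eI (idx O) = k},
            ∃ (s h : ℕ → a.1.G), Good (par (idx O₁)) s h := by
          intro a
          rcases hidx a.1 with ⟨_, _, hg⟩ | ⟨h3', _⟩
          · rw [hk a] at hg
            exact hg
          · rw [hk a] at h3'
            exact absurd h3' h3
        choose s h hg using hreal
        have hfin : ∀ a : {O : GrpObj p m // eI (idx O) = k}, Finite a.1.G := by
          intro a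
          apply Nat.finite_of_card_ne_zero
          rw [a.1.card]
          exact (pow_pos hp.pos _).ne'
        refine ((Coded.transfer hco (fun a => (⟨a.1.G, s a, h a, hg a⟩ : Obj (par (idx O₁))))
          (fun a a' h => h)).mono (Nat.pow_le_pow_right hp.pos htot) (fun _ _ h => h))
      · have hco := hsmall p (m - ((idx O₁).2.2.2.1 : ℕ)) m
        have hreal : ∀ a : {O : GrpObj p m // eI (idx O) = k},
            ∃ g : Fin (m - ((idx O₁).2.2.2.1 : ℕ)) → a.1.G, Subgroup.closure (Set.range g) = ⊤ := by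
          intro a
          rcases hidx a.1 with ⟨h3', _, _⟩ | ⟨_, _, hg⟩
          · rw [hk a] at h3'
            exact absurd h3 h3'
          · rw [hk a] at hg
            exact hg
        choose g hg using hreal
        refine ((Coded.transfer hco (fun a => (⟨a.1.G, a.1.card, g a, hg a⟩ :
          GenObj p (m - ((idx O₁).2.2.2.1 : ℕ)) m)) (fun a a' h => h)).mono
          (Nat.pow_le_pow_right hp.pos htot) (fun _ _ h => h))
    · have : IsEmpty {O : GrpObj p m // eI (idx O) = k} := ⟨fun a => hne ⟨a.1, a.2⟩⟩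
      exact ⟨fun a => (this.false a).elim, fun a => (this.false a).elim⟩
  refine hmain.mono ?_ (fun _ _ h => h)
  -- 4 (m+1)^5 ≤ p^(20 m^2)
  have hp2 : 2 ≤ p := hp.two_le
  have h1 : m + 1 ≤ p ^ m := by
    calc m + 1 ≤ 2 ^ m := Nat.lt_two_pow_self
      _ ≤ p ^ m := Nat.pow_le_pow_left hp2 m
  have h2 : 4 ≤ p ^ (2 * m) := by
    calc 4 = 2 ^ 2 := by norm_num
      _ ≤ p ^ 2 := Nat.pow_le_pow_left hp2 2
      _ ≤ p ^ (2 * m) := Nat.pow_le_pow_right hp.pos (by omega)
  calc Fintype.card Idx * p ^ E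
      ≤ (p ^ (2 * m) * (p ^ m * (p ^ m * (p ^ m * (p ^ m * p ^ m))))) * p ^ E := by
        rw [hcardIdx]
        gcongr
    _ = p ^ (7 * m + E) := by
        rw [← pow_add, ← pow_add, ← pow_add, ← pow_add, ← pow_add, ← pow_add]
        congr 1
        ring
    _ ≤ p ^ (2 * m ^ 3 / 27 + (C + 20) * m ^ 2) := by
        apply Nat.pow_le_pow_right hp.pos
        rw [hE]
        nlinarith [Nat.le_self_pow (n := 2) (by norm_num) m]

end Pool.Agent.Helper37.SM
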